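import Mathlib

set_option linter.unusedSectionVars false
set_option linter.overlappingInstances false
set_option linter.unusedVariables false

namespace Pool.Agent.Helper69_Lech

open Module Submodule

/-- The codimension (over `ℂ`) of the principal ideal generated by `s`. -/
noncomputable def dl {B : Type*} [CommRing B] [Algebra ℂ B] (s : B) : ℕ :=
  finrank ℂ (B ⧸ Ideal.span {s})

/-- The codimension (over `ℂ`) of an ideal. -/
noncomputable def nu {B : Type*} [CommRing B] [Algebra ℂ B] (I : Ideal B) : ℕ :=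
  finrank ℂ (B ⧸ I)

/-- Abstract pole-order filtration of the affine coordinate ring of a curve of genus one. -/
structure PoleData (B : Type*) [CommRing B] [Algebra ℂ B] (Bl : ℕ → Submodule ℂ B) : Prop where
  fin_quot : ∀ s : B, s ≠ 0 → Module.Finite ℂ (B ⧸ Ideal.span {s})
  mem_iff : ∀ m s, s ∈ Bl m ↔ s = 0 ∨ dl s ≤ m
  rank : ∀ m, 1 ≤ m → finrank ℂ (Bl m) = m

section Abstract

variable {B : Type*} [CommRing B] [IsDedekindDomain B] [Algebra ℂ B]
  {Bl : ℕ → Submodule ℂ B}

theorem dl_eq_nu (s : B) : dl s = nu (Ideal.span {s}) := rfl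

theorem PoleData.fin_ideal (hB : PoleData B Bl) {I : Ideal B} (hI : I ≠ ⊥) :
    Module.Finite ℂ (B ⧸ I) := by
  obtain ⟨s, hs, hs0⟩ := Submodule.exists_mem_ne_zero_of_ne_bot hI
  have := hB.fin_quot s hs0
  have hle : Ideal.span {s} ≤ I := (Ideal.span_singleton_le_iff_mem I).mpr hs
  exact Module.Finite.of_surjective (Ideal.Quotient.factorₐ ℂ hle).toLinearMap
    (Ideal.Quotient.factor_surjective hle)

theorem nu_add_ker {I J : Ideal B} (hle : I ≤ J) [Module.Finite ℂ (B ⧸ I)] :
    nu I = nu J + finrank ℂ (LinearMap.ker (Ideal.Quotient.factorₐ ℂ hle).toLinearMap) := by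
  have h := LinearMap.finrank_range_add_finrank_ker (Ideal.Quotient.factorₐ ℂ hle).toLinearMap
  have hs : LinearMap.range (Ideal.Quotient.factorₐ ℂ hle).toLinearMap = ⊤ := by
    rw [LinearMap.range_eq_top]
    exact Ideal.Quotient.factor_surjective hle
  rw [hs, finrank_top] at h
  rw [nu, nu, ← h]

theorem nu_le_of_le {I J : Ideal B} (hle : I ≤ J) [Module.Finite ℂ (B ⧸ I)] : nu J ≤ nu I := by
  rw [nu_add_ker hle]
  exact Nat.le_add_right _ _

theorem eq_of_nu_le {I J : Ideal B} (hle : I ≤ J) [Module.Finite ℂ (B ⧸ I)] (h : nu I ≤ nu J) :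
    I = J := by
  have h1 := nu_add_ker hle
  have h2 : finrank ℂ (LinearMap.ker (Ideal.Quotient.factorₐ ℂ hle).toLinearMap) = 0 := by omega
  rw [Submodule.finrank_eq_zero, LinearMap.ker_eq_bot] at h2
  apply le_antisymm hle
  intro x hx
  rw [← Ideal.Quotient.eq_zero_iff_mem]
  apply h2
  rw [map_zero]
  change Ideal.Quotient.factor hle (Ideal.Quotient.mk I x) = 0
  rw [Ideal.Quotient.factor_mk]
  exact Ideal.Quotient.eq_zero_iff_mem.mpr hx

/-- multiplication by `a ∈ I` as a map `B/J → B/(IJ)` -/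
noncomputable def mulQuot (I J : Ideal B) (a : B) (ha : a ∈ I) : (B ⧸ J) →ₗ[B] (B ⧸ (I * J)) :=
  Submodule.mapQ J (I * J) (LinearMap.mulLeft B a) (by
    intro x hx
    simp only [Submodule.mem_comap, LinearMap.mulLeft_apply]
    exact Ideal.mul_mem_mul ha hx)

theorem mulQuot_mk (I J : Ideal B) (a : B) (ha : a ∈ I) (x : B) :
    mulQuot I J a ha (Ideal.Quotient.mk J x) = Ideal.Quotient.mk (I * J) (a * x) := rfl

theorem nu_mul_le (hB : PoleData B Bl) {I J : Ideal B} (hI : I ≠ ⊥) (hJ : J ≠ ⊥) :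
    nu (I * J) ≤ nu I + nu J := by
  have hIJ : I * J ≠ ⊥ := mul_ne_zero hI hJ
  have hle : I * J ≤ I := Ideal.mul_le_left
  have := hB.fin_ideal hIJ
  have := hB.fin_ideal hJ
  rw [nu_add_ker hle]
  apply Nat.add_le_add_left
  obtain ⟨a, ha⟩ := IsDedekindDomain.exists_sup_span_eq hle hIJ
  have haI : a ∈ I := by
    rw [← ha]
    exact Ideal.mem_sup_right (Ideal.mem_span_singleton_self a)
  have hrange : LinearMap.ker (Ideal.Quotient.factorₐ ℂ hle).toLinearMap ≤
      LinearMap.range ((mulQuot I J a haI).restrictScalars ℂ) := by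
    intro y hy
    obtain ⟨x, rfl⟩ := Ideal.Quotient.mk_surjective y
    have hx : x ∈ I := by
      rw [LinearMap.mem_ker] at hy
      change Ideal.Quotient.factor hle (Ideal.Quotient.mk _ x) = 0 at hy
      rw [Ideal.Quotient.factor_mk] at hy
      exact Ideal.Quotient.eq_zero_iff_mem.mp hy
    rw [← ha, Submodule.mem_sup] at hx
    obtain ⟨u, hu, v, hv, rfl⟩ := hx
    rw [Ideal.mem_span_singleton'] at hv
    obtain ⟨r, rfl⟩ := hv
    refine ⟨Ideal.Quotient.mk J r, ?_⟩
    change mulQuot I J a haI (Ideal.Quotient.mk J r) = _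
    rw [mulQuot_mk, map_add, Ideal.Quotient.eq_zero_iff_mem.mpr hu, zero_add, mul_comm a r]
  calc finrank ℂ (LinearMap.ker (Ideal.Quotient.factorₐ ℂ hle).toLinearMap)
      ≤ finrank ℂ (LinearMap.range ((mulQuot I J a haI).restrictScalars ℂ)) :=
        Submodule.finrank_mono hrange
    _ ≤ finrank ℂ (B ⧸ J) := LinearMap.finrank_range_le _

theorem nu_span_mul (hB : PoleData B Bl) {s : B} (hs : s ≠ 0) {J : Ideal B} (hJ : J ≠ ⊥) :
    nu (Ideal.span {s} * J) = dl s + nu J := by
  apply le_antisymm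
  · exact nu_mul_le hB (by simpa using hs) hJ
  have hI : Ideal.span {s} ≠ (⊥ : Ideal B) := by simpa using hs
  have hIJ : Ideal.span {s} * J ≠ ⊥ := mul_ne_zero hI hJ
  have hle : Ideal.span {s} * J ≤ Ideal.span {s} := Ideal.mul_le_left
  have := hB.fin_ideal hIJ
  have := hB.fin_ideal hJ
  rw [nu_add_ker hle, dl_eq_nu]
  apply Nat.add_le_add_left
  have haI : s ∈ Ideal.span {s} := Ideal.mem_span_singleton_self s
  have hinj : Function.Injective ((mulQuot (Ideal.span {s}) J s haI).restrictScalars ℂ) := by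
    rw [injective_iff_map_eq_zero]
    intro y hy
    obtain ⟨x, rfl⟩ := Ideal.Quotient.mk_surjective y
    change mulQuot _ J s haI (Ideal.Quotient.mk J x) = 0 at hy
    rw [mulQuot_mk, Ideal.Quotient.eq_zero_iff_mem, Ideal.mem_span_singleton_mul] at hy
    obtain ⟨z, hz, hzz⟩ := hy
    rw [Ideal.Quotient.eq_zero_iff_mem, ← mul_left_cancel₀ hs hzz]
    exact hz
  have hrange : LinearMap.range ((mulQuot (Ideal.span {s}) J s haI).restrictScalars ℂ) ≤
      LinearMap.ker (Ideal.Quotient.factorₐ ℂ hle).toLinearMap := by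
    rintro _ ⟨y, rfl⟩
    obtain ⟨x, rfl⟩ := Ideal.Quotient.mk_surjective y
    rw [LinearMap.mem_ker]
    change Ideal.Quotient.factor hle (mulQuot _ J s haI (Ideal.Quotient.mk J x)) = 0
    rw [mulQuot_mk, Ideal.Quotient.factor_mk, Ideal.Quotient.eq_zero_iff_mem]
    exact Ideal.mul_mem_right _ _ haI
  calc nu J = finrank ℂ (LinearMap.range ((mulQuot (Ideal.span {s}) J s haI).restrictScalars ℂ)) :=
        (LinearMap.finrank_range_of_inj hinj).symm
    _ ≤ _ := Submodule.finrank_mono hrange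

theorem dl_mul (hB : PoleData B Bl) {a b : B} (ha : a ≠ 0) (hb : b ≠ 0) :
    dl (a * b) = dl a + dl b := by
  have h := nu_span_mul hB ha (J := Ideal.span {b}) (by simpa using hb)
  rw [Ideal.span_singleton_mul_span_singleton] at h
  exact h

theorem PoleData.mul_mem_iff (hB : PoleData B Bl) {s u : B} (hs : s ≠ 0) (m : ℕ) :
    s * u ∈ Bl (dl s + m) ↔ u ∈ Bl m := by
  rw [hB.mem_iff, hB.mem_iff]
  by_cases hu : u = 0
  · simp [hu]
  · rw [dl_mul hB hs hu]
    simp [hs, hu]

theorem PoleData.mul_mem (hB : PoleData B Bl) {m n : ℕ} {s u : B} (hs : s ∈ Bl m) (hu : u ∈ Bl n) :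
    s * u ∈ Bl (m + n) := by
  rw [hB.mem_iff] at *
  by_cases hs0 : s = 0
  · simp [hs0]
  by_cases hu0 : u = 0
  · simp [hu0]
  right
  rw [dl_mul hB hs0 hu0]
  have h1 := hs.resolve_left hs0
  have h2 := hu.resolve_left hu0
  omega

theorem PoleData.mono (hB : PoleData B Bl) {m n : ℕ} (h : m ≤ n) : Bl m ≤ Bl n := by
  intro s hs
  rw [hB.mem_iff] at *
  rcases hs with h0 | h1
  · exact Or.inl h0
  · exact Or.inr (h1.trans h)

theorem PoleData.one_mem (hB : PoleData B Bl) (m : ℕ) : (1 : B) ∈ Bl m := by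
  rw [hB.mem_iff]
  right
  have : dl (1 : B) = 0 := by
    rw [dl_eq_nu, Ideal.span_singleton_one, nu]
    exact Module.finrank_zero_of_subsingleton
  omega

theorem PoleData.algebraMap_mem (hB : PoleData B Bl) (m : ℕ) (c : ℂ) :
    algebraMap ℂ B c ∈ Bl m := by
  rw [Algebra.algebraMap_eq_smul_one]
  exact Submodule.smul_mem _ _ (hB.one_mem m)

theorem PoleData.finite (hB : PoleData B Bl) (m : ℕ) : Module.Finite ℂ (Bl m) := by
  have h1 : Module.Finite ℂ (Bl (m + 1)) := by
    apply Module.finite_of_finrank_pos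
    rw [hB.rank (m + 1) (by omega)]
    omega
  exact Submodule.finiteDimensional_of_le (hB.mono (Nat.le_succ m))

/-- `Bl 1` consists of constants. -/
theorem PoleData.Bl_one (hB : PoleData B Bl) : Bl 1 = Submodule.span ℂ {(1 : B)} := by
  have hf := hB.finite 1
  symm
  apply Submodule.eq_of_le_of_finrank_le
  · rw [Submodule.span_singleton_le_iff_mem]
    exact hB.one_mem 1
  · rw [hB.rank 1 le_rfl, finrank_span_singleton one_ne_zero]

theorem PoleData.Bl_zero (hB : PoleData B Bl) : Bl 0 = Submodule.span ℂ {(1 : B)} := by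
  apply le_antisymm
  · rw [← hB.Bl_one]
    exact hB.mono (Nat.zero_le 1)
  · rw [Submodule.span_singleton_le_iff_mem]
    exact hB.one_mem 0

/-- the part of an ideal with bounded pole order -/
def cut (Bl : ℕ → Submodule ℂ B) (I : Ideal B) (m : ℕ) : Submodule ℂ B :=
  I.restrictScalars ℂ ⊓ Bl m

theorem mem_cut {I : Ideal B} {m : ℕ} {x : B} : x ∈ cut Bl I m ↔ x ∈ I ∧ x ∈ Bl m := Iff.rfl

theorem cut_finite (hB : PoleData B Bl) (I : Ideal B) (m : ℕ) : Module.Finite ℂ (cut Bl I m) := by
  have := hB.finite m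
  exact Submodule.finiteDimensional_of_le inf_le_right

/-- dimension drops by at most one if the pole order bound drops by one -/
theorem cut_succ (hB : PoleData B Bl) (I : Ideal B) {m : ℕ} (hm : 1 ≤ m) :
    finrank ℂ (cut Bl I (m + 1)) ≤ finrank ℂ (cut Bl I m) + 1 := by
  have := hB.finite (m + 1)
  have := hB.finite m
  have := cut_finite hB I (m + 1)
  have := cut_finite hB I m
  have h1 := Submodule.finrank_sup_add_finrank_inf_eq (cut Bl I (m + 1)) (Bl m)
  have h2 : cut Bl I (m + 1) ⊓ Bl m = cut Bl I m := by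
    apply le_antisymm
    · rintro x ⟨⟨hx1, _⟩, hx3⟩
      exact ⟨hx1, hx3⟩
    · rintro x ⟨hx1, hx2⟩
      exact ⟨⟨hx1, hB.mono (Nat.le_succ m) hx2⟩, hx2⟩
  have h3 : finrank ℂ (cut Bl I (m + 1) ⊔ Bl m : Submodule ℂ B) ≤ m + 1 := by
    have h4 := hB.rank (m + 1) (by omega)
    have h5 : cut Bl I (m + 1) ⊔ Bl m ≤ Bl (m + 1) :=
      sup_le inf_le_right (hB.mono (Nat.le_succ m))
    have h6 := Submodule.finrank_mono h5
    omega
  rw [h2, hB.rank m hm] at h1
  omega

/-- an ideal containing an element of pole order at most its codimension is principal -/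
theorem eq_span_of_dl_le (hB : PoleData B Bl) {I : Ideal B} {s : B} (hs : s ∈ I) (hs0 : s ≠ 0)
    (h : dl s ≤ nu I) : Ideal.span {s} = I := by
  have := hB.fin_quot s hs0
  exact eq_of_nu_le ((Ideal.span_singleton_le_iff_mem I).mpr hs) h

theorem cut_base (hB : PoleData B Bl) {I : Ideal B} (hI : I ≠ ⊥) :
    finrank ℂ (cut Bl I (nu I + 1)) ≤ 1 := by
  by_contra hcon
  push Not at hcon
  rcases Nat.eq_zero_or_pos (nu I) with h0 | hpos
  · rw [h0, zero_add] at hcon
    have := hB.finite 1
    have h1 : finrank ℂ (cut Bl I 1) ≤ finrank ℂ (Bl 1) := Submodule.finrank_mono inf_le_right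
    rw [hB.rank 1 le_rfl] at h1
    omega
  · have h1 := cut_succ hB I hpos
    have h2 : 0 < finrank ℂ (cut Bl I (nu I)) := by omega
    have h3 : cut Bl I (nu I) ≠ ⊥ := by
      intro h
      rw [h, finrank_bot] at h2
      exact lt_irrefl _ h2
    obtain ⟨s, hs, hs0⟩ := Submodule.exists_mem_ne_zero_of_ne_bot h3
    rw [mem_cut] at hs
    have hdl : dl s ≤ nu I := ((hB.mem_iff _ _).mp hs.2).resolve_left hs0
    have hspan := eq_span_of_dl_le hB hs.1 hs0 hdl
    have hdl' : dl s = nu I := by rw [dl_eq_nu, hspan]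
    have h4 : cut Bl I (nu I + 1) ≤ Submodule.span ℂ {s} := by
      intro x hx
      rw [mem_cut] at hx
      have hx1 := hx.1
      rw [← hspan, Ideal.mem_span_singleton'] at hx1
      obtain ⟨u, rfl⟩ := hx1
      have hx2 := hx.2
      rw [← hdl', mul_comm, hB.mul_mem_iff hs0, hB.Bl_one, Submodule.mem_span_singleton] at hx2
      obtain ⟨c, rfl⟩ := hx2
      rw [Submodule.mem_span_singleton]
      exact ⟨c, by simp⟩
    have h5 : finrank ℂ (cut Bl I (nu I + 1)) ≤ finrank ℂ (Submodule.span ℂ {s}) :=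
      Submodule.finrank_mono h4
    rw [finrank_span_singleton hs0] at h5
    omega

/-- Riemann-Roch upper bound. -/
theorem cut_le (hB : PoleData B Bl) {I : Ideal B} (hI : I ≠ ⊥) {m : ℕ} (hm : nu I + 1 ≤ m) :
    finrank ℂ (cut Bl I m) + nu I ≤ m := by
  induction m, hm using Nat.le_induction with
  | base =>
    have := cut_base hB hI
    omega
  | succ m hm ih =>
    have := cut_succ hB I (m := m) (by omega)
    omega

/-- Riemann-Roch lower bound. -/
theorem le_cut (hB : PoleData B Bl) {I : Ideal B} (hI : I ≠ ⊥) {m : ℕ} (hm : 1 ≤ m) :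
    m ≤ finrank ℂ (cut Bl I m) + nu I := by
  have := hB.fin_ideal hI
  have := hB.finite m
  have h1 := LinearMap.finrank_range_add_finrank_ker
    (((Ideal.Quotient.mkₐ ℂ I).toLinearMap).comp (Bl m).subtype)
  have h2 : finrank ℂ (LinearMap.range
    (((Ideal.Quotient.mkₐ ℂ I).toLinearMap).comp (Bl m).subtype)) ≤ nu I := Submodule.finrank_le _
  have h3 : finrank ℂ (LinearMap.ker
    (((Ideal.Quotient.mkₐ ℂ I).toLinearMap).comp (Bl m).subtype)) = finrank ℂ (cut Bl I m) := by
    have h4 : cut Bl I m = (LinearMap.ker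
      (((Ideal.Quotient.mkₐ ℂ I).toLinearMap).comp (Bl m).subtype)).map (Bl m).subtype := by
      ext x
      rw [mem_cut, Submodule.mem_map]
      constructor
      · rintro ⟨hx1, hx2⟩
        refine ⟨⟨x, hx2⟩, ?_, rfl⟩
        rw [LinearMap.mem_ker]
        exact Ideal.Quotient.eq_zero_iff_mem.mpr hx1
      · rintro ⟨⟨y, hy⟩, hy1, rfl⟩
        rw [LinearMap.mem_ker] at hy1
        exact ⟨Ideal.Quotient.eq_zero_iff_mem.mp hy1, hy⟩
    rw [h4]
    exact (LinearEquiv.finrank_eq (Submodule.equivMapOfInjective (Bl m).subtype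
      (Submodule.injective_subtype _) _))
  rw [h3, hB.rank m hm] at h1
  omega

/-- `I` is generated over `ℂ` by its bounded part together with a smaller ideal. -/
theorem cut_surj (hB : PoleData B Bl) {I J : Ideal B} (hI : I ≠ ⊥) (hJ : J ≠ ⊥) (hle : J ≤ I)
    {m : ℕ} (hm : nu J + 1 ≤ m) :
    I.restrictScalars ℂ ≤ cut Bl I m ⊔ J.restrictScalars ℂ := by
  have := hB.fin_ideal hI
  have := hB.fin_ideal hJ
  have := cut_finite hB I m
  have h1 := cut_le hB hJ hm
  have h2 := le_cut hB hI (m := m) (by omega)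
  -- images in `B / J`
  let q : B →ₗ[ℂ] (B ⧸ J) := (Ideal.Quotient.mkₐ ℂ J).toLinearMap
  have hq : ∀ x, q x = 0 ↔ x ∈ J := fun x => Ideal.Quotient.eq_zero_iff_mem
  have h3 := LinearMap.finrank_range_add_finrank_ker (q.comp (cut Bl I m).subtype)
  have h4 : finrank ℂ (LinearMap.ker (q.comp (cut Bl I m).subtype)) = finrank ℂ (cut Bl J m) := by
    have h5 : cut Bl J m = (LinearMap.ker (q.comp (cut Bl I m).subtype)).map
        (cut Bl I m).subtype := by
      ext x
      rw [mem_cut, Submodule.mem_map]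
      constructor
      · rintro ⟨hx1, hx2⟩
        refine ⟨⟨x, hle hx1, hx2⟩, ?_, rfl⟩
        rw [LinearMap.mem_ker]
        exact (hq x).mpr hx1
      · rintro ⟨⟨y, hy⟩, hy1, rfl⟩
        rw [LinearMap.mem_ker] at hy1
        exact ⟨(hq y).mp hy1, hy.2⟩
    rw [h5]
    exact (LinearEquiv.finrank_eq (Submodule.equivMapOfInjective (cut Bl I m).subtype
      (Submodule.injective_subtype _) _))
  have h6 : LinearMap.range (q.comp (cut Bl I m).subtype) =
      LinearMap.ker (Ideal.Quotient.factorₐ ℂ hle).toLinearMap := by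
    apply Submodule.eq_of_le_of_finrank_le
    · rintro _ ⟨⟨y, hy⟩, rfl⟩
      rw [LinearMap.mem_ker]
      change Ideal.Quotient.factor hle (Ideal.Quotient.mk _ y) = 0
      rw [Ideal.Quotient.factor_mk]
      exact Ideal.Quotient.eq_zero_iff_mem.mpr hy.1
    · have h7 := nu_add_ker (I := J) (J := I) hle
      omega
  intro x hx
  have hx1 : q x ∈ LinearMap.range (q.comp (cut Bl I m).subtype) := by
    rw [h6, LinearMap.mem_ker]
    change Ideal.Quotient.factor hle (Ideal.Quotient.mk _ x) = 0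
    rw [Ideal.Quotient.factor_mk]
    exact Ideal.Quotient.eq_zero_iff_mem.mpr hx
  obtain ⟨y, hy⟩ := hx1
  rw [Submodule.mem_sup]
  refine ⟨y.1, y.2, x - y.1, ?_, by ring⟩
  rw [Submodule.restrictScalars_mem, ← hq, map_sub, sub_eq_zero]
  exact hy.symm

/-- The product of a complete system of large degree with a subspace is complete. -/
theorem mul_complete (hB : PoleData B Bl) {I : Ideal B} (hI : I ≠ ⊥) {M : ℕ}
    {V : Submodule ℂ B} {s : B} (hs : s ∈ V) (hs0 : s ≠ 0) (hV : V ≤ Bl (dl s))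
    (hM : nu I + dl s + 1 ≤ M) :
    cut Bl (I * Ideal.span (V : Set B)) (M + dl s) ≤ cut Bl I M * V := by
  set b := Ideal.span (V : Set B) with hb
  have hsb : s ∈ b := Ideal.subset_span hs
  have hb0 : b ≠ ⊥ := by
    intro h
    rw [h, Ideal.mem_bot] at hsb
    exact hs0 hsb
  obtain ⟨a, ha⟩ := Ideal.dvd_iff_le.mpr ((Ideal.span_singleton_le_iff_mem b).mpr hsb)
  have hspan0 : Ideal.span {s} ≠ (⊥ : Ideal B) := by simpa using hs0
  have ha0 : a ≠ ⊥ := by
    intro h
    rw [h] at ha
    apply hspan0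
    rw [ha]
    exact mul_zero _
  have hIa : I * a ≠ ⊥ := mul_ne_zero hI ha0
  have hnua : nu a ≤ dl s := by
    have := hB.fin_quot s hs0
    rw [dl_eq_nu]
    apply nu_le_of_le
    rw [ha]
    exact Ideal.mul_le_right
  have hstepA := cut_surj hB hI hIa Ideal.mul_le_left (m := M) (by
    have := nu_mul_le hB hI ha0
    omega)
  -- Step B
  have hstepB : ∀ y ∈ I * b, y ∈ (cut Bl I M * V) ⊔
      (I * Ideal.span {s}).restrictScalars ℂ := by
    intro y hy
    refine Submodule.mul_induction_on hy ?_ ?_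
    · intro u hu t ht
      revert u
      rw [hb, Ideal.span] at ht
      induction ht using Submodule.span_induction with
      | mem v hv =>
        intro u hu
        have hu' := hstepA (show u ∈ I.restrictScalars ℂ from hu)
        rw [Submodule.mem_sup] at hu'
        obtain ⟨w, hw, u', hu', rfl⟩ := hu'
        rw [add_mul]
        apply Submodule.add_mem_sup
        · exact Submodule.mul_mem_mul hw hv
        · rw [Submodule.restrictScalars_mem] at hu' ⊢
          have h1 : u' * v ∈ (I * a) * b := Ideal.mul_mem_mul hu' (Ideal.subset_span hv)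
          rwa [mul_assoc, mul_comm a b, ← ha] at h1
      | zero =>
        intro u _
        rw [mul_zero]
        exact Submodule.zero_mem _
      | add x y _ _ hx hy =>
        intro u hu
        rw [mul_add]
        exact Submodule.add_mem _ (hx u hu) (hy u hu)
      | smul c x _ hx =>
        intro u hu
        have h1 := hx (u * c) (Ideal.mul_mem_right _ _ hu)
        rw [smul_eq_mul, ← mul_assoc]
        exact h1
    · intro x y hx hy
      exact Submodule.add_mem _ hx hy
  -- Step C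
  intro y hy
  rw [mem_cut] at hy
  have h1 := hstepB y hy.1
  rw [Submodule.mem_sup] at h1
  obtain ⟨z, hz, t, ht, hzt⟩ := h1
  have hzBl : z ∈ Bl (M + dl s) := by
    have h2 : cut Bl I M * V ≤ Bl (M + dl s) := by
      rw [Submodule.mul_le]
      intro u hu v hv
      exact hB.mul_mem hu.2 (hV hv)
    exact h2 hz
  have ht1 : t ∈ Bl (M + dl s) := by
    have h2 : t = y - z := by rw [← hzt]; ring
    rw [h2]
    exact Submodule.sub_mem _ hy.2 hzBl
  rw [Submodule.restrictScalars_mem, mul_comm, Ideal.mem_span_singleton_mul] at ht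
  obtain ⟨u, hu, rfl⟩ := ht
  rw [add_comm M, hB.mul_mem_iff hs0] at ht1
  rw [← hzt]
  apply Submodule.add_mem _ hz
  rw [mul_comm s u]
  exact Submodule.mul_mem_mul ⟨hu, ht1⟩ hs

/-- an element of maximal pole order in a finite-dimensional subspace -/
theorem exists_max (hB : PoleData B Bl) {V : Submodule ℂ B} (hV0 : V ≠ ⊥) {D : ℕ}
    (hD : V ≤ Bl D) : ∃ s ∈ V, s ≠ 0 ∧ V ≤ Bl (dl s) ∧ dl s ≤ D := by
  classical
  have hex : ∃ m, V ≤ Bl m := ⟨D, hD⟩
  have hm := Nat.find_spec hex
  set m := Nat.find hex with hmdef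
  have hmD : m ≤ D := Nat.find_min' hex hD
  obtain ⟨t, ht, ht0⟩ := Submodule.exists_mem_ne_zero_of_ne_bot hV0
  rcases Nat.eq_zero_or_pos m with h0 | hpos
  · have h1 : dl t ≤ 0 := by
      have := ((hB.mem_iff _ _).mp (hm ht)).resolve_left ht0
      omega
    refine ⟨t, ht, ht0, ?_, by omega⟩
    have h2 : dl t = 0 := by omega
    rw [h2, ← h0]
    exact hm
  · have h1 : ¬ V ≤ Bl (m - 1) := Nat.find_min hex (by omega)
    rw [SetLike.not_le_iff_exists] at h1
    obtain ⟨s, hs, hs1⟩ := h1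
    rw [hB.mem_iff] at hs1
    push Not at hs1
    have h2 := ((hB.mem_iff _ _).mp (hm hs)).resolve_left hs1.1
    have h3 : dl s = m := by omega
    exact ⟨s, hs, hs1.1, by rw [h3]; exact hm, by omega⟩

/-- Clifford-type bound: a subspace of dimension at least two has dimension at most
the degree of its moving part. -/
theorem clifford (hB : PoleData B Bl) {V : Submodule ℂ B} {s : B} (hs : s ∈ V) (hs0 : s ≠ 0)
    (hV : V ≤ Bl (dl s)) (h2 : 2 ≤ finrank ℂ V) :
    finrank ℂ V + nu (Ideal.span (V : Set B)) ≤ dl s := by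
  set b := Ideal.span (V : Set B) with hb
  have hsb : s ∈ b := Ideal.subset_span hs
  have hb0 : b ≠ ⊥ := by
    intro h
    rw [h, Ideal.mem_bot] at hsb
    exact hs0 hsb
  have hVcut : V ≤ cut Bl b (dl s) := fun v hv => ⟨Ideal.subset_span hv, hV hv⟩
  have := cut_finite hB b (dl s)
  have hle : finrank ℂ V ≤ finrank ℂ (cut Bl b (dl s)) := Submodule.finrank_mono hVcut
  by_cases hcase : nu b + 1 ≤ dl s
  · have := cut_le hB hb0 hcase
    omega
  · exfalso
    have hspan := eq_span_of_dl_le hB hsb hs0 (by omega)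
    have h4 : cut Bl b (dl s) ≤ Submodule.span ℂ {s} := by
      intro x hx
      rw [mem_cut] at hx
      have hx1 := hx.1
      rw [← hspan, Ideal.mem_span_singleton'] at hx1
      obtain ⟨u, rfl⟩ := hx1
      have hx2 := hx.2
      rw [mul_comm] at hx2
      have hx3 : s * u ∈ Bl (dl s + 0) := hx2
      rw [hB.mul_mem_iff hs0, hB.Bl_zero, Submodule.mem_span_singleton] at hx3
      obtain ⟨c, rfl⟩ := hx3
      rw [Submodule.mem_span_singleton]
      exact ⟨c, by simp⟩
    have h5 : finrank ℂ (cut Bl b (dl s)) ≤ finrank ℂ (Submodule.span ℂ {s}) :=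
      Submodule.finrank_mono h4
    rw [finrank_span_singleton hs0] at h5
    omega

/-- the moving degree is nonnegative -/
theorem nu_le_dl (hB : PoleData B Bl) {V : Submodule ℂ B} {s : B} (hs : s ∈ V) (hs0 : s ≠ 0) :
    nu (Ideal.span (V : Set B)) ≤ dl s := by
  have := hB.fin_quot s hs0
  rw [dl_eq_nu]
  apply nu_le_of_le
  rw [Ideal.span_singleton_le_iff_mem]
  exact Ideal.subset_span hs

/-- the contribution of a subspace -/
noncomputable def contrib (V : Submodule ℂ B) : ℕ :=
  if 2 ≤ finrank ℂ V then finrank ℂ V else 0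

/-- Key Lemma, structural form. -/
theorem key_structural (hB : PoleData B Bl) {D M₀ : ℕ} (hM₀ : D + 1 ≤ M₀)
    (l : List (Submodule ℂ B)) (hl : ∀ V ∈ l, V ≠ ⊥ ∧ V ≤ Bl D) :
    ∃ (I : Ideal B) (M : ℕ), I ≠ ⊥ ∧ cut Bl I M ≤ Bl M₀ * l.prod ∧
      nu I + M₀ + (l.map contrib).sum ≤ M := by
  induction l with
  | nil =>
    refine ⟨⊤, M₀, top_ne_bot, ?_, ?_⟩
    · simp only [List.prod_nil, mul_one]
      exact inf_le_right
    · simp only [List.map_nil, List.sum_nil, add_zero]
      have : nu (⊤ : Ideal B) = 0 := by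
        rw [nu]
        exact Module.finrank_zero_of_subsingleton
      omega
  | cons V l ih =>
    obtain ⟨I, M, hI, hcut, hM⟩ := ih (fun W hW => hl W (List.mem_cons_of_mem _ hW))
    obtain ⟨hV0, hVD⟩ := hl V List.mem_cons_self
    obtain ⟨s, hs, hs0, hV, hsD⟩ := exists_max hB hV0 hVD
    have hmc := mul_complete hB hI hs hs0 hV (M := M) (by omega)
    have hspan0 : Ideal.span (V : Set B) ≠ ⊥ := by
      intro h
      have : s ∈ Ideal.span (V : Set B) := Ideal.subset_span hs
      rw [h, Ideal.mem_bot] at this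
      exact hs0 this
    refine ⟨I * Ideal.span (V : Set B), M + dl s, mul_ne_zero hI hspan0, ?_, ?_⟩
    · refine hmc.trans ?_
      rw [List.prod_cons, mul_comm V, ← mul_assoc]
      exact mul_le_mul' hcut le_rfl
    · have h1 := nu_mul_le hB hI hspan0
      rw [List.map_cons, List.sum_cons]
      have h2 : contrib V + nu (Ideal.span (V : Set B)) ≤ dl s := by
        rw [contrib]
        split_ifs with h
        · exact clifford hB hs hs0 hV h
        · rw [zero_add]
          exact nu_le_dl hB hs hs0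
      omega

/-- Key Lemma: lower bound for the dimension of a product of subspaces. -/
theorem key_lemma (hB : PoleData B Bl) {D M₀ : ℕ} (hM₀ : D + 1 ≤ M₀)
    (l : List (Submodule ℂ B)) (hl : ∀ V ∈ l, V ≠ ⊥ ∧ V ≤ Bl D)
    (U : Submodule ℂ B) [Module.Finite ℂ U] (hU : Bl M₀ * l.prod ≤ U) :
    M₀ + (l.map contrib).sum ≤ finrank ℂ U := by
  obtain ⟨I, M, hI, hcut, hM⟩ := key_structural hB hM₀ l hl
  have h1 := le_cut hB hI (m := M) (by omega)
  have h2 : finrank ℂ (cut Bl I M) ≤ finrank ℂ U := Submodule.finrank_mono (hcut.trans hU)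
  omega

end Abstract

end Pool.Agent.Helper69_Lech
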