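import Mathlib

set_option linter.unusedSectionVars false
set_option linter.unusedVariables false

namespace Pool.Agent.Helper69_Lech

open Module Submodule

section Fil

variable {V : Type*} [AddCommGroup V] [Module ℂ V] {E : ℕ → Type*}
  [∀ n, AddCommGroup (E n)] [∀ n, Module ℂ (E n)]

theorem fil_step {V E : Type*} [AddCommGroup V] [Module ℂ V] [AddCommGroup E] [Module ℂ E]
    (c : V →ₗ[ℂ] E) (F F' J : Submodule ℂ V) (hF : F' = F ⊓ LinearMap.ker c)
    (hsurj : ∀ e, ∃ v ∈ F, c v = e) [hfin : Module.Finite ℂ (E ⧸ (F ⊓ J).map c)]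
    [hfin' : Module.Finite ℂ (V ⧸ (F ⊔ J))] :
    Module.Finite ℂ (V ⧸ (F' ⊔ J)) ∧
      finrank ℂ (V ⧸ (F' ⊔ J)) = finrank ℂ (V ⧸ (F ⊔ J)) + finrank ℂ (E ⧸ (F ⊓ J).map c) := by
  have hF'F : F' ≤ F := by rw [hF]; exact inf_le_left
  have hle : F' ⊔ J ≤ F ⊔ J := sup_le_sup_right hF'F J
  -- the surjection V/G' → V/G
  let p : (V ⧸ (F' ⊔ J)) →ₗ[ℂ] (V ⧸ (F ⊔ J)) := Submodule.mapQ _ _ LinearMap.id hle
  have hp : Function.Surjective p := by
    intro y
    obtain ⟨x, rfl⟩ := Submodule.mkQ_surjective _ y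
    exact ⟨Submodule.mkQ _ x, rfl⟩
  let θ : F →ₗ[ℂ] (V ⧸ (F' ⊔ J)) := (Submodule.mkQ _).comp F.subtype
  let ψ : F →ₗ[ℂ] (E ⧸ (F ⊓ J).map c) := (Submodule.mkQ _).comp (c.comp F.subtype)
  have hψ : Function.Surjective ψ := by
    intro y
    obtain ⟨e, rfl⟩ := Submodule.mkQ_surjective _ y
    obtain ⟨v, hv, rfl⟩ := hsurj e
    exact ⟨⟨v, hv⟩, rfl⟩
  have hker : LinearMap.ker θ = LinearMap.ker ψ := by
    ext ⟨v, hv⟩
    simp only [LinearMap.mem_ker, θ, ψ, LinearMap.comp_apply, Submodule.subtype_apply,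
      Submodule.mkQ_apply, Submodule.Quotient.mk_eq_zero]
    constructor
    · intro h
      rw [Submodule.mem_sup] at h
      obtain ⟨f, hf, j, hj, rfl⟩ := h
      rw [hF] at hf
      rw [Submodule.mem_map]
      refine ⟨j, ⟨?_, hj⟩, ?_⟩
      · have := F.sub_mem hv hf.1
        simpa using this
      · rw [map_add, LinearMap.mem_ker.mp hf.2, zero_add]
    · intro h
      rw [Submodule.mem_map] at h
      obtain ⟨j, hj, hjc⟩ := h
      rw [Submodule.mem_sup]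
      refine ⟨v - j, ?_, j, hj.2, by abel⟩
      rw [hF]
      refine ⟨F.sub_mem hv hj.1, ?_⟩
      change v - j ∈ LinearMap.ker c
      rw [LinearMap.mem_ker, map_sub, hjc, sub_self]
  have hrange : LinearMap.range θ = LinearMap.ker p := by
    ext y
    constructor
    · rintro ⟨⟨v, hv⟩, rfl⟩
      rw [LinearMap.mem_ker]
      change Submodule.mkQ (F ⊔ J) v = 0
      rw [Submodule.mkQ_apply, Submodule.Quotient.mk_eq_zero]
      exact Submodule.mem_sup_left hv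
    · intro hy
      obtain ⟨x, rfl⟩ := Submodule.mkQ_surjective _ y
      rw [LinearMap.mem_ker] at hy
      change Submodule.mkQ (F ⊔ J) x = 0 at hy
      rw [Submodule.mkQ_apply, Submodule.Quotient.mk_eq_zero, Submodule.mem_sup] at hy
      obtain ⟨f, hf, j, hj, rfl⟩ := hy
      refine ⟨⟨f, hf⟩, ?_⟩
      change Submodule.mkQ (F' ⊔ J) f = Submodule.mkQ (F' ⊔ J) (f + j)
      rw [map_add, left_eq_add, Submodule.mkQ_apply, Submodule.Quotient.mk_eq_zero]
      exact Submodule.mem_sup_right hj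
  let e1 : (F ⧸ LinearMap.ker θ) ≃ₗ[ℂ] LinearMap.range θ := θ.quotKerEquivRange
  let e2 : (F ⧸ LinearMap.ker ψ) ≃ₗ[ℂ] (E ⧸ (F ⊓ J).map c) := ψ.quotKerEquivOfSurjective hψ
  let e3 : (F ⧸ LinearMap.ker θ) ≃ₗ[ℂ] (F ⧸ LinearMap.ker ψ) := Submodule.quotEquivOfEq _ _ hker
  let e : LinearMap.range θ ≃ₗ[ℂ] (E ⧸ (F ⊓ J).map c) := e1.symm.trans (e3.trans e2)
  have hfr : Module.Finite ℂ (LinearMap.range θ) := Module.Finite.equiv e.symm
  have hfk : Module.Finite ℂ (LinearMap.ker p) := by rw [← hrange]; exact hfr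
  have hfq : Module.Finite ℂ ((V ⧸ (F' ⊔ J)) ⧸ LinearMap.ker p) :=
    Module.Finite.equiv (p.quotKerEquivOfSurjective hp).symm
  have hfV : Module.Finite ℂ (V ⧸ (F' ⊔ J)) := Module.Finite.of_submodule_quotient (LinearMap.ker p)
  refine ⟨hfV, ?_⟩
  have h1 := LinearMap.finrank_range_add_finrank_ker p
  rw [LinearMap.range_eq_top.mpr hp, finrank_top, ← hrange, e.finrank_eq] at h1
  exact h1.symm

theorem fil_main (c : ∀ n, V →ₗ[ℂ] E n) (F : ℕ → Submodule ℂ V) (hF0 : F 0 = ⊤)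
    (hF : ∀ n, F (n + 1) = F n ⊓ LinearMap.ker (c n))
    (hsurj : ∀ n, ∀ e, ∃ v ∈ F n, c n v = e) (J : Submodule ℂ V) (b : ℕ) (hb : F b ≤ J)
    (hfin : ∀ n < b, Module.Finite ℂ (E n ⧸ (F n ⊓ J).map (c n))) :
    Module.Finite ℂ (V ⧸ J) ∧
      finrank ℂ (V ⧸ J) = ∑ n ∈ Finset.range b, finrank ℂ (E n ⧸ (F n ⊓ J).map (c n)) := by
  have key : ∀ n ≤ b, Module.Finite ℂ (V ⧸ (F n ⊔ J)) ∧
      finrank ℂ (V ⧸ (F n ⊔ J)) =
        ∑ i ∈ Finset.range n, finrank ℂ (E i ⧸ (F i ⊓ J).map (c i)) := by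
    intro n
    induction n with
    | zero =>
      intro _
      rw [hF0, top_sup_eq]
      have hsub : Subsingleton (V ⧸ (⊤ : Submodule ℂ V)) := inferInstance
      refine ⟨inferInstance, ?_⟩
      rw [Finset.range_zero, Finset.sum_empty]
      exact Module.finrank_zero_of_subsingleton
    | succ n ih =>
      intro hn
      obtain ⟨h1, h2⟩ := ih (by omega)
      have := hfin n (by omega)
      obtain ⟨h3, h4⟩ := fil_step (c n) (F n) (F (n + 1)) J (hF n) (hsurj n)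
      refine ⟨h3, ?_⟩
      rw [h4, h2, Finset.sum_range_succ]
  obtain ⟨h1, h2⟩ := key b le_rfl
  rw [sup_eq_right.mpr hb] at h1 h2
  exact ⟨h1, h2⟩

end Fil

end Pool.Agent.Helper69_Lech
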