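import Mathlib

set_option linter.unusedSectionVars false
set_option linter.unusedVariables false

namespace Pool.Agent.Helper69_Lech

open Finset

/-- The index set `{0, 2, 3, ..., d n}`. -/
def SS (d n : ℕ) : Finset ℕ := (range (d * n + 1)).erase 1

theorem mem_SS {d n μ : ℕ} : μ ∈ SS d n ↔ μ ≠ 1 ∧ μ ≤ d * n := by
  simp [SS, Nat.lt_succ_iff]

/-- achievability of a target by `N` points -/
def Ach (d a₀ : ℕ) (g : ℕ → ℕ → ℕ) (N n μ κ : ℕ) : Prop :=
  ∃ l : List (ℕ × ℕ), l.length = N ∧ (∀ x ∈ l, x.1 ≤ a₀ ∧ x.2 ∈ SS d x.1) ∧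
    (l.map Prod.fst).sum ≤ n ∧ μ + d * (l.map Prod.fst).sum ≤ (l.map Prod.snd).sum + d * n ∧
    (l.map fun x => g x.1 x.2).sum ≤ κ

variable {d a₀ : ℕ} {g : ℕ → ℕ → ℕ}

theorem Ach.add {N n μ κ N' n' μ' κ' : ℕ} (h : Ach d a₀ g N n μ κ) (h' : Ach d a₀ g N' n' μ' κ') :
    Ach d a₀ g (N + N') (n + n') (μ + μ') (κ + κ') := by
  obtain ⟨l, h1, h2, h3, h4, h5⟩ := h
  obtain ⟨l', h1', h2', h3', h4', h5'⟩ := h'
  refine ⟨l ++ l', ?_, ?_, ?_, ?_, ?_⟩
  · rw [List.length_append, h1, h1']
  · intro x hx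
    rw [List.mem_append] at hx
    rcases hx with hx | hx
    · exact h2 x hx
    · exact h2' x hx
  · simp only [List.map_append, List.sum_append]
    omega
  · simp only [List.map_append, List.sum_append, mul_add]
    omega
  · simp only [List.map_append, List.sum_append]
    omega

theorem Ach.zero : Ach d a₀ g 0 0 0 0 := ⟨[], by simp⟩

theorem Ach.single {n μ : ℕ} (hn : n ≤ a₀) (hμ : μ ∈ SS d n) : Ach d a₀ g 1 n μ (g n μ) := by
  refine ⟨[(n, μ)], ?_, ?_, ?_, ?_, ?_⟩ <;> simp [hn, hμ]

theorem Ach.mono {N n μ κ n' μ' κ' : ℕ} (h : Ach d a₀ g N n μ κ) (hn : n ≤ n')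
    (hμ : μ' + d * n ≤ μ + d * n') (hκ : κ ≤ κ') : Ach d a₀ g N n' μ' κ' := by
  obtain ⟨l, h1, h2, h3, h4, h5⟩ := h
  refine ⟨l, h1, h2, h3.trans hn, ?_, h5.trans hκ⟩
  omega

/-- virtual cost -/
noncomputable def gam (d : ℕ) (g : ℕ → ℕ → ℕ) (j i : ℕ) : ℝ :=
  if i = 1 then (if d * j = 1 then (g 0 0 : ℝ) else ((g j 0 : ℝ) + g j (d * j)) / 2) else g j i

theorem gam_nonneg (j i : ℕ) : 0 ≤ gam d g j i := by
  unfold gam
  split_ifs <;> positivity

theorem gam_le {c : ℕ} (hgc : ∀ n μ, g n μ ≤ c) (j i : ℕ) : gam d g j i ≤ c := by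
  have h : ∀ n μ, (g n μ : ℝ) ≤ c := fun n μ => by exact_mod_cast hgc n μ
  unfold gam
  split_ifs
  · exact h _ _
  · have := h j 0
    have := h j (d * j)
    linarith
  · exact h _ _

/-- columns with `d j ≥ 2` -/
theorem ach_col_big {c : ℕ} (hgc : ∀ n μ, g n μ ≤ c) {j : ℕ} (hj : j ≤ a₀) (hdj : 2 ≤ d * j)
    (l : List ℕ) (hl : ∀ i ∈ l, i ≤ d * j) :
    ∃ κ, Ach d a₀ g l.length (l.length * j) l.sum κ ∧ (κ : ℝ) ≤ (l.map (gam d g j)).sum + c := by
  have hg1 : gam d g j 1 = ((g j 0 : ℝ) + g j (d * j)) / 2 := by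
    unfold gam
    rw [if_pos rfl, if_neg (by omega)]
  have key : (∃ κ, Ach d a₀ g l.length (l.length * j) l.sum κ ∧ (κ : ℝ) ≤ (l.map (gam d g j)).sum) ∨
      (∃ κ, 1 ≤ l.length ∧ 1 ≤ l.sum ∧ Ach d a₀ g (l.length - 1) ((l.length - 1) * j) (l.sum - 1) κ ∧
        (κ : ℝ) ≤ (l.map (gam d g j)).sum - gam d g j 1) := by
    induction l with
    | nil =>
      left
      exact ⟨0, by simpa using Ach.zero, by simp⟩
    | cons i l ih =>
      have ih' := ih (fun x hx => hl x (List.mem_cons_of_mem _ hx))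
      have hi := hl i List.mem_cons_self
      by_cases h1 : i = 1
      · subst h1
        rcases ih' with ⟨κ, hA, hκ⟩ | ⟨κ, hlen, hsum, hA, hκ⟩
        · right
          refine ⟨κ, by simp, by simp, ?_, ?_⟩
          · simpa using hA
          · simp only [List.map_cons, List.sum_cons]
            linarith
        · left
          have hpair : Ach d a₀ g 2 (2 * j) 2 (g j 0 + g j (d * j)) := by
            refine ⟨[(j, 0), (j, d * j)], by simp, ?_, ?_, ?_, ?_⟩
            · intro x hx
              simp only [List.mem_cons, List.not_mem_nil, or_false] at hx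
              rcases hx with rfl | rfl
              · exact ⟨hj, by rw [mem_SS]; simp⟩
              · exact ⟨hj, by rw [mem_SS]; exact ⟨by omega, le_rfl⟩⟩
            · simp; omega
            · simp; ring_nf; omega
            · simp
          refine ⟨κ + (g j 0 + g j (d * j)), ?_, ?_⟩
          · have h2 := hA.add hpair
            refine Ach.mono (n := (l.length - 1) * j + 2 * j) (μ := l.sum - 1 + 2)
              (κ := κ + (g j 0 + g j (d * j))) ?_ ?_ ?_ le_rfl
            · convert h2 using 1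
              simp only [List.length_cons]
              omega
            · simp only [List.length_cons]
              have : (l.length - 1) * j + 2 * j = (l.length + 1) * j := by
                rw [← add_mul]; congr 1; omega
              exact this.le
            · simp only [List.length_cons, List.sum_cons]
              have : (l.length - 1) * j + 2 * j = (l.length + 1) * j := by
                rw [← add_mul]; congr 1; omega
              rw [this]
              omega
          · simp only [List.map_cons, List.sum_cons]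
            push_cast
            rw [hg1] at hκ ⊢
            linarith
      · have hsing : Ach d a₀ g 1 j i (g j i) := Ach.single hj (by rw [mem_SS]; exact ⟨h1, hi⟩)
        have hgi : gam d g j i = g j i := by
          unfold gam
          rw [if_neg h1]
        rcases ih' with ⟨κ, hA, hκ⟩ | ⟨κ, hlen, hsum, hA, hκ⟩
        · left
          refine ⟨κ + g j i, ?_, ?_⟩
          · have h2 := hA.add hsing
            refine Ach.mono (n := l.length * j + j) (μ := l.sum + i) (κ := κ + g j i) ?_ ?_ ?_ le_rfl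
            · simpa only [List.length_cons] using h2
            · simp only [List.length_cons]
              rw [add_mul, one_mul]
            · simp only [List.length_cons, List.sum_cons]
              rw [add_mul, one_mul]
              omega
          · simp only [List.map_cons, List.sum_cons, hgi]
            push_cast
            linarith
        · right
          refine ⟨κ + g j i, by simp, by simp; omega, ?_, ?_⟩
          · have h2 := hA.add hsing
            have h3 : (l.length - 1) * j + j = l.length * j := by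
              have : (l.length - 1 + 1) * j = l.length * j := by congr 1; omega
              rw [← this, add_mul, one_mul]
            refine Ach.mono (n := (l.length - 1) * j + j) (μ := l.sum - 1 + i) (κ := κ + g j i)
              ?_ ?_ ?_ le_rfl
            · convert h2 using 1
              simp only [List.length_cons]
              omega
            · simp only [List.length_cons, Nat.add_sub_cancel]
              exact h3.le
            · simp only [List.length_cons, List.sum_cons, Nat.add_sub_cancel]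
              rw [h3]
              omega
          · simp only [List.map_cons, List.sum_cons, hgi]
            push_cast
            linarith
  rcases key with ⟨κ, hA, hκ⟩ | ⟨κ, hlen, hsum, hA, hκ⟩
  · refine ⟨κ, hA, ?_⟩
    have : (0 : ℝ) ≤ c := by positivity
    linarith
  · have hsing : Ach d a₀ g 1 j (d * j) (g j (d * j)) :=
      Ach.single hj (by rw [mem_SS]; exact ⟨by omega, le_rfl⟩)
    have h3 : (l.length - 1) * j + j = l.length * j := by
      have : (l.length - 1 + 1) * j = l.length * j := by congr 1; omega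
      rw [← this, add_mul, one_mul]
    refine ⟨κ + g j (d * j), ?_, ?_⟩
    · have h2 := hA.add hsing
      refine Ach.mono (n := (l.length - 1) * j + j) (μ := l.sum - 1 + d * j)
        (κ := κ + g j (d * j)) ?_ ?_ ?_ le_rfl
      · convert h2 using 1
        omega
      · exact h3.le
      · rw [h3]
        omega
    · push_cast
      have h4 := gam_nonneg (d := d) (g := g) j 1
      have h5 : (g j (d * j) : ℝ) ≤ c := by exact_mod_cast hgc _ _
      linarith

/-- all columns -/
theorem ach_col {c : ℕ} (hgc : ∀ n μ, g n μ ≤ c) {j : ℕ} (hj : j ≤ a₀)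
    (l : List ℕ) (hl : ∀ i ∈ l, i ≤ d * j) :
    ∃ κ, Ach d a₀ g l.length (l.length * j) l.sum κ ∧ (κ : ℝ) ≤ (l.map (gam d g j)).sum + c := by
  by_cases h2 : 2 ≤ d * j
  · exact ach_col_big hgc hj h2 l hl
  have hc0 : (0 : ℝ) ≤ c := by positivity
  suffices h : ∃ κ, Ach d a₀ g l.length (l.length * j) l.sum κ ∧
      (κ : ℝ) ≤ (l.map (gam d g j)).sum by
    obtain ⟨κ, hA, hκ⟩ := h
    exact ⟨κ, hA, by linarith⟩
  induction l with
  | nil => exact ⟨0, by simpa using Ach.zero, by simp⟩
  | cons i l ih =>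
    obtain ⟨κ, hA, hκ⟩ := ih (fun x hx => hl x (List.mem_cons_of_mem _ hx))
    have hi := hl i List.mem_cons_self
    have hone : ∃ κ₁, Ach d a₀ g 1 j i κ₁ ∧ (κ₁ : ℝ) ≤ gam d g j i := by
      by_cases h1 : i = 1
      · have hdj : d * j = 1 := by omega
        refine ⟨g 0 0, ?_, ?_⟩
        · have h0 : Ach d a₀ g 1 0 0 (g 0 0) := Ach.single (Nat.zero_le _) (by rw [mem_SS]; simp)
          exact h0.mono (Nat.zero_le _) (by omega) le_rfl
        · unfold gam
          rw [if_pos h1, if_pos hdj]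
      · refine ⟨g j i, Ach.single hj (by rw [mem_SS]; exact ⟨h1, hi⟩), ?_⟩
        unfold gam
        rw [if_neg h1]
    obtain ⟨κ₁, hA₁, hκ₁⟩ := hone
    refine ⟨κ + κ₁, ?_, ?_⟩
    · have h2 := hA.add hA₁
      refine Ach.mono (n := l.length * j + j) (μ := l.sum + i) (κ := κ + κ₁) ?_ ?_ ?_ le_rfl
      · simpa only [List.length_cons] using h2
      · simp only [List.length_cons]
        rw [add_mul, one_mul]
      · simp only [List.length_cons, List.sum_cons]
        rw [add_mul, one_mul]
        omega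
    · simp only [List.map_cons, List.sum_cons]
      push_cast
      linarith

/-! ### Hermite-type distribution -/

theorem sum_distribute (Q M : ℕ) (hM : 1 ≤ M) : ∑ s ∈ range M, (Q + s) / M = Q := by
  induction Q with
  | zero =>
    apply Finset.sum_eq_zero
    intro s hs
    rw [zero_add]
    exact Nat.div_eq_of_lt (mem_range.mp hs)
  | succ Q ih =>
    have h1 : ∑ s ∈ range M, (Q + 1 + s) / M + Q / M =
        ∑ s ∈ range M, (Q + s) / M + (Q + M) / M := by
      have h2 := Finset.sum_range_succ' (fun s => (Q + s) / M) M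
      have h3 := Finset.sum_range_succ (fun s => (Q + s) / M) M
      rw [h2] at h3
      simp only [add_zero] at h3
      rw [← h3]
      congr 1
      apply Finset.sum_congr rfl
      intro s _
      congr 1
      ring
    rw [ih, Nat.add_div_right _ (by omega)] at h1
    omega

/-- level of the `s`-th factor in column `j` (out of `M`) for the target `m` -/
def lev (j M n' m s : ℕ) : ℕ := (j * m * M / n' + s) / M

theorem sum_lev (j M n' m : ℕ) (hM : 1 ≤ M) :
    ∑ s ∈ range M, lev j M n' m s = j * m * M / n' := sum_distribute _ _ hM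

theorem lev_le {j M n' m s : ℕ} (hn' : 1 ≤ n') (hs : s < M) (hm : m ≤ d * n') :
    lev j M n' m s ≤ d * j := by
  unfold lev
  have h1 : j * m * M / n' ≤ d * j * M := by
    rw [Nat.div_le_iff_le_mul (by omega)]
    have : j * m * M ≤ j * (d * n') * M := by gcongr
    calc j * m * M ≤ j * (d * n') * M := this
      _ = d * j * M * n' := by ring
      _ ≤ _ := by omega
  have h2 : (j * m * M / n' + s) / M < d * j + 1 := by
    rw [Nat.div_lt_iff_lt_mul (by omega), add_mul]
    omega
  omega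

theorem list_sum_range (f : ℕ → ℕ) (M : ℕ) : ((List.range M).map f).sum = ∑ s ∈ range M, f s := by
  rw [Finset.sum_range, ← List.sum_ofFn]
  congr 1
  rw [List.ofFn_eq_map]
  rw [← List.map_coe_finRange_eq_range, List.map_map]
  rfl

theorem list_sum_range_real (f : ℕ → ℝ) (M : ℕ) :
    ((List.range M).map f).sum = ∑ s ∈ range M, f s := by
  rw [Finset.sum_range, ← List.sum_ofFn]
  congr 1
  rw [List.ofFn_eq_map]
  rw [← List.map_coe_finRange_eq_range, List.map_map]
  rfl

/-- achievability of the target `(n', m - 1)`, `n' = N j + r`. -/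
theorem ach_target {c : ℕ} (hgc : ∀ n μ, g n μ ≤ c) {j r N m : ℕ} (hj : j + 1 ≤ a₀)
    (hr : r < N) (hn' : 1 ≤ N * j + r) (hm : m ≤ d * (N * j + r)) :
    ∃ κ, Ach d a₀ g N (N * j + r) (m - 1) κ ∧
      (κ : ℝ) ≤ ∑ s ∈ range (N - r), gam d g j (lev j (N - r) (N * j + r) m s) +
        ∑ s ∈ range r, gam d g (j + 1) (lev (j + 1) r (N * j + r) m s) + 2 * c := by
  set n' := N * j + r with hn'def
  obtain ⟨κ₁, hA₁, hκ₁⟩ := ach_col (a₀ := a₀) (d := d) hgc (j := j) (by omega)
    ((List.range (N - r)).map (lev j (N - r) n' m)) (by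
      intro i hi
      rw [List.mem_map] at hi
      obtain ⟨s, hs, rfl⟩ := hi
      exact lev_le hn' (List.mem_range.mp hs) hm)
  obtain ⟨κ₂, hA₂, hκ₂⟩ := ach_col (a₀ := a₀) (d := d) hgc (j := j + 1) (by omega)
    ((List.range r).map (lev (j + 1) r n' m)) (by
      intro i hi
      rw [List.mem_map] at hi
      obtain ⟨s, hs, rfl⟩ := hi
      exact lev_le hn' (List.mem_range.mp hs) hm)
  refine ⟨κ₁ + κ₂, ?_, ?_⟩
  · have h := hA₁.add hA₂
    simp only [List.length_map, List.length_range, list_sum_range] at h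
    rw [sum_lev _ _ _ _ (by omega)] at h
    have h1 : N - r + r = N := by omega
    rw [h1] at h
    have h2 : (N - r) * j + r * (j + 1) = n' := by
      have : (N - r) * j + r * j = N * j := by rw [← add_mul, h1]
      rw [mul_add, mul_one, ← add_assoc, this]
    refine h.mono h2.le ?_ le_rfl
    rw [h2]
    have h3 : m ≤ j * m * (N - r) / n' + ∑ s ∈ range r, lev (j + 1) r n' m s + 1 := by
      rcases Nat.eq_zero_or_pos r with h0 | hpos
      · subst h0
        simp only [range_zero, sum_empty, add_zero, Nat.sub_zero] at *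
        have h4 : j * m * N = m * n' := by rw [hn'def]; ring
        rw [h4, Nat.mul_div_cancel _ hn']
        omega
      · rw [sum_lev _ _ _ _ hpos]
        have h4 : j * m * (N - r) + (j + 1) * m * r = m * n' := by
          rw [← h2]; ring
        have h5 := Nat.div_add_mod (j * m * (N - r)) n'
        have h6 := Nat.div_add_mod ((j + 1) * m * r) n'
        have h7 := Nat.mod_lt (j * m * (N - r)) hn'
        have h8 := Nat.mod_lt ((j + 1) * m * r) hn'
        by_contra hcon
        push Not at hcon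
        have h9 : (j * m * (N - r) / n' + (j + 1) * m * r / n' + 2) * n' ≤ m * n' := by
          apply Nat.mul_le_mul_right
          omega
        nlinarith
    generalize j * m * (N - r) / n' = Q at h3 ⊢
    generalize ∑ s ∈ range r, lev (j + 1) r n' m s = Q' at h3 ⊢
    omega
  · simp only [List.map_map, list_sum_range_real] at hκ₁ hκ₂
    push_cast
    simp only [Function.comp_def] at hκ₁ hκ₂
    linarith

/-! ### Counting -/

theorem card_le_real (T : Finset ℕ) (x y : ℝ) (h : ∀ m ∈ T, x ≤ m ∧ (m : ℝ) ≤ y)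
    (h0 : 0 ≤ y - x + 1) : (T.card : ℝ) ≤ y - x + 1 := by
  rcases T.eq_empty_or_nonempty with rfl | hT
  · simpa using h0
  have hsub : T ⊆ Icc (T.min' hT) (T.max' hT) := fun m hm =>
    mem_Icc.mpr ⟨T.min'_le m hm, T.le_max' m hm⟩
  have h1 := Finset.card_le_card hsub
  rw [Nat.card_Icc] at h1
  have h2 := (h _ (T.min'_mem hT)).1
  have h3 := (h _ (T.max'_mem hT)).2
  have h4 : T.min' hT ≤ T.max' hT := T.min'_le _ (T.max'_mem hT)
  have h5 : (T.card : ℝ) ≤ (T.max' hT : ℝ) + 1 - T.min' hT := by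
    have : T.card + T.min' hT ≤ T.max' hT + 1 := by omega
    have : (T.card : ℝ) + T.min' hT ≤ T.max' hT + 1 := by exact_mod_cast this
    linarith
  linarith

theorem lev_bounds {j M n' m s i : ℕ} (hj : 1 ≤ j) (hn' : 1 ≤ n') (hs : s < M)
    (h : lev j M n' m s = i) :
    (i : ℝ) * (n' / j) - s / M * (n' / j) ≤ m ∧
      (m : ℝ) ≤ ((i : ℝ) + 1) * (n' / j) - s / M * (n' / j) := by
  have hM : 0 < M := by omega
  unfold lev at h
  set Q := j * m * M / n' with hQ
  have h1 : i * M ≤ Q + s := by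
    rw [← h]; exact Nat.div_mul_le_self _ _
  have h2 : Q + s < M * (i + 1) := by
    have := Nat.lt_mul_div_succ (Q + s) hM
    rwa [h] at this
  have h3 : Q * n' ≤ j * m * M := Nat.div_mul_le_self _ _
  have h4 : j * m * M < n' * (Q + 1) := Nat.lt_mul_div_succ _ (by omega)
  have h5 : i * M * n' ≤ j * m * M + s * n' := by
    calc i * M * n' ≤ (Q + s) * n' := Nat.mul_le_mul_right _ h1
      _ = Q * n' + s * n' := by ring
      _ ≤ _ := by omega
  have h6 : j * m * M + s * n' < n' * (M * (i + 1)) := by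
    calc j * m * M + s * n' < n' * (Q + 1) + s * n' := by omega
      _ = n' * (Q + s + 1) := by ring
      _ ≤ n' * (M * (i + 1)) := Nat.mul_le_mul_left _ h2
  have h5' : (i : ℝ) * M * n' ≤ j * m * M + s * n' := by exact_mod_cast h5
  have h6' : (j : ℝ) * m * M + s * n' < n' * (M * (i + 1)) := by exact_mod_cast h6
  have hjR : (0 : ℝ) < j := by exact_mod_cast hj
  have hMR : (0 : ℝ) < M := by exact_mod_cast hM
  constructor
  · have : (i : ℝ) * (n' / j) - s / M * (n' / j) = (i * M * n' - s * n') / (j * M) := by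
      field_simp
    rw [this, div_le_iff₀ (by positivity)]
    nlinarith
  · have : ((i : ℝ) + 1) * (n' / j) - s / M * (n' / j) = (n' * (M * (i + 1)) - s * n') / (j * M) := by
      field_simp
    rw [this, le_div_iff₀ (by positivity)]
    nlinarith

/-- weight -/
noncomputable def wt (d j i : ℕ) : ℝ := if i = 0 ∨ i = d * j then 1 / 2 else 1

/-- the bound for the number of targets on a given level -/
noncomputable def bd (d j M n' i s : ℕ) : ℝ :=
  if i = 0 then (n' / j : ℝ) * (1 - s / M) else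
    if i = d * j then (n' / j : ℝ) * (s / M) else n' / j + 1

theorem card_level {j M n' i s : ℕ} (hj : 1 ≤ j) (hn' : 1 ≤ n') (hs : s < M) :
    ((((Ico 1 (d * n')).filter fun m => lev j M n' m s = i).card : ℕ) : ℝ) ≤ bd d j M n' i s := by
  have hM : 0 < M := by omega
  have hjR : (0 : ℝ) < j := by exact_mod_cast hj
  have hMR : (0 : ℝ) < M := by exact_mod_cast hM
  have hsR : (s : ℝ) < M := by exact_mod_cast hs
  have hs1 : (s : ℝ) / M ≤ 1 := by rw [div_le_one hMR]; exact hsR.le
  have hs0 : (0 : ℝ) ≤ (s : ℝ) / M := by positivity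
  have hnj : (0 : ℝ) ≤ (n' : ℝ) / j := by positivity
  unfold bd
  split_ifs with h0 h1
  · have h := card_le_real ((Ico 1 (d * n')).filter fun m => lev j M n' m s = i) 1
      ((n' / j : ℝ) * (1 - s / M)) (by
        intro m hm
        rw [mem_filter, mem_Ico] at hm
        have hb := lev_bounds hj hn' hs hm.2
        refine ⟨by exact_mod_cast hm.1.1, ?_⟩
        have h2 := hb.2
        rw [h0] at h2
        push_cast at h2
        linarith) (by
        have : 0 ≤ (n' / j : ℝ) * (1 - s / M) := by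
          apply mul_nonneg hnj; linarith
        linarith)
    linarith
  · have h := card_le_real ((Ico 1 (d * n')).filter fun m => lev j M n' m s = i)
      ((d : ℝ) * n' - (s / M) * (n' / j)) ((d : ℝ) * n' - 1) (by
        intro m hm
        rw [mem_filter, mem_Ico] at hm
        have hb := lev_bounds hj hn' hs hm.2
        constructor
        · have h2 := hb.1
          rw [h1] at h2
          push_cast at h2
          have h3 : (d : ℝ) * j * (n' / j) = d * n' := by field_simp
          linarith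
        · have h2 : m + 1 ≤ d * n' := by omega
          have h3 : (m : ℝ) + 1 ≤ d * n' := by exact_mod_cast h2
          linarith) (by
        have : 0 ≤ (s / M : ℝ) * (n' / j) := mul_nonneg hs0 hnj
        linarith)
    linarith
  · have h := card_le_real ((Ico 1 (d * n')).filter fun m => lev j M n' m s = i)
      ((i : ℝ) * (n' / j) - s / M * (n' / j)) (((i : ℝ) + 1) * (n' / j) - s / M * (n' / j)) (by
        intro m hm
        rw [mem_filter, mem_Ico] at hm
        exact lev_bounds hj hn' hs hm.2) (by nlinarith)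
    linarith

theorem sum_bd {j M n' i : ℕ} (hj : 1 ≤ j) (hM : 1 ≤ M) :
    ∑ s ∈ range M, bd d j M n' i s ≤ M * (n' / j : ℝ) * wt d j i + (M + n' / j : ℝ) := by
  have hjR : (0 : ℝ) < j := by exact_mod_cast hj
  have hMR : (0 : ℝ) < M := by exact_mod_cast hM
  have hnj : (0 : ℝ) ≤ (n' : ℝ) / j := by positivity
  have hsum : ∑ s ∈ range M, ((s : ℝ) / M) = (M - 1) / 2 := by
    rw [← Finset.sum_div]
    have h1 : (∑ s ∈ range M, (s : ℝ)) * 2 = M * (M - 1) := by
      have := Finset.sum_range_id_mul_two M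
      have h2 : ((∑ s ∈ range M, s : ℕ) : ℝ) * 2 = (M : ℝ) * ((M - 1 : ℕ) : ℝ) := by
        exact_mod_cast this
      rw [Nat.cast_sub hM] at h2
      push_cast at h2
      exact h2
    field_simp
    linarith
  unfold bd wt
  split_ifs with h0 h1 h2 h3
  · rw [← Finset.mul_sum, Finset.sum_sub_distrib, hsum]
    simp only [sum_const, card_range, nsmul_eq_mul, mul_one]
    nlinarith
  · exact absurd (Or.inl h0) h1
  · rw [← Finset.mul_sum, hsum]
    nlinarith
  · exact absurd (Or.inr h2) h3
  · rename_i h4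
    rcases h4 with h4 | h4
    · exact absurd h4 h0
    · exact absurd h4 h2
  · simp only [sum_const, card_range, nsmul_eq_mul]
    nlinarith

/-- the average cost of a column -/
noncomputable def EE (d : ℕ) (g : ℕ → ℕ → ℕ) (j : ℕ) : ℝ :=
  ∑ i ∈ range (d * j + 1), wt d j i * gam d g j i

theorem column_cost {c : ℕ} (hgc : ∀ n μ, g n μ ≤ c) {j M n' : ℕ} (hj : 1 ≤ j) (hM : 1 ≤ M)
    (hn' : 1 ≤ n') :
    ∑ m ∈ Ico 1 (d * n'), ∑ s ∈ range M, gam d g j (lev j M n' m s) ≤
      M * (n' / j : ℝ) * EE d g j + (M + n' : ℝ) * (c * (d * j + 1)) := by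
  have hjR : (1 : ℝ) ≤ j := by exact_mod_cast hj
  rw [Finset.sum_comm]
  have h1 : ∀ s ∈ range M, ∑ m ∈ Ico 1 (d * n'), gam d g j (lev j M n' m s) ≤
      ∑ i ∈ range (d * j + 1), gam d g j i * bd d j M n' i s := by
    intro s hs
    rw [mem_range] at hs
    rw [← Finset.sum_fiberwise_of_maps_to (t := range (d * j + 1))
      (g := fun m => lev j M n' m s) (fun m hm => by
        rw [mem_Ico] at hm
        rw [mem_range, Nat.lt_succ_iff]
        exact lev_le hn' hs hm.2.le)]
    apply Finset.sum_le_sum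
    intro i _
    have h2 : ∑ m ∈ (Ico 1 (d * n')).filter (fun m => lev j M n' m s = i),
        gam d g j (lev j M n' m s) =
        ∑ m ∈ (Ico 1 (d * n')).filter (fun m => lev j M n' m s = i), gam d g j i := by
      apply Finset.sum_congr rfl
      intro m hm
      rw [mem_filter] at hm
      rw [hm.2]
    rw [h2, Finset.sum_const, nsmul_eq_mul, mul_comm]
    exact mul_le_mul_of_nonneg_left (card_level hj hn' hs) (gam_nonneg _ _)
  refine (Finset.sum_le_sum h1).trans ?_
  rw [Finset.sum_comm]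
  have h3 : ∀ i ∈ range (d * j + 1), ∑ s ∈ range M, gam d g j i * bd d j M n' i s ≤
      M * (n' / j : ℝ) * (wt d j i * gam d g j i) + (M + n' : ℝ) * c := by
    intro i _
    rw [← Finset.mul_sum]
    have h4 := sum_bd (d := d) (j := j) (M := M) (n' := n') (i := i) hj hM
    have h5 := gam_nonneg (d := d) (g := g) j i
    have h6 := gam_le (d := d) hgc j i
    have h7 : (n' / j : ℝ) ≤ n' := div_le_self (by positivity) hjR
    calc gam d g j i * ∑ s ∈ range M, bd d j M n' i s
        ≤ gam d g j i * (M * (n' / j : ℝ) * wt d j i + (M + n' / j : ℝ)) :=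
          mul_le_mul_of_nonneg_left h4 h5
      _ = M * (n' / j : ℝ) * (wt d j i * gam d g j i) + (M + n' / j : ℝ) * gam d g j i := by ring
      _ ≤ M * (n' / j : ℝ) * (wt d j i * gam d g j i) + (M + n' : ℝ) * c := by
          have : (M + n' / j : ℝ) * gam d g j i ≤ (M + n' : ℝ) * c := by
            apply mul_le_mul _ h6 h5 (by positivity)
            linarith
          linarith
  refine (Finset.sum_le_sum h3).trans ?_
  rw [Finset.sum_add_distrib, ← Finset.mul_sum]
  simp only [sum_const, card_range, nsmul_eq_mul]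
  unfold EE
  push_cast
  apply le_of_eq
  ring

/-! ### Comparison of column averages with the colength -/

theorem EE_big {j : ℕ} (hdj : 2 ≤ d * j) : EE d g j = ∑ μ ∈ SS d j, (g j μ : ℝ) := by
  have h1 : ∀ i ∈ range (d * j + 1), wt d j i * gam d g j i =
      (if i = 1 then 0 else (g j i : ℝ)) + ((if i = 0 then -(1 / 2 * (g j 0 : ℝ)) else 0) +
        ((if i = d * j then -(1 / 2 * (g j (d * j) : ℝ)) else 0) +
        (if i = 1 then ((g j 0 : ℝ) + g j (d * j)) / 2 else 0))) := by
    intro i _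
    unfold wt gam
    by_cases hi0 : i = 0
    · subst hi0
      rw [if_pos (Or.inl rfl), if_neg (by omega), if_neg (by omega), if_pos rfl, if_neg (by omega),
        if_neg (by omega)]
      ring
    · by_cases hi1 : i = 1
      · subst hi1
        rw [if_neg (by omega), if_pos rfl, if_neg (by omega), if_pos rfl, if_neg (by omega),
          if_neg (by omega), if_pos rfl]
        ring
      · by_cases hi2 : i = d * j
        · rw [if_pos (Or.inr hi2), if_neg hi1, if_neg hi1, if_neg hi0, if_pos hi2, if_neg hi1, ← hi2]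
          ring
        · rw [if_neg (by omega), if_neg hi1, if_neg hi1, if_neg hi0, if_neg hi2, if_neg hi1]
          ring
  unfold EE
  rw [Finset.sum_congr rfl h1, Finset.sum_add_distrib, Finset.sum_add_distrib,
    Finset.sum_add_distrib, Finset.sum_ite_eq', Finset.sum_ite_eq', Finset.sum_ite_eq',
    if_pos (by rw [mem_range]; omega), if_pos (by rw [mem_range]; omega),
    if_pos (by rw [mem_range]; omega)]
  have h2 : ∑ i ∈ range (d * j + 1), (if i = 1 then 0 else (g j i : ℝ)) =
      ∑ μ ∈ SS d j, (g j μ : ℝ) := by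
    unfold SS
    rw [← Finset.add_sum_erase (range (d * j + 1)) _
      (show 1 ∈ range (d * j + 1) by rw [mem_range]; omega)]
    rw [if_pos rfl, zero_add]
    apply Finset.sum_congr rfl
    intro i hi
    rw [if_neg (Finset.ne_of_mem_erase hi)]
  rw [h2]
  ring

theorem EE_one : EE 1 g 1 = (g 1 0 + g 0 0 : ℝ) / 2 := by
  unfold EE
  simp only [mul_one, Finset.sum_range_succ, Finset.range_zero, Finset.sum_empty]
  unfold wt gam
  norm_num
  ring

theorem EE_zero_of_ge (ha : 2 ≤ a₀) (hg0 : ∀ n μ, a₀ ≤ n → g n μ = 0) {j : ℕ} (hj : a₀ ≤ j)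
    (hd1 : 1 ≤ d) : EE d g j = 0 := by
  have h : 2 ≤ d * j := by nlinarith
  rw [EE_big h]
  apply Finset.sum_eq_zero
  intro μ _
  rw [hg0 j μ hj]
  simp

theorem EE_nonneg (j : ℕ) : 0 ≤ EE d g j := by
  unfold EE
  apply Finset.sum_nonneg
  intro i _
  apply mul_nonneg _ (gam_nonneg _ _)
  unfold wt
  split_ifs <;> norm_num

/-- the total colength in terms of the costs -/
noncomputable def LL (d a₀ : ℕ) (g : ℕ → ℕ → ℕ) : ℕ := ∑ n ∈ range a₀, ∑ μ ∈ SS d n, g n μ

theorem sum_EE_le (hd1 : 1 ≤ d) (hd : d ≤ 6) (ha : 2 ≤ a₀) :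
    (d : ℝ) / 6 * g 0 0 + ∑ i ∈ range (a₀ - 1), EE d g (i + 1) ≤ LL d a₀ g := by
  have h0 : ∑ μ ∈ SS d 0, g 0 μ = g 0 0 := by
    have : SS d 0 = {0} := by
      ext x
      rw [mem_SS]
      simp
      omega
    rw [this, Finset.sum_singleton]
  have hL : (LL d a₀ g : ℝ) = g 0 0 + ∑ i ∈ range (a₀ - 1), ∑ μ ∈ SS d (i + 1), (g (i + 1) μ : ℝ) := by
    unfold LL
    have : a₀ = (a₀ - 1) + 1 := by omega
    rw [this, Finset.sum_range_succ', h0, Nat.add_sub_cancel]
    push_cast
    ring
  rw [hL]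
  have hg : (0 : ℝ) ≤ g 0 0 := by positivity
  by_cases hd2 : 2 ≤ d
  · have h1 : ∑ i ∈ range (a₀ - 1), EE d g (i + 1) =
        ∑ i ∈ range (a₀ - 1), ∑ μ ∈ SS d (i + 1), (g (i + 1) μ : ℝ) := by
      apply Finset.sum_congr rfl
      intro i _
      exact EE_big (by nlinarith)
    rw [h1]
    have h2 : (d : ℝ) ≤ 6 := by exact_mod_cast hd
    nlinarith
  · have hd1' : d = 1 := by omega
    subst hd1'
    have : a₀ - 1 = (a₀ - 2) + 1 := by omega
    rw [this, Finset.sum_range_succ', Finset.sum_range_succ' (fun i => ∑ μ ∈ SS 1 (i + 1),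
      (g (i + 1) μ : ℝ))]
    have h1 : ∑ i ∈ range (a₀ - 2), EE 1 g (i + 1 + 1) =
        ∑ i ∈ range (a₀ - 2), ∑ μ ∈ SS 1 (i + 1 + 1), (g (i + 1 + 1) μ : ℝ) := by
      apply Finset.sum_congr rfl
      intro i _
      exact EE_big (by omega)
    rw [h1]
    have h2 : ∑ μ ∈ SS 1 (0 + 1), (g (0 + 1) μ : ℝ) = g 1 0 := by
      have : SS 1 (0 + 1) = {0} := by
        ext x
        rw [mem_SS]
        simp
        omega
      rw [this, Finset.sum_singleton]
    rw [h2]
    simp only [zero_add]
    rw [EE_one]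
    have hg1 : (0 : ℝ) ≤ g 1 0 := by positivity
    push_cast
    linarith

theorem sum_range_mul_eq {α : Type*} [AddCommMonoid α] (f : ℕ → α) (a N : ℕ) :
    ∑ n ∈ range (a * N), f n = ∑ j ∈ range a, ∑ r ∈ range N, f (N * j + r) := by
  induction a with
  | zero => simp
  | succ a ih =>
    rw [add_mul, one_mul, Finset.sum_range_add, ih, Finset.sum_range_succ, mul_comm a N]

theorem sum_r_mul (N : ℕ) : ∑ r ∈ range N, ((r : ℝ) * (N - r)) = ((N : ℝ) ^ 3 - N) / 6 := by
  have h1 : ∀ M : ℕ, ∑ r ∈ range M, (r : ℝ) = (M : ℝ) * (M - 1) / 2 := by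
    intro M
    induction M with
    | zero => simp
    | succ M ih => rw [Finset.sum_range_succ, ih]; push_cast; ring
  have h2 : ∀ M : ℕ, ∑ r ∈ range M, (r : ℝ) ^ 2 = (M : ℝ) * (M - 1) * (2 * M - 1) / 6 := by
    intro M
    induction M with
    | zero => simp
    | succ M ih => rw [Finset.sum_range_succ, ih]; push_cast; ring
  have h3 : ∑ r ∈ range N, ((r : ℝ) * (N - r)) =
      N * ∑ r ∈ range N, (r : ℝ) - ∑ r ∈ range N, (r : ℝ) ^ 2 := by
    rw [Finset.mul_sum, ← Finset.sum_sub_distrib]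
    apply Finset.sum_congr rfl
    intro r _
    ring
  rw [h3, h1, h2]
  ring

/-- cost of one pair `(j, r)` -/
noncomputable def pairCost (d : ℕ) (g : ℕ → ℕ → ℕ) (N j r : ℕ) : ℝ :=
  ∑ m ∈ Ico 1 (d * (N * j + r)),
    (∑ s ∈ range (N - r), gam d g j (lev j (N - r) (N * j + r) m s) +
      ∑ s ∈ range r, gam d g (j + 1) (lev (j + 1) r (N * j + r) m s))

theorem lower_cost_zero {N r : ℕ} (hr : r < N) :
    ∑ m ∈ Ico 1 (d * (N * 0 + r)),
      ∑ s ∈ range (N - r), gam d g 0 (lev 0 (N - r) (N * 0 + r) m s) ≤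
      d * (r * (N - r) : ℝ) * g 0 0 := by
  have h1 : ∀ m ∈ Ico 1 (d * (N * 0 + r)),
      ∑ s ∈ range (N - r), gam d g 0 (lev 0 (N - r) (N * 0 + r) m s) = (N - r : ℝ) * g 0 0 := by
    intro m _
    have h2 : ∀ s ∈ range (N - r), gam d g 0 (lev 0 (N - r) (N * 0 + r) m s) = g 0 0 := by
      intro s hs
      rw [mem_range] at hs
      have : lev 0 (N - r) (N * 0 + r) m s = 0 := by
        unfold lev
        rw [zero_mul, zero_mul, Nat.zero_div, zero_add]
        exact Nat.div_eq_of_lt hs
      rw [this]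
      unfold gam
      rw [if_neg (by omega)]
    rw [Finset.sum_congr rfl h2, Finset.sum_const, card_range, nsmul_eq_mul, Nat.cast_sub hr.le]
  rw [Finset.sum_congr rfl h1, Finset.sum_const, Nat.card_Ico, nsmul_eq_mul]
  have h3 : ((d * (N * 0 + r) - 1 : ℕ) : ℝ) ≤ d * r := by
    have : (d * (N * 0 + r) - 1 : ℕ) ≤ d * r := by
      rw [mul_zero, zero_add]
      exact Nat.sub_le _ _
    exact_mod_cast this
  have h4 : (0 : ℝ) ≤ (N - r : ℝ) * g 0 0 := by
    apply mul_nonneg _ (by positivity)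
    have : (r : ℝ) < N := by exact_mod_cast hr
    linarith
  calc ((d * (N * 0 + r) - 1 : ℕ) : ℝ) * ((N - r : ℝ) * g 0 0)
      ≤ (d * r) * ((N - r : ℝ) * g 0 0) := mul_le_mul_of_nonneg_right h3 h4
    _ = _ := by ring

theorem lower_cost {c : ℕ} (hgc : ∀ n μ, g n μ ≤ c) {N j r : ℕ} (hj : 1 ≤ j) (hja : j ≤ a₀)
    (hr : r < N) :
    ∑ m ∈ Ico 1 (d * (N * j + r)),
      ∑ s ∈ range (N - r), gam d g j (lev j (N - r) (N * j + r) m s) ≤
      (N - r : ℝ) * ((N * j + r) / j : ℝ) * EE d g j + (a₀ + 2) * N * (c * (d * a₀ + 1)) := by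
  have h := column_cost (d := d) hgc (j := j) (M := N - r) (n' := N * j + r) hj (by omega)
    (by nlinarith)
  rw [Nat.cast_sub hr.le] at h
  push_cast at h
  refine h.trans ?_
  have hrR : (r : ℝ) ≤ N := by exact_mod_cast hr.le
  have hr0 : (0 : ℝ) ≤ r := by positivity
  have hjR : (j : ℝ) ≤ a₀ := by exact_mod_cast hja
  have hN0 : (0 : ℝ) ≤ N := by positivity
  have hd0 : (0 : ℝ) ≤ d := by positivity
  have hc0 : (0 : ℝ) ≤ c := by positivity
  have hj0 : (0 : ℝ) ≤ j := by positivity
  have h1 : ((N : ℝ) - r + (N * j + r)) * (c * (d * j + 1)) ≤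
      (a₀ + 2) * N * (c * (d * a₀ + 1)) := by
    apply mul_le_mul
    · nlinarith
    · apply mul_le_mul_of_nonneg_left _ hc0
      nlinarith
    · positivity
    · positivity
  linarith

theorem upper_cost {c : ℕ} (hgc : ∀ n μ, g n μ ≤ c) {N j r : ℕ} (hja : j + 1 ≤ a₀)
    (hr : r < N) :
    ∑ m ∈ Ico 1 (d * (N * j + r)),
      ∑ s ∈ range r, gam d g (j + 1) (lev (j + 1) r (N * j + r) m s) ≤
      (r : ℝ) * ((N * j + r) / (j + 1) : ℝ) * EE d g (j + 1) +
        (a₀ + 2) * N * (c * (d * a₀ + 1)) := by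
  rcases Nat.eq_zero_or_pos r with h0 | hpos
  · subst h0
    simp only [range_zero, sum_empty, sum_const_zero]
    have := EE_nonneg (d := d) (g := g) (j + 1)
    positivity
  have h := column_cost (d := d) hgc (j := j + 1) (M := r) (n' := N * j + r) (by omega) hpos
    (by omega)
  push_cast at h
  refine h.trans ?_
  have hrR : (r : ℝ) ≤ N := by exact_mod_cast hr.le
  have hr0 : (0 : ℝ) ≤ r := by positivity
  have hjR : (j : ℝ) + 1 ≤ a₀ := by exact_mod_cast hja
  have hN0 : (0 : ℝ) ≤ N := by positivity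
  have hd0 : (0 : ℝ) ≤ d := by positivity
  have hc0 : (0 : ℝ) ≤ c := by positivity
  have hj0 : (0 : ℝ) ≤ j := by positivity
  have h1 : ((r : ℝ) + (N * j + r)) * (c * (d * (j + 1) + 1)) ≤
      (a₀ + 2) * N * (c * (d * a₀ + 1)) := by
    apply mul_le_mul
    · nlinarith
    · apply mul_le_mul_of_nonneg_left _ hc0
      nlinarith
    · positivity
    · positivity
  linarith

/-- total cost of the good pairs -/
theorem total_cost {c : ℕ} (hgc : ∀ n μ, g n μ ≤ c) (hd1 : 1 ≤ d) (hd : d ≤ 6) (ha : 2 ≤ a₀)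
    (hg0 : ∀ n μ, a₀ ≤ n → g n μ = 0) (N : ℕ) :
    ∑ j ∈ range a₀, ∑ r ∈ range N, pairCost d g N j r ≤
      (N : ℝ) ^ 3 * LL d a₀ g + a₀ * N * (2 * ((a₀ + 2) * N * (c * (d * a₀ + 1)))) := by
  set K : ℝ := (a₀ + 2) * N * (c * (d * a₀ + 1)) with hK
  have hK0 : 0 ≤ K := by positivity
  -- split into lower and upper
  have hsplit : ∀ j r, pairCost d g N j r =
      (∑ m ∈ Ico 1 (d * (N * j + r)),
        ∑ s ∈ range (N - r), gam d g j (lev j (N - r) (N * j + r) m s)) +
      (∑ m ∈ Ico 1 (d * (N * j + r)),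
        ∑ s ∈ range r, gam d g (j + 1) (lev (j + 1) r (N * j + r) m s)) := by
    intro j r
    unfold pairCost
    rw [Finset.sum_add_distrib]
  -- main terms
  let low : ℕ → ℕ → ℝ := fun j r =>
    if j = 0 then d * (r * (N - r) : ℝ) * g 0 0 else (N - r : ℝ) * ((N * j + r) / j : ℝ) * EE d g j
  let upp : ℕ → ℕ → ℝ := fun j r => (r : ℝ) * ((N * j + r) / (j + 1) : ℝ) * EE d g (j + 1)
  have hbound : ∀ j ∈ range a₀, ∀ r ∈ range N, pairCost d g N j r ≤ low j r + upp j r + 2 * K := by
    intro j hj r hr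
    rw [mem_range] at hj hr
    rw [hsplit]
    have hu := upper_cost (d := d) hgc (a₀ := a₀) (N := N) (j := j) (r := r) (by omega) hr
    have hl : ∑ m ∈ Ico 1 (d * (N * j + r)),
        ∑ s ∈ range (N - r), gam d g j (lev j (N - r) (N * j + r) m s) ≤ low j r + K := by
      by_cases h0 : j = 0
      · subst h0
        have := lower_cost_zero (d := d) (g := g) hr
        simp only [low, if_pos]
        linarith
      · have := lower_cost (d := d) hgc (a₀ := a₀) (N := N) (j := j) (r := r) (by omega) (by omega) hr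
        simp only [low, if_neg h0]
        exact this
    simp only [upp]
    linarith
  have h1 : ∑ j ∈ range a₀, ∑ r ∈ range N, pairCost d g N j r ≤
      ∑ j ∈ range a₀, ∑ r ∈ range N, (low j r + upp j r + 2 * K) :=
    Finset.sum_le_sum fun j hj => Finset.sum_le_sum fun r hr => hbound j hj r hr
  refine h1.trans ?_
  have h2 : ∑ j ∈ range a₀, ∑ r ∈ range N, (low j r + upp j r + 2 * K) =
      (∑ j ∈ range a₀, ∑ r ∈ range N, low j r) + (∑ j ∈ range a₀, ∑ r ∈ range N, upp j r) +
        a₀ * N * (2 * K) := by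
    simp only [Finset.sum_add_distrib, Finset.sum_const, card_range, nsmul_eq_mul]
    ring
  rw [h2]
  -- reorganize
  have ha1 : a₀ = (a₀ - 1) + 1 := by omega
  have h3 : ∑ j ∈ range a₀, ∑ r ∈ range N, low j r =
      (∑ i ∈ range (a₀ - 1), ∑ r ∈ range N, low (i + 1) r) + ∑ r ∈ range N, low 0 r := by
    conv_lhs => rw [ha1]
    rw [Finset.sum_range_succ']
  have h4 : ∑ j ∈ range a₀, ∑ r ∈ range N, upp j r =
      ∑ i ∈ range (a₀ - 1), ∑ r ∈ range N, upp i r := by
    conv_lhs => rw [ha1]
    rw [Finset.sum_range_succ]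
    have : ∑ r ∈ range N, upp (a₀ - 1) r = 0 := by
      apply Finset.sum_eq_zero
      intro r _
      simp only [upp]
      rw [EE_zero_of_ge ha hg0 (by omega) hd1, mul_zero]
    rw [this, add_zero]
  have h5 : ∀ i ∈ range (a₀ - 1), ∑ r ∈ range N, low (i + 1) r + ∑ r ∈ range N, upp i r =
      (N : ℝ) ^ 3 * EE d g (i + 1) := by
    intro i _
    rw [← Finset.sum_add_distrib]
    have h6 : ∀ r ∈ range N, low (i + 1) r + upp i r = (N : ℝ) ^ 2 * EE d g (i + 1) := by
      intro r _
      simp only [low, upp, if_neg (Nat.succ_ne_zero i)]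
      push_cast
      field_simp
      ring
    rw [Finset.sum_congr rfl h6, Finset.sum_const, card_range, nsmul_eq_mul]
    ring
  have h7 : ∑ r ∈ range N, low 0 r ≤ (N : ℝ) ^ 3 * ((d : ℝ) / 6 * g 0 0) := by
    simp only [low, if_pos]
    rw [← Finset.sum_mul, ← Finset.mul_sum, sum_r_mul]
    have hg : (0 : ℝ) ≤ g 0 0 := by positivity
    have hdr : (0 : ℝ) ≤ d := by positivity
    have hN : (0 : ℝ) ≤ N := by positivity
    have : (d : ℝ) * (((N : ℝ) ^ 3 - N) / 6) * g 0 0 =
      (N : ℝ) ^ 3 * ((d : ℝ) / 6 * g 0 0) - d * N * g 0 0 / 6 := by ring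
    rw [this]
    have : 0 ≤ d * N * (g 0 0 : ℝ) / 6 := by positivity
    linarith
  have h8 := sum_EE_le (g := g) (a₀ := a₀) hd1 hd ha
  have h9 : (∑ i ∈ range (a₀ - 1), ∑ r ∈ range N, low (i + 1) r) +
      ∑ i ∈ range (a₀ - 1), ∑ r ∈ range N, upp i r =
      (N : ℝ) ^ 3 * ∑ i ∈ range (a₀ - 1), EE d g (i + 1) := by
    rw [← Finset.sum_add_distrib, Finset.sum_congr rfl h5, Finset.mul_sum]
  have h10 : (N : ℝ) ^ 3 * ((d : ℝ) / 6 * g 0 0 + ∑ i ∈ range (a₀ - 1), EE d g (i + 1)) ≤
      (N : ℝ) ^ 3 * LL d a₀ g := mul_le_mul_of_nonneg_left h8 (by positivity)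
  rw [h3, h4]
  rw [mul_add] at h10
  linarith

theorem sum_union_le {α : Type*} [DecidableEq α] (A B : Finset α) (f : α → ℝ) (hf : ∀ x, 0 ≤ f x) :
    ∑ x ∈ A ∪ B, f x ≤ ∑ x ∈ A, f x + ∑ x ∈ B, f x := by
  rw [← Finset.sum_union_inter]
  have : 0 ≤ ∑ x ∈ A ∩ B, f x := Finset.sum_nonneg fun x _ => hf x
  linarith

/-- The main numerical theorem. -/
theorem numeric_main {c nst : ℕ} (hgc : ∀ n μ, g n μ ≤ c) (hd1 : 1 ≤ d) (hd : d ≤ 6)
    (ha : 2 ≤ a₀) (hg0 : ∀ n μ, a₀ ≤ n → g n μ = 0) (hnst : 1 ≤ nst) :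
    ∃ C : ℝ, ∀ N : ℕ, 1 ≤ N → ∀ H : ℕ → ℕ → ℕ, (∀ n μ, H n μ ≤ c * N) →
      (∀ n' m κ, Ach d a₀ g N n' m κ → H (nst + n') (d * nst + m) ≤ κ) →
      ((∑ n ∈ range (nst + a₀ * N), ∑ μ ∈ SS d n, H n μ : ℕ) : ℝ) ≤
        (N : ℝ) ^ 3 * LL d a₀ g + C * (N : ℝ) ^ 2 := by
  refine ⟨nst * ((d * nst + 1) * c) + a₀ * ((d * nst + 2) * c) + a₀ * (2 * c) * (d * a₀) +
    a₀ * (2 * ((a₀ + 2) * (c * (d * a₀ + 1)))), ?_⟩
  intro N hN H hH hAch
  have hNR : (1 : ℝ) ≤ N := by exact_mod_cast hN
  have hHR : ∀ n μ, (H n μ : ℝ) ≤ c * N := fun n μ => by exact_mod_cast hH n μ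
  rw [Finset.sum_range_add]
  push_cast
  -- first part
  have hfirst : ∑ n ∈ range nst, ∑ μ ∈ SS d n, (H n μ : ℝ) ≤ nst * ((d * nst + 1) * c) * N := by
    have h1 : ∀ n ∈ range nst, ∑ μ ∈ SS d n, (H n μ : ℝ) ≤ (d * nst + 1) * (c * N) := by
      intro n hn
      rw [mem_range] at hn
      refine (Finset.sum_le_card_nsmul _ _ (c * N : ℝ) (fun μ _ => hHR n μ)).trans ?_
      rw [nsmul_eq_mul]
      apply mul_le_mul_of_nonneg_right _ (by positivity)
      have h2 : (SS d n).card ≤ d * nst + 1 := by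
        unfold SS
        refine (Finset.card_le_card (Finset.erase_subset _ _)).trans ?_
        rw [card_range]
        have : d * n ≤ d * nst := Nat.mul_le_mul_left _ hn.le
        omega
      exact_mod_cast h2
    refine (Finset.sum_le_sum h1).trans ?_
    rw [Finset.sum_const, card_range, nsmul_eq_mul]
    apply le_of_eq
    ring
  -- second part
  have hsecond : ∀ n' ∈ range (a₀ * N), ∑ μ ∈ SS d (nst + n'), (H (nst + n') μ : ℝ) ≤
      (d * nst + 2) * c * N + ∑ m ∈ Ico 1 (d * n'), (H (nst + n') (d * nst + (m - 1)) : ℝ) := by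
    intro n' hn'
    have hsub : SS d (nst + n') ⊆ (range (d * nst) ∪ ({d * nst + d * n', d * nst + d * n' - 1} : Finset ℕ)) ∪
        (Ico 1 (d * n')).image (fun m => d * nst + (m - 1)) := by
      intro μ hμ
      rw [mem_SS, mul_add] at hμ
      rw [mem_union, mem_union, mem_range, mem_insert, mem_singleton, mem_image]
      by_cases h1 : μ < d * nst
      · exact Or.inl (Or.inl h1)
      by_cases h2 : μ = d * nst + d * n'
      · exact Or.inl (Or.inr (Or.inl h2))
      by_cases h3 : μ = d * nst + d * n' - 1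
      · exact Or.inl (Or.inr (Or.inr h3))
      right
      refine ⟨μ - d * nst + 1, ?_, ?_⟩
      · rw [mem_Ico]
        omega
      · omega
    refine (Finset.sum_le_sum_of_subset_of_nonneg hsub (fun _ _ _ => by positivity)).trans ?_
    refine (sum_union_le _ _ _ (fun _ => by positivity)).trans ?_
    have hA : ∑ μ ∈ (range (d * nst) ∪ ({d * nst + d * n', d * nst + d * n' - 1} : Finset ℕ)),
        (H (nst + n') μ : ℝ) ≤ (d * nst + 2) * c * N := by
      refine (Finset.sum_le_card_nsmul _ _ (c * N : ℝ) (fun μ _ => hHR _ μ)).trans ?_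
      rw [nsmul_eq_mul, mul_assoc]
      apply mul_le_mul_of_nonneg_right _ (by positivity)
      have h2 : (range (d * nst) ∪ ({d * nst + d * n', d * nst + d * n' - 1} : Finset ℕ)).card ≤
          d * nst + 2 := by
        refine (Finset.card_union_le _ _).trans ?_
        rw [card_range]
        exact Nat.add_le_add_left Finset.card_le_two _
      exact_mod_cast h2
    have hB : ∑ μ ∈ (Ico 1 (d * n')).image (fun m => d * nst + (m - 1)), (H (nst + n') μ : ℝ) =
        ∑ m ∈ Ico 1 (d * n'), (H (nst + n') (d * nst + (m - 1)) : ℝ) := by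
      rw [Finset.sum_image]
      intro x hx y hy hxy
      simp only [coe_Ico, Set.mem_Ico] at hx hy
      simp only at hxy
      omega
    rw [hB]
    linarith
  have hthird : ∑ n' ∈ range (a₀ * N), ∑ m ∈ Ico 1 (d * n'),
      (H (nst + n') (d * nst + (m - 1)) : ℝ) ≤
      ∑ j ∈ range a₀, ∑ r ∈ range N, (pairCost d g N j r + d * (a₀ * N) * (2 * c)) := by
    rw [sum_range_mul_eq]
    apply Finset.sum_le_sum
    intro j hj
    apply Finset.sum_le_sum
    intro r hr
    rw [mem_range] at hj hr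
    have h1 : ∀ m ∈ Ico 1 (d * (N * j + r)),
        (H (nst + (N * j + r)) (d * nst + (m - 1)) : ℝ) ≤
        (∑ s ∈ range (N - r), gam d g j (lev j (N - r) (N * j + r) m s) +
        ∑ s ∈ range r, gam d g (j + 1) (lev (j + 1) r (N * j + r) m s)) + 2 * c := by
      intro m hm
      rw [mem_Ico] at hm
      have hn' : 1 ≤ N * j + r := by
        by_contra hcon
        have h0 : N * j + r = 0 := by omega
        rw [h0, mul_zero] at hm
        omega
      obtain ⟨κ, hA, hκ⟩ := ach_target (d := d) (a₀ := a₀) hgc (j := j) (r := r) (N := N) (m := m)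
        (by omega) hr hn' hm.2.le
      have h2 := hAch _ _ _ hA
      have h3 : (H (nst + (N * j + r)) (d * nst + (m - 1)) : ℝ) ≤ κ := by exact_mod_cast h2
      linarith
    refine (Finset.sum_le_sum h1).trans ?_
    rw [Finset.sum_add_distrib]
    unfold pairCost
    apply add_le_add le_rfl
    rw [Finset.sum_const, Nat.card_Ico, nsmul_eq_mul]
    apply mul_le_mul_of_nonneg_right _ (by positivity)
    have h2 : d * (N * j + r) - 1 ≤ d * (a₀ * N) := by
      have h3 : N * j + r ≤ a₀ * N := by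
        calc N * j + r ≤ N * j + N := by omega
          _ = (j + 1) * N := by ring
          _ ≤ a₀ * N := Nat.mul_le_mul_right _ hj
      calc d * (N * j + r) - 1 ≤ d * (N * j + r) := Nat.sub_le _ _
        _ ≤ _ := Nat.mul_le_mul_left _ h3
    exact_mod_cast h2
  have htot := total_cost (d := d) (a₀ := a₀) (g := g) hgc hd1 hd ha hg0 N
  have h4 : ∑ n' ∈ range (a₀ * N), ∑ μ ∈ SS d (nst + n'), (H (nst + n') μ : ℝ) ≤
      a₀ * N * ((d * nst + 2) * c * N) + ∑ n' ∈ range (a₀ * N), ∑ m ∈ Ico 1 (d * n'),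
        (H (nst + n') (d * nst + (m - 1)) : ℝ) := by
    refine (Finset.sum_le_sum hsecond).trans ?_
    rw [Finset.sum_add_distrib, Finset.sum_const, card_range, nsmul_eq_mul]
    push_cast
    exact le_rfl
  have h5 : ∑ j ∈ range a₀, ∑ r ∈ range N, (pairCost d g N j r + d * (a₀ * N) * (2 * c)) =
      ∑ j ∈ range a₀, ∑ r ∈ range N, pairCost d g N j r +
        a₀ * N * (d * (a₀ * N) * (2 * c)) := by
    simp only [Finset.sum_add_distrib, Finset.sum_const, card_range, nsmul_eq_mul]
    ring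
  rw [h5] at hthird
  have h6 : (nst : ℝ) * ((d * nst + 1) * c) * N ≤ nst * ((d * nst + 1) * c) * N ^ 2 := by
    apply mul_le_mul_of_nonneg_left _ (by positivity)
    nlinarith
  calc _ ≤ (nst * ((d * nst + 1) * c) * N : ℝ) + (a₀ * N * ((d * nst + 2) * c * N) +
        (((N : ℝ) ^ 3 * LL d a₀ g + a₀ * N * (2 * ((a₀ + 2) * N * (c * (d * a₀ + 1))))) +
        a₀ * N * (d * (a₀ * N) * (2 * c)))) := by linarith
    _ ≤ (nst * ((d * nst + 1) * c) * N ^ 2 : ℝ) + (a₀ * N * ((d * nst + 2) * c * N) +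
        (((N : ℝ) ^ 3 * LL d a₀ g + a₀ * N * (2 * ((a₀ + 2) * N * (c * (d * a₀ + 1))))) +
        a₀ * N * (d * (a₀ * N) * (2 * c)))) := by linarith
    _ = _ := by ring

end Pool.Agent.Helper69_Lech
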