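import Mathlib
import Pool.Agent.Helper69_Lech.Clifford
import Pool.Agent.Helper69_Lech.Numeric
import Pool.Agent.Helper69_Lech.Filtration

set_option linter.unusedSectionVars false
set_option linter.unusedVariables false

namespace Pool.Agent.Helper69_Lech

open Module Submodule PowerSeries

/-- The ring `R` is identified through `Φ` with the power series `∑ b_n t^n` over `B` such
that `b_n` has pole order at most `d n`. -/
structure Model (B : Type*) [CommRing B] [Algebra ℂ B] (Bl : ℕ → Submodule ℂ B) (d : ℕ)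
    (R : Type*) [CommRing R] [Algebra ℂ R] (Φ : R →ₐ[ℂ] PowerSeries B) : Prop where
  hB : PoleData B Bl
  inj : Function.Injective Φ
  coeff_mem : ∀ r n, PowerSeries.coeff n (Φ r) ∈ Bl (d * n)
  surj : ∀ f : PowerSeries B, (∀ n, PowerSeries.coeff n f ∈ Bl (d * n)) → ∃ r, Φ r = f

variable {B : Type*} [CommRing B] [IsDedekindDomain B] [Algebra ℂ B]
  {Bl : ℕ → Submodule ℂ B} {d : ℕ} {R : Type*} [CommRing R] [Algebra ℂ R]
  {Φ : R →ₐ[ℂ] PowerSeries B}

/-- elements of order at least `n` -/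
def FR (Φ : R →ₐ[ℂ] PowerSeries B) (n : ℕ) : Ideal R where
  carrier := {r | ∀ i < n, PowerSeries.coeff i (Φ r) = 0}
  add_mem' := by
    intro a b ha hb i hi
    rw [map_add, map_add, ha i hi, hb i hi, add_zero]
  zero_mem' := by
    intro i _
    rw [map_zero, map_zero]
  smul_mem' := by
    intro c x hx i hi
    rw [smul_eq_mul, map_mul, PowerSeries.coeff_mul]
    apply Finset.sum_eq_zero
    intro p hp
    rw [Finset.HasAntidiagonal.mem_antidiagonal] at hp
    rw [hx p.2 (by omega), mul_zero]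

theorem mem_FR {n : ℕ} {r : R} : r ∈ FR Φ n ↔ ∀ i < n, PowerSeries.coeff i (Φ r) = 0 := Iff.rfl

theorem FR_anti {m n : ℕ} (h : m ≤ n) : FR Φ n ≤ FR Φ m := fun _ hr i hi => hr i (by omega)

/-- the coordinate map -/
noncomputable def cR (Φ : R →ₐ[ℂ] PowerSeries B) (n : ℕ) : R →ₗ[ℂ] B where
  toFun r := PowerSeries.coeff n (Φ r)
  map_add' := by intro a b; rw [map_add, map_add]
  map_smul' := by
    intro c a
    rw [map_smul, RingHom.id_apply]
    rw [← algebraMap_smul (A := B) c (Φ a), map_smul, algebraMap_smul]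

theorem cR_apply (n : ℕ) (r : R) : cR Φ n r = PowerSeries.coeff n (Φ r) := rfl

/-- leading coefficients of degree `n` of an ideal -/
noncomputable def lead (Φ : R →ₐ[ℂ] PowerSeries B) (I : Ideal R) (n : ℕ) : Submodule ℂ B :=
  ((FR Φ n ⊓ I).restrictScalars ℂ).map (cR Φ n)

theorem mem_lead {I : Ideal R} {n : ℕ} {b : B} :
    b ∈ lead Φ I n ↔ ∃ r ∈ I, r ∈ FR Φ n ∧ PowerSeries.coeff n (Φ r) = b := by
  unfold lead
  rw [Submodule.mem_map]
  constructor
  · rintro ⟨r, hr, hb⟩
    exact ⟨r, hr.2, hr.1, hb⟩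
  · rintro ⟨r, hr1, hr2, hb⟩
    exact ⟨r, ⟨hr2, hr1⟩, hb⟩

theorem lead_mono {I J : Ideal R} (h : I ≤ J) (n : ℕ) : lead Φ I n ≤ lead Φ J n := by
  intro b hb
  rw [mem_lead] at *
  obtain ⟨r, h1, h2, h3⟩ := hb
  exact ⟨r, h h1, h2, h3⟩

theorem lead_le (hM : Model B Bl d R Φ) (I : Ideal R) (n : ℕ) : lead Φ I n ≤ Bl (d * n) := by
  intro b hb
  rw [mem_lead] at hb
  obtain ⟨r, _, _, rfl⟩ := hb
  exact hM.coeff_mem r n

/-- monomials -/
theorem exists_monomial (hM : Model B Bl d R Φ) {n : ℕ} {b : B} (hb : b ∈ Bl (d * n)) :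
    ∃ r : R, Φ r = PowerSeries.monomial n b := by
  apply hM.surj
  intro m
  rw [PowerSeries.coeff_monomial]
  split_ifs with h
  · rw [h]; exact hb
  · exact Submodule.zero_mem _

theorem lead_top (hM : Model B Bl d R Φ) (n : ℕ) : lead Φ (⊤ : Ideal R) n = Bl (d * n) := by
  apply le_antisymm (lead_le hM _ _)
  intro b hb
  obtain ⟨r, hr⟩ := exists_monomial hM hb
  rw [mem_lead]
  refine ⟨r, Submodule.mem_top, ?_, ?_⟩
  · intro i hi
    rw [hr, PowerSeries.coeff_monomial, if_neg (by omega)]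
  · rw [hr, PowerSeries.coeff_monomial, if_pos rfl]

theorem coeff_mul_of_order {S : Type*} [CommRing S] {f g : PowerSeries S} {m n : ℕ}
    (hf : ∀ i < m, PowerSeries.coeff i f = 0) (hg : ∀ i < n, PowerSeries.coeff i g = 0) :
    (∀ i < m + n, PowerSeries.coeff i (f * g) = 0) ∧
      PowerSeries.coeff (m + n) (f * g) = PowerSeries.coeff m f * PowerSeries.coeff n g := by
  constructor
  · intro i hi
    rw [PowerSeries.coeff_mul]
    apply Finset.sum_eq_zero
    intro p hp
    rw [Finset.HasAntidiagonal.mem_antidiagonal] at hp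
    by_cases h : p.1 < m
    · rw [hf _ h, zero_mul]
    · rw [hg _ (by omega), mul_zero]
  · rw [PowerSeries.coeff_mul]
    rw [Finset.sum_eq_single (m, n)]
    · intro p hp hne
      rw [Finset.HasAntidiagonal.mem_antidiagonal] at hp
      by_cases h : p.1 < m
      · rw [hf _ h, zero_mul]
      · by_cases h' : p.2 < n
        · rw [hg _ h', mul_zero]
        · exfalso
          apply hne
          ext <;> simp <;> omega
    · intro h
      exfalso
      apply h
      rw [Finset.HasAntidiagonal.mem_antidiagonal]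

theorem FR_mul_le (m n : ℕ) : FR Φ m * FR Φ n ≤ FR Φ (m + n) := by
  rw [Ideal.mul_le]
  intro r hr s hs
  rw [mem_FR, map_mul]
  exact (coeff_mul_of_order hr hs).1

theorem lead_mul (I J : Ideal R) (m n : ℕ) : lead Φ I m * lead Φ J n ≤ lead Φ (I * J) (m + n) := by
  rw [Submodule.mul_le]
  intro b hb b' hb'
  rw [mem_lead] at *
  obtain ⟨r, h1, h2, rfl⟩ := hb
  obtain ⟨r', h1', h2', rfl⟩ := hb'
  refine ⟨r * r', Ideal.mul_mem_mul h1 h1', ?_, ?_⟩
  · rw [mem_FR, map_mul]
    exact (coeff_mul_of_order h2 h2').1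
  · rw [map_mul]
    exact (coeff_mul_of_order h2 h2').2

/-- leading coefficients with respect to the last variable `T` -/
def tlead (I : Ideal (PowerSeries R)) (k : ℕ) : Ideal R where
  carrier := {r | ∃ a ∈ I, (∀ i < k, PowerSeries.coeff i a = 0) ∧ PowerSeries.coeff k a = r}
  add_mem' := by
    rintro _ _ ⟨a, ha, ha1, rfl⟩ ⟨b, hb, hb1, rfl⟩
    refine ⟨a + b, I.add_mem ha hb, ?_, by rw [map_add]⟩
    intro i hi
    rw [map_add, ha1 i hi, hb1 i hi, add_zero]
  zero_mem' := ⟨0, I.zero_mem, by simp, by simp⟩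
  smul_mem' := by
    rintro c _ ⟨a, ha, ha1, rfl⟩
    refine ⟨PowerSeries.C c * a, I.mul_mem_left _ ha, ?_, ?_⟩
    · intro i hi
      rw [PowerSeries.coeff_C_mul, ha1 i hi, mul_zero]
    · rw [PowerSeries.coeff_C_mul, smul_eq_mul]

theorem mem_tlead {I : Ideal (PowerSeries R)} {k : ℕ} {r : R} : r ∈ tlead I k ↔
    ∃ a ∈ I, (∀ i < k, PowerSeries.coeff i a = 0) ∧ PowerSeries.coeff k a = r := Iff.rfl

theorem tlead_mul (I J : Ideal (PowerSeries R)) (k l : ℕ) :
    tlead I k * tlead J l ≤ tlead (I * J) (k + l) := by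
  rw [Ideal.mul_le]
  rintro _ ⟨a, ha, ha1, rfl⟩ _ ⟨b, hb, hb1, rfl⟩
  exact ⟨a * b, Ideal.mul_mem_mul ha hb, (coeff_mul_of_order ha1 hb1).1,
    (coeff_mul_of_order ha1 hb1).2⟩

theorem tlead_succ (I : Ideal (PowerSeries R)) (k : ℕ) : tlead I k ≤ tlead I (k + 1) := by
  rintro _ ⟨a, ha, ha1, rfl⟩
  refine ⟨PowerSeries.X * a, I.mul_mem_left _ ha, ?_, ?_⟩
  · intro i hi
    rcases i with _ | i
    · rw [PowerSeries.coeff_zero_X_mul]
    · rw [PowerSeries.coeff_succ_X_mul]
      exact ha1 i (by omega)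
  · rw [PowerSeries.coeff_succ_X_mul]

theorem tlead_mono {I : Ideal (PowerSeries R)} {k l : ℕ} (h : k ≤ l) : tlead I k ≤ tlead I l := by
  induction l, h using Nat.le_induction with
  | base => exact le_rfl
  | succ l _ ih => exact ih.trans (tlead_succ I l)

theorem tlead_eq_top {I : Ideal (PowerSeries R)} {c k : ℕ} (hc : (PowerSeries.X : PowerSeries R) ^ c ∈ I)
    (h : c ≤ k) : tlead I k = ⊤ := by
  rw [Ideal.eq_top_iff_one]
  apply tlead_mono h
  refine ⟨_, hc, ?_, ?_⟩
  · intro i hi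
    rw [PowerSeries.coeff_X_pow, if_neg (by omega)]
  · rw [PowerSeries.coeff_X_pow, if_pos rfl]

/-- the bigraded leading coefficient spaces -/
noncomputable def VV (Φ : R →ₐ[ℂ] PowerSeries B) (I : Ideal (PowerSeries R)) (k n : ℕ) :
    Submodule ℂ B := lead Φ (tlead I k) n

theorem VV_mul (I J : Ideal (PowerSeries R)) (k l m n : ℕ) :
    VV Φ I k m * VV Φ J l n ≤ VV Φ (I * J) (k + l) (m + n) :=
  (lead_mul _ _ _ _).trans (lead_mono (tlead_mul I J k l) _)

theorem VV_mono {I : Ideal (PowerSeries R)} {k l : ℕ} (h : k ≤ l) (n : ℕ) :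
    VV Φ I k n ≤ VV Φ I l n := lead_mono (tlead_mono h) n

theorem Bl_mul_VV (hM : Model B Bl d R Φ) (I : Ideal (PowerSeries R)) (k m n : ℕ) :
    Bl (d * m) * VV Φ I k n ≤ VV Φ I k (m + n) := by
  rw [← lead_top hM]
  refine (lead_mul _ _ _ _).trans (lead_mono ?_ _)
  exact (Ideal.mul_le_right : (⊤ : Ideal R) * tlead I k ≤ tlead I k)

theorem one_le_VV_zero (hM : Model B Bl d R Φ) :
    (1 : Submodule ℂ B) ≤ VV Φ (1 : Ideal (PowerSeries R)) 0 0 := by
  rw [Submodule.one_le]
  unfold VV
  have : tlead (1 : Ideal (PowerSeries R)) 0 = ⊤ := by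
    apply tlead_eq_top (c := 0) _ le_rfl
    rw [Ideal.one_eq_top]
    exact Submodule.mem_top
  rw [this, lead_top hM]
  exact hM.hB.one_mem _

/-- product of leading spaces attached to a list of points -/
theorem VV_list_prod (hM : Model B Bl d R Φ) (I : Ideal (PowerSeries R)) (l : List (ℕ × ℕ)) :
    (l.map fun x => VV Φ I x.1 x.2).prod ≤
      VV Φ (I ^ l.length) (l.map Prod.fst).sum (l.map Prod.snd).sum := by
  induction l with
  | nil =>
    simp only [List.map_nil, List.prod_nil, List.length_nil, pow_zero, List.sum_nil]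
    exact one_le_VV_zero hM
  | cons x l ih =>
    simp only [List.map_cons, List.prod_cons, List.length_cons, List.sum_cons]
    rw [pow_succ']
    refine (mul_le_mul' le_rfl ih).trans ?_
    exact VV_mul _ _ _ _ _ _

/-! ### Colength formulas -/

theorem Bl_finite' (hM : Model B Bl d R Φ) (n : ℕ) : Module.Finite ℂ (Bl (d * n)) :=
  hM.hB.finite _

theorem lead_finite (hM : Model B Bl d R Φ) (I : Ideal R) (n : ℕ) :
    Module.Finite ℂ (lead Φ I n) := by
  have := hM.hB.finite (d * n)
  exact Submodule.finiteDimensional_of_le (lead_le hM I n)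

theorem colength_R (hM : Model B Bl d R Φ) (I : Ideal R) (b : ℕ) (hb : FR Φ b ≤ I) :
    Module.Finite ℂ (R ⧸ I) ∧ finrank ℂ (R ⧸ I) =
      ∑ n ∈ Finset.range b, (finrank ℂ (Bl (d * n)) - finrank ℂ (lead Φ I n)) := by
  let c : ∀ n, R →ₗ[ℂ] Bl (d * n) := fun n => (cR Φ n).codRestrict (Bl (d * n))
    (fun r => hM.coeff_mem r n)
  let F : ℕ → Submodule ℂ R := fun n => (FR Φ n).restrictScalars ℂ
  have h := fil_main (E := fun n => Bl (d * n)) c F (by
    ext r
    simp only [F, Submodule.restrictScalars_mem, mem_FR, Submodule.mem_top, iff_true]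
    intro i hi
    omega) (by
    intro n
    ext r
    simp only [F, Submodule.restrictScalars_mem, mem_FR, Submodule.mem_inf, LinearMap.mem_ker, c]
    constructor
    · intro h
      refine ⟨fun i hi => h i (by omega), ?_⟩
      ext
      exact h n (by omega)
    · rintro ⟨h1, h2⟩ i hi
      rcases Nat.lt_succ_iff_lt_or_eq.mp hi with h3 | h3
      · exact h1 i h3
      · rw [h3]
        exact congrArg Subtype.val h2) (by
    intro n e
    obtain ⟨r, hr⟩ := exists_monomial hM e.2
    refine ⟨r, ?_, ?_⟩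
    · intro i hi
      rw [hr, PowerSeries.coeff_monomial, if_neg (by omega)]
    · ext
      change PowerSeries.coeff n (Φ r) = e
      rw [hr, PowerSeries.coeff_monomial, if_pos rfl]) (I.restrictScalars ℂ) b hb (by
    intro n _
    have := hM.hB.finite (d * n)
    infer_instance)
  have hq : ∀ n, finrank ℂ (Bl (d * n) ⧸ (F n ⊓ I.restrictScalars ℂ).map (c n)) =
      finrank ℂ (Bl (d * n)) - finrank ℂ (lead Φ I n) := by
    intro n
    have := hM.hB.finite (d * n)
    have h1 := Submodule.finrank_quotient_add_finrank ((F n ⊓ I.restrictScalars ℂ).map (c n))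
    have h2 : finrank ℂ ((F n ⊓ I.restrictScalars ℂ).map (c n)) = finrank ℂ (lead Φ I n) := by
      have h3 : lead Φ I n = ((F n ⊓ I.restrictScalars ℂ).map (c n)).map
          (Bl (d * n)).subtype := by
        rw [← Submodule.map_comp]
        rfl
      rw [h3]
      exact (LinearEquiv.finrank_eq (Submodule.equivMapOfInjective (Bl (d * n)).subtype
        (Submodule.injective_subtype _) _))
    omega
  obtain ⟨h1, h2⟩ := h
  refine ⟨h1, ?_⟩
  rw [show finrank ℂ (R ⧸ I) = finrank ℂ (R ⧸ I.restrictScalars ℂ) from rfl, h2]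
  exact Finset.sum_congr rfl fun n _ => hq n

/-- `ℂ`-linear coefficient map on power series over `R`. -/
noncomputable def cT (n : ℕ) : PowerSeries R →ₗ[ℂ] R where
  toFun a := PowerSeries.coeff n a
  map_add' := by intro a b; rw [map_add]
  map_smul' := by
    intro c a
    rw [RingHom.id_apply]
    rw [← algebraMap_smul (A := R) c a, map_smul, algebraMap_smul]

theorem colength_A (I : Ideal (PowerSeries R)) (c : ℕ)
    (hc : (PowerSeries.X : PowerSeries R) ^ c ∈ I)
    (hfin : ∀ k < c, Module.Finite ℂ (R ⧸ tlead I k)) :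
    Module.Finite ℂ (PowerSeries R ⧸ I) ∧ finrank ℂ (PowerSeries R ⧸ I) =
      ∑ k ∈ Finset.range c, finrank ℂ (R ⧸ tlead I k) := by
  let F : ℕ → Submodule ℂ (PowerSeries R) := fun k =>
    { carrier := {a | ∀ i < k, PowerSeries.coeff i a = 0}
      add_mem' := by
        intro a b ha hb i hi
        rw [map_add, ha i hi, hb i hi, add_zero]
      zero_mem' := by
        intro i _
        rw [map_zero]
      smul_mem' := by
        intro z a ha i hi
        have : PowerSeries.coeff i (z • a) = z • PowerSeries.coeff i a := (cT i).map_smul z a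
        rw [this, ha i hi, smul_zero] }
  have hmap : ∀ k, (F k ⊓ I.restrictScalars ℂ).map (cT k) = (tlead I k).restrictScalars ℂ := by
    intro k
    ext r
    rw [Submodule.mem_map, Submodule.restrictScalars_mem, mem_tlead]
    constructor
    · rintro ⟨a, ha, rfl⟩
      exact ⟨a, ha.2, ha.1, rfl⟩
    · rintro ⟨a, ha1, ha2, rfl⟩
      exact ⟨a, ⟨ha2, ha1⟩, rfl⟩
  have h := fil_main (E := fun _ => R) cT F (by
    ext a
    simp only [Submodule.mem_top, iff_true]
    intro i hi
    omega) (by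
    intro n
    ext a
    constructor
    · intro h
      exact ⟨fun i hi => h i (by omega), h n (by omega)⟩
    · rintro ⟨h1, h2⟩ i hi
      rcases Nat.lt_succ_iff_lt_or_eq.mp hi with h3 | h3
      · exact h1 i h3
      · rw [h3]
        exact h2) (by
    intro n e
    refine ⟨PowerSeries.monomial n e, ?_, ?_⟩
    · intro i hi
      rw [PowerSeries.coeff_monomial, if_neg (by omega)]
    · change PowerSeries.coeff n (PowerSeries.monomial n e) = e
      rw [PowerSeries.coeff_monomial, if_pos rfl]) (I.restrictScalars ℂ) c (by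
    intro a ha
    have h1 : (PowerSeries.X : PowerSeries R) ^ c ∣ a := PowerSeries.X_pow_dvd_iff.mpr ha
    obtain ⟨b, rfl⟩ := h1
    exact I.mul_mem_right _ hc) (by
    intro k hk
    rw [hmap k]
    exact hfin k hk)
  obtain ⟨h1, h2⟩ := h
  refine ⟨h1, ?_⟩
  rw [show finrank ℂ (PowerSeries R ⧸ I) = finrank ℂ (PowerSeries R ⧸ I.restrictScalars ℂ) from rfl,
    h2]
  apply Finset.sum_congr rfl
  intro k _
  rw [hmap k]
  rfl

end Pool.Agent.Helper69_Lech
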