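import Mathlib
import Pool.Agent.Helper69_Lech.Model

set_option linter.unusedSectionVars false
set_option linter.unusedVariables false

namespace Pool.Agent.Helper69_Lech

open Module Submodule PowerSeries

variable {B : Type*} [CommRing B] [IsDedekindDomain B] [Algebra ℂ B]
  {Bl : ℕ → Submodule ℂ B} {d : ℕ} {R : Type*} [CommRing R] [Algebra ℂ R]
  {Φ : R →ₐ[ℂ] PowerSeries B}

theorem card_SS (hB : PoleData B Bl) (hd1 : 1 ≤ d) (n : ℕ) :
    (SS d n).card = finrank ℂ (Bl (d * n)) := by
  unfold SS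
  rcases Nat.eq_zero_or_pos n with h0 | hpos
  · subst h0
    rw [mul_zero, hB.Bl_zero, finrank_span_singleton one_ne_zero]
    rfl
  · have h1 : 1 ≤ d * n := Nat.mul_pos hd1 hpos
    rw [hB.rank _ h1, Finset.card_erase_of_mem (by rw [Finset.mem_range]; omega),
      Finset.card_range]
    omega

theorem card_layer (hd1 : 1 ≤ d) (n w : ℕ) (hw : w ≤ (SS d n).card) :
    ((SS d n).filter fun μ => w < max μ 1).card = (SS d n).card - w := by
  rcases Nat.eq_zero_or_pos w with h0 | hpos
  · subst h0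
    rw [Finset.filter_true_of_mem]
    · omega
    · intro μ _
      omega
  · have hsplit : (SS d n).filter (fun μ => w < max μ 1) = Finset.Ioc w (d * n) := by
      ext μ
      rw [Finset.mem_filter, mem_SS, Finset.mem_Ioc]
      constructor
      · rintro ⟨⟨h1, h2⟩, h3⟩
        omega
      · rintro ⟨h1, h2⟩
        omega
    rw [hsplit, Nat.card_Ioc]
    unfold SS at hw ⊢
    rcases Nat.eq_zero_or_pos n with hn0 | hnpos
    · subst hn0
      rw [mul_zero] at hw ⊢
      have h1 : ((Finset.range (0 + 1)).erase 1).card = 1 := rfl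
      rw [h1] at hw ⊢
      omega
    · have h1 : 1 ≤ d * n := Nat.mul_pos hd1 hnpos
      rw [Finset.card_erase_of_mem (by rw [Finset.mem_range]; omega), Finset.card_range]
      omega

/-- layer cake formula -/
theorem layer_cake (hd1 : 1 ≤ d) (n K : ℕ) (w : ℕ → ℕ) (hw : ∀ k, w k ≤ (SS d n).card) :
    ∑ k ∈ Finset.range K, ((SS d n).card - w k) =
      ∑ μ ∈ SS d n, ((Finset.range K).filter fun k => w k < max μ 1).card := by
  have h1 : ∀ k ∈ Finset.range K, (SS d n).card - w k =
      ((SS d n).filter fun μ => w k < max μ 1).card := fun k _ =>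
    (card_layer hd1 n (w k) (hw k)).symm
  rw [Finset.sum_congr rfl h1]
  exact Finset.sum_card_bipartiteAbove_eq_sum_card_bipartiteBelow (fun k μ => w k < max μ 1)

/-! ### powers of the order filtration -/

theorem exists_top_elt (hB : PoleData B Bl) {m : ℕ} (hm : 2 ≤ m) : ∃ s ∈ Bl m, s ≠ 0 ∧ dl s = m := by
  have h1 : ¬ Bl m ≤ Bl (m - 1) := by
    intro h
    have := hB.finite (m - 1)
    have h2 := Submodule.finrank_mono h
    rw [hB.rank m (by omega), hB.rank (m - 1) (by omega)] at h2
    omega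
  rw [SetLike.not_le_iff_exists] at h1
  obtain ⟨s, hs, hs1⟩ := h1
  rw [hB.mem_iff] at hs1
  push Not at hs1
  have h2 := ((hB.mem_iff _ _).mp hs).resolve_left hs1.1
  exact ⟨s, hs, hs1.1, by omega⟩

theorem Bl_add_le (hB : PoleData B Bl) {m k : ℕ} (hm : 2 ≤ m) (hk : m + 1 ≤ k) :
    Bl (k + m) ≤ Bl k * Bl m := by
  obtain ⟨s, hs, hs0, hds⟩ := exists_top_elt hB hm
  have hnu : nu (⊤ : Ideal B) = 0 := by
    rw [nu]
    exact Module.finrank_zero_of_subsingleton
  have h := mul_complete hB (I := ⊤) top_ne_bot (M := k) (V := Bl m) hs hs0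
    (by rw [hds]) (by omega)
  have hspan : Ideal.span ((Bl m : Submodule ℂ B) : Set B) = ⊤ := by
    rw [Ideal.eq_top_iff_one]
    exact Ideal.subset_span (hB.one_mem m)
  have hcut : ∀ M, cut Bl (⊤ : Ideal B) M = Bl M := by
    intro M
    ext x
    rw [mem_cut]
    simp
  rw [hspan, Ideal.top_mul, hcut, hcut, hds] at h
  exact h

theorem mem_mul_span_finset (N : Submodule ℂ B) (S : Finset B) {b : B}
    (hb : b ∈ N * Submodule.span ℂ (S : Set B)) :
    ∃ x : B → B, (∀ e, x e ∈ N) ∧ b = ∑ e ∈ S, x e * e := by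
  classical
  induction hb using Submodule.mul_induction_on' with
  | mem_mul_mem u hu v hv =>
    induction hv using Submodule.span_induction with
    | mem v hv =>
      refine ⟨fun e => if e = v then u else 0, ?_, ?_⟩
      · intro e
        simp only
        split_ifs
        · exact hu
        · exact N.zero_mem
      · have hv' : v ∈ S := hv
        rw [Finset.sum_eq_single v]
        · simp
        · intro e _ hne
          simp [hne]
        · intro h
          exact absurd hv' h
    | zero => exact ⟨fun _ => 0, fun _ => N.zero_mem, by simp⟩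
    | add v w _ _ hv hw =>
      obtain ⟨x, hx, hx'⟩ := hv
      obtain ⟨y, hy, hy'⟩ := hw
      refine ⟨fun e => x e + y e, fun e => N.add_mem (hx e) (hy e), ?_⟩
      rw [mul_add, hx', hy', ← Finset.sum_add_distrib]
      exact Finset.sum_congr rfl fun e _ => (add_mul _ _ _).symm
    | smul c v _ hv =>
      obtain ⟨x, hx, hx'⟩ := hv
      refine ⟨fun e => c • x e, fun e => N.smul_mem c (hx e), ?_⟩
      rw [mul_smul_comm, hx', Finset.smul_sum]
      exact Finset.sum_congr rfl fun e _ => (smul_mul_assoc _ _ _).symm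
  | add b₁ _ b₂ _ h1 h2 =>
    obtain ⟨x, hx, hx'⟩ := h1
    obtain ⟨y, hy, hy'⟩ := h2
    refine ⟨fun e => x e + y e, fun e => N.add_mem (hx e) (hy e), ?_⟩
    rw [hx', hy', ← Finset.sum_add_distrib]
    exact Finset.sum_congr rfl fun e _ => (add_mul _ _ _).symm

/-- An element of large order is a combination of monomials of order `a`. -/
theorem FR_decomp (hM : Model B Bl d R Φ) {a m : ℕ} (ha : 2 ≤ d * a) (hm : a + 1 ≤ m)
    (hd1 : 1 ≤ d) (S : Finset B) (hS : Submodule.span ℂ (S : Set B) = Bl (d * a))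
    (E : B → R) (hE : ∀ e ∈ S, Φ (E e) = PowerSeries.monomial a e) {r : R} (hr : r ∈ FR Φ (a + m)) :
    ∃ y : B → R, (∀ e, y e ∈ FR Φ m) ∧ r = ∑ e ∈ S, E e * y e := by
  have h1 : ∀ k, m ≤ k → ∃ x : B → B, (∀ e, x e ∈ Bl (d * k)) ∧
      PowerSeries.coeff (a + k) (Φ r) = ∑ e ∈ S, x e * e := by
    intro k hk
    apply mem_mul_span_finset
    rw [hS]
    have h2 : d * a + 1 ≤ d * k := by
      have : d * (a + 1) ≤ d * k := Nat.mul_le_mul_left _ (by omega)
      rw [mul_add] at this
      omega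
    apply Bl_add_le hM.hB ha h2
    rw [← mul_add, add_comm k a]
    exact hM.coeff_mem r _
  choose! x hx hx' using h1
  have h2 : ∀ e, ∃ y : R, Φ y = PowerSeries.mk fun k => if m ≤ k then x k e else 0 := by
    intro e
    apply hM.surj
    intro k
    rw [PowerSeries.coeff_mk]
    split_ifs with h
    · exact hx k h e
    · exact Submodule.zero_mem _
  choose y hy using h2
  refine ⟨y, ?_, ?_⟩
  · intro e i hi
    rw [hy, PowerSeries.coeff_mk, if_neg (by omega)]
  · apply hM.inj
    rw [map_sum]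
    ext k
    rw [map_sum]
    have h3 : ∀ e ∈ S, PowerSeries.coeff k (Φ (E e * y e)) =
        if a ≤ k then (if m ≤ k - a then e * x (k - a) e else 0) else 0 := by
      intro e he
      rw [map_mul, hE e he, hy]
      rw [PowerSeries.monomial_eq_C_mul_X_pow, mul_assoc, PowerSeries.coeff_C_mul,
        PowerSeries.coeff_X_pow_mul']
      split_ifs with h4 h5
      · rw [PowerSeries.coeff_mk, if_pos h5]
      · rw [PowerSeries.coeff_mk, if_neg h5, mul_zero]
      · rw [mul_zero]
    rw [Finset.sum_congr rfl h3]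
    by_cases h4 : a ≤ k
    · simp only [if_pos h4]
      by_cases h5 : m ≤ k - a
      · simp only [if_pos h5]
        have h6 := hx' (k - a) h5
        rw [show a + (k - a) = k by omega] at h6
        rw [h6]
        exact Finset.sum_congr rfl fun e _ => mul_comm _ _
      · simp only [if_neg h5, Finset.sum_const_zero]
        exact hr k (by omega)
    · simp only [if_neg h4, Finset.sum_const_zero]
      exact hr k (by omega)

theorem exists_span_data (hM : Model B Bl d R Φ) (a : ℕ) :
    ∃ (S : Finset B) (E : B → R), Submodule.span ℂ (S : Set B) = Bl (d * a) ∧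
      ∀ e ∈ S, Φ (E e) = PowerSeries.monomial a e := by
  have hfin := hM.hB.finite (d * a)
  have hfg : (Bl (d * a)).FG := Module.Finite.iff_fg.mp hfin
  obtain ⟨S, hS⟩ := hfg
  have h1 : ∀ e ∈ S, ∃ r : R, Φ r = PowerSeries.monomial a e := by
    intro e he
    apply exists_monomial hM
    rw [← hS]
    exact Submodule.subset_span he
  choose! E hE using h1
  exact ⟨S, E, hS, hE⟩

theorem FR_add_le (hM : Model B Bl d R Φ) {a m : ℕ} (ha : 2 ≤ d * a) (hm : a + 1 ≤ m)
    (hd1 : 1 ≤ d) : FR Φ (a + m) ≤ FR Φ a * FR Φ m := by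
  intro r hr
  obtain ⟨S, E, hS, hE⟩ := exists_span_data hM a
  obtain ⟨y, hy, rfl⟩ := FR_decomp hM ha hm hd1 S hS E hE hr
  apply Ideal.sum_mem
  intro e he
  apply Ideal.mul_mem_mul _ (hy e)
  intro i hi
  rw [hE e he, PowerSeries.coeff_monomial, if_neg (by omega)]

theorem FR_pow (hM : Model B Bl d R Φ) {a : ℕ} (ha : 2 ≤ d * a) (hd1 : 1 ≤ d) (N : ℕ) :
    FR Φ (a * N + (a + 1)) ≤ FR Φ a ^ N := by
  induction N with
  | zero =>
    rw [pow_zero, Ideal.one_eq_top]
    exact le_top
  | succ N ih =>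
    have h1 : a * (N + 1) + (a + 1) = a + (a * N + (a + 1)) := by ring
    rw [h1, pow_succ']
    exact (FR_add_le hM ha (by omega) hd1).trans (Ideal.mul_mono le_rfl ih)

theorem tlead_pow (I : Ideal (PowerSeries R)) (N : ℕ) : tlead I 0 ^ N ≤ tlead (I ^ N) 0 := by
  induction N with
  | zero =>
    rw [pow_zero, pow_zero]
    have : tlead (1 : Ideal (PowerSeries R)) 0 = ⊤ := by
      apply tlead_eq_top (c := 0) _ le_rfl
      rw [Ideal.one_eq_top]
      exact Submodule.mem_top
    rw [this]
    exact le_top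
  | succ N ih =>
    rw [pow_succ, pow_succ]
    exact (Ideal.mul_mono ih le_rfl).trans (tlead_mul _ _ 0 0)

/-! ### The cost function -/

/-- cost function of an ideal: first `T`-order at which the leading space in degree `n` has
dimension at least `max μ 1` (truncated at `K`) -/
noncomputable def cost (Φ : R →ₐ[ℂ] PowerSeries B) (d : ℕ) (I : Ideal (PowerSeries R)) (K n μ : ℕ) : ℕ :=
  if μ ∈ SS d n then
    ((Finset.range K).filter fun k => finrank ℂ (VV Φ I k n) < max μ 1).card else 0

theorem cost_le (I : Ideal (PowerSeries R)) (K n μ : ℕ) : cost Φ d I K n μ ≤ K := by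
  unfold cost
  split_ifs
  · exact (Finset.card_filter_le _ _).trans (by rw [Finset.card_range])
  · exact Nat.zero_le _

theorem finrank_VV_mono (hM : Model B Bl d R Φ) (I : Ideal (PowerSeries R)) {k l : ℕ} (h : k ≤ l)
    (n : ℕ) : finrank ℂ (VV Φ I k n) ≤ finrank ℂ (VV Φ I l n) := by
  have : Module.Finite ℂ (VV Φ I l n) := lead_finite hM (tlead I l) n
  exact Submodule.finrank_mono (VV_mono h n)

theorem cost_le_of (hM : Model B Bl d R Φ) {I : Ideal (PowerSeries R)} {K n μ κ : ℕ}
    (h : max μ 1 ≤ finrank ℂ (VV Φ I κ n)) : cost Φ d I K n μ ≤ κ := by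
  unfold cost
  split_ifs
  · have hsub : ((Finset.range K).filter fun k => finrank ℂ (VV Φ I k n) < max μ 1) ⊆
        Finset.range κ := by
      intro k hk
      rw [Finset.mem_filter] at hk
      rw [Finset.mem_range]
      by_contra hcon
      push Not at hcon
      have := finrank_VV_mono hM I hcon n
      omega
    exact (Finset.card_le_card hsub).trans (by rw [Finset.card_range])
  · exact Nat.zero_le _

theorem le_finrank_of_cost (hM : Model B Bl d R Φ) (hd1 : 1 ≤ d) {I : Ideal (PowerSeries R)}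
    {K n μ : ℕ} (hK : (PowerSeries.X : PowerSeries R) ^ K ∈ I) (hμ : μ ∈ SS d n) :
    max μ 1 ≤ finrank ℂ (VV Φ I (cost Φ d I K n μ) n) := by
  by_contra hcon
  push Not at hcon
  have hcK := cost_le (Φ := Φ) (d := d) I K n μ
  -- at level `K` everything is there
  have hfull : finrank ℂ (VV Φ I K n) = finrank ℂ (Bl (d * n)) := by
    unfold VV
    rw [tlead_eq_top hK le_rfl, lead_top hM]
  have hmax : max μ 1 ≤ finrank ℂ (Bl (d * n)) := by
    rw [← card_SS hM.hB hd1]
    rw [mem_SS] at hμ
    unfold SS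
    rcases Nat.eq_zero_or_pos n with h0 | hpos
    · subst h0
      rw [mul_zero] at hμ ⊢
      have h1 : ((Finset.range (0 + 1)).erase 1).card = 1 := rfl
      rw [h1]
      omega
    · have h1 : 1 ≤ d * n := Nat.mul_pos hd1 hpos
      rw [Finset.card_erase_of_mem (by rw [Finset.mem_range]; omega), Finset.card_range]
      omega
  have hne : cost Φ d I K n μ ≠ K := by
    intro h
    rw [h, hfull] at hcon
    omega
  have hlt : cost Φ d I K n μ < K := by omega
  have hsub : Finset.range (cost Φ d I K n μ + 1) ⊆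
      ((Finset.range K).filter fun k => finrank ℂ (VV Φ I k n) < max μ 1) := by
    intro k hk
    rw [Finset.mem_range] at hk
    rw [Finset.mem_filter, Finset.mem_range]
    refine ⟨by omega, ?_⟩
    have := finrank_VV_mono hM I (show k ≤ cost Φ d I K n μ by omega) n
    omega
  have hcard := Finset.card_le_card hsub
  rw [Finset.card_range] at hcard
  have hcost : cost Φ d I K n μ =
      ((Finset.range K).filter fun k => finrank ℂ (VV Φ I k n) < max μ 1).card := by
    conv_lhs => unfold cost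
    rw [if_pos hμ]
  omega

/-- colength as the total cost -/
theorem colength_eq_cost (hM : Model B Bl d R Φ) (hd1 : 1 ≤ d) {I : Ideal (PowerSeries R)}
    {K b : ℕ} (hK : (PowerSeries.X : PowerSeries R) ^ K ∈ I) (hb : FR Φ b ≤ tlead I 0) :
    Module.Finite ℂ (PowerSeries R ⧸ I) ∧
    finrank ℂ (PowerSeries R ⧸ I) = ∑ n ∈ Finset.range b, ∑ μ ∈ SS d n, cost Φ d I K n μ := by
  have h1 : ∀ k, FR Φ b ≤ tlead I k := fun k => hb.trans (tlead_mono (Nat.zero_le k))
  obtain ⟨hfin, hrank⟩ := colength_A I K hK (fun k _ => (colength_R hM (tlead I k) b (h1 k)).1)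
  refine ⟨hfin, ?_⟩
  rw [hrank]
  have h2 : ∀ k ∈ Finset.range K, finrank ℂ (R ⧸ tlead I k) =
      ∑ n ∈ Finset.range b, ((SS d n).card - finrank ℂ (VV Φ I k n)) := by
    intro k _
    rw [(colength_R hM (tlead I k) b (h1 k)).2]
    apply Finset.sum_congr rfl
    intro n _
    rw [card_SS hM.hB hd1]
    rfl
  rw [Finset.sum_congr rfl h2, Finset.sum_comm]
  apply Finset.sum_congr rfl
  intro n _
  rw [layer_cake hd1 n K (fun k => finrank ℂ (VV Φ I k n)) (by
    intro k
    rw [card_SS hM.hB hd1]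
    have := hM.hB.finite (d * n)
    exact Submodule.finrank_mono (lead_le hM _ _))]
  apply Finset.sum_congr rfl
  intro μ hμ
  unfold cost
  rw [if_pos hμ]

/-- achievable targets bound the cost of the power -/
theorem cost_pow_le (hM : Model B Bl d R Φ) (hd1 : 1 ≤ d) {I : Ideal (PowerSeries R)}
    {c a₀ : ℕ} (hc : (PowerSeries.X : PowerSeries R) ^ c ∈ I) {N n' m κ : ℕ}
    (h : Ach d a₀ (cost Φ d I c) N n' m κ) :
    cost Φ d (I ^ N) (c * N) ((a₀ + 1) + n') (d * (a₀ + 1) + m) ≤ κ := by
  obtain ⟨l, hlen, hl, hn, hm, hcost⟩ := h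
  set L1 := (l.map Prod.fst).sum with hL1
  set L2 := (l.map Prod.snd).sum with hL2
  -- the list of spaces
  let pts : List (ℕ × ℕ) := l.map fun x => (cost Φ d I c x.1 x.2, x.1)
  let Vs : List (Submodule ℂ B) := pts.map fun x => VV Φ I x.1 x.2
  have hpts1 : (pts.map Prod.fst).sum = (l.map fun x => cost Φ d I c x.1 x.2).sum := by
    simp only [pts, List.map_map]
    rfl
  have hpts2 : (pts.map Prod.snd).sum = L1 := by
    simp only [pts, List.map_map, hL1]
    rfl
  have hptslen : pts.length = N := by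
    simp only [pts, List.length_map, hlen]
  have hprod := VV_list_prod hM I pts
  rw [hpts1, hpts2, hptslen] at hprod
  set M₀ := d * (a₀ + 1 + (n' - L1)) with hM₀
  have hM₀' : d * a₀ + 1 ≤ M₀ := by
    rw [hM₀, mul_add, mul_add, mul_one]
    omega
  have hU : Bl M₀ * Vs.prod ≤ VV Φ (I ^ N) κ (a₀ + 1 + n') := by
    refine (mul_le_mul' le_rfl hprod).trans ?_
    refine (Bl_mul_VV hM _ _ _ _).trans ?_
    have h1 : a₀ + 1 + (n' - L1) + L1 = a₀ + 1 + n' := by omega
    rw [h1]
    exact VV_mono hcost _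
  have hfinU : Module.Finite ℂ (VV Φ (I ^ N) κ (a₀ + 1 + n')) := lead_finite hM _ _
  have hkey := key_lemma hM.hB (D := d * a₀) (M₀ := M₀) hM₀' Vs (by
    intro V hV
    simp only [Vs, pts, List.map_map, List.mem_map, Function.comp_apply] at hV
    obtain ⟨x, hx, rfl⟩ := hV
    obtain ⟨hx1, hx2⟩ := hl x hx
    have h1 := le_finrank_of_cost hM hd1 hc hx2
    constructor
    · intro h0
      rw [h0, finrank_bot] at h1
      omega
    · exact (lead_le hM _ _).trans (hM.hB.mono (Nat.mul_le_mul_left _ hx1))) _ hU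
  have hcontrib : L2 ≤ (Vs.map contrib).sum := by
    rw [hL2]
    simp only [Vs, pts, List.map_map]
    apply List.sum_le_sum
    intro x hx
    obtain ⟨hx1, hx2⟩ := hl x hx
    have h1 := le_finrank_of_cost hM hd1 hc hx2
    rw [mem_SS] at hx2
    simp only [Function.comp_apply]
    unfold contrib
    split_ifs with h2
    · omega
    · push Not at h2
      omega
  apply cost_le_of hM
  have h2 : d * (a₀ + 1) + m ≤ M₀ + L2 := by
    have h3 : d * (n' - L1) + d * L1 = d * n' := by
      rw [← mul_add]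
      congr 1
      omega
    rw [hM₀, mul_add d (a₀ + 1)]
    omega
  have h4 : 1 ≤ d * (a₀ + 1) := Nat.mul_pos hd1 (Nat.succ_pos _)
  omega

/-- **Main inequality** in the model. -/
theorem model_main (hM : Model B Bl d R Φ) (hd1 : 1 ≤ d) (hd : d ≤ 6) {I : Ideal (PowerSeries R)}
    {c a₀ : ℕ} (hc : (PowerSeries.X : PowerSeries R) ^ c ∈ I) (ha : 2 ≤ a₀)
    (hI : FR Φ a₀ ≤ tlead I 0) :
    Module.Finite ℂ (PowerSeries R ⧸ I) ∧
    ∃ C : ℝ, ∀ N : ℕ, 1 ≤ N → Module.Finite ℂ (PowerSeries R ⧸ I ^ N) ∧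
      (finrank ℂ (PowerSeries R ⧸ I ^ N) : ℝ) ≤
        (N : ℝ) ^ 3 * finrank ℂ (PowerSeries R ⧸ I) + C * (N : ℝ) ^ 2 := by
  obtain ⟨hfinI, hrankI⟩ := colength_eq_cost hM hd1 hc hI
  refine ⟨hfinI, ?_⟩
  have hda : 2 ≤ d * a₀ := by nlinarith
  -- properties of the cost function
  have hgc : ∀ n μ, cost Φ d I c n μ ≤ c := fun n μ => cost_le I c n μ
  have hg0 : ∀ n μ, a₀ ≤ n → cost Φ d I c n μ = 0 := by
    intro n μ hn
    by_cases hμ : μ ∈ SS d n
    · apply Nat.le_zero.mp
      apply cost_le_of hM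
      have h1 : VV Φ I 0 n = Bl (d * n) := by
        apply le_antisymm (lead_le hM _ _)
        intro b hb
        obtain ⟨r, hr⟩ := exists_monomial hM hb
        rw [mem_lead]
        have hrn : r ∈ FR Φ n := by
          intro i hi
          rw [hr, PowerSeries.coeff_monomial, if_neg (by omega)]
        refine ⟨r, hI (FR_anti hn hrn), hrn, ?_⟩
        rw [hr, PowerSeries.coeff_monomial, if_pos rfl]
      rw [h1, ← card_SS hM.hB hd1]
      rw [mem_SS] at hμ
      have h2 : 1 ≤ d * n := by nlinarith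
      unfold SS
      rw [Finset.card_erase_of_mem (by rw [Finset.mem_range]; omega), Finset.card_range]
      omega
    · unfold cost
      rw [if_neg hμ]
  have hLL : LL d a₀ (cost Φ d I c) = finrank ℂ (PowerSeries R ⧸ I) := hrankI.symm
  obtain ⟨C, hC⟩ := numeric_main (nst := a₀ + 1) hgc hd1 hd ha hg0 (by omega)
  refine ⟨C, fun N hN => ?_⟩
  -- the power
  have hcN : (PowerSeries.X : PowerSeries R) ^ (c * N) ∈ I ^ N := by
    rw [pow_mul]
    exact Ideal.pow_mem_pow hc N
  have hbN : FR Φ (a₀ * N + (a₀ + 1)) ≤ tlead (I ^ N) 0 :=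
    (FR_pow hM hda hd1 N).trans ((Ideal.pow_right_mono hI N).trans (tlead_pow I N))
  obtain ⟨hfinN, hrankN⟩ := colength_eq_cost hM hd1 hcN hbN
  refine ⟨hfinN, ?_⟩
  have hN' := hC N hN (cost Φ d (I ^ N) (c * N)) (fun n μ => cost_le _ _ _ _)
    (fun n' m κ h => cost_pow_le hM hd1 hc h)
  rw [hLL] at hN'
  refine le_trans ?_ hN'
  rw [hrankN]
  apply le_of_eq
  congr 1
  rw [show a₀ * N + (a₀ + 1) = a₀ + 1 + a₀ * N by ring]

end Pool.Agent.Helper69_Lech
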