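import Mathlib
import Pool.Agent.Helper69_Lech.Main

set_option linter.unusedSectionVars false
set_option linter.unusedVariables false

namespace Pool.Agent.Helper69_Lech

open Module Submodule MvPolynomial

section Eval

variable {B : Type*} [CommRing B] [Algebra ℂ B] (w : Fin 3 → ℕ) (φ : Fin 3 → B)

/-- the substituted monomials -/
noncomputable def subA (i : Fin 3) : PowerSeries B := PowerSeries.monomial (w i) (φ i)

theorem subA_hasSubst (hw : ∀ i, w i ≠ 0) : MvPowerSeries.HasSubst (subA w φ) := by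
  apply MvPowerSeries.hasSubst_of_constantCoeff_zero
  intro i
  change PowerSeries.constantCoeff (subA w φ i) = 0
  rw [← PowerSeries.coeff_zero_eq_constantCoeff_apply, subA, PowerSeries.coeff_monomial,
    if_neg (hw i).symm]

theorem subA_pow (i : Fin 3) (e : ℕ) :
    subA w φ i ^ e = PowerSeries.monomial (e * w i) (φ i ^ e) := by
  rw [subA, PowerSeries.monomial_eq_C_mul_X_pow, PowerSeries.monomial_eq_C_mul_X_pow, mul_pow,
    ← pow_mul, map_pow, mul_comm (w i) e]

theorem weight_eq (α : Fin 3 →₀ ℕ) :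
    Finsupp.weight w α = α 0 * w 0 + α 1 * w 1 + α 2 * w 2 := by
  rw [Finsupp.weight_apply, Finsupp.sum_fintype _ _ (by simp), Fin.sum_univ_three]
  simp only [smul_eq_mul]

theorem prod_subA (α : Fin 3 →₀ ℕ) :
    (α.prod fun s e => subA w φ s ^ e) =
      PowerSeries.monomial (Finsupp.weight w α) (α.prod fun s e => φ s ^ e) := by
  rw [Finsupp.prod_fintype _ _ (by simp), Finsupp.prod_fintype _ _ (by simp),
    Fin.prod_univ_three, Fin.prod_univ_three, weight_eq, subA_pow, subA_pow, subA_pow]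
  simp only [PowerSeries.monomial_eq_C_mul_X_pow, map_mul, map_pow, pow_add]
  ring

/-- exponents of given weight -/
noncomputable def WT (hw : ∀ i, w i ≠ 0) (n : ℕ) : Finset (Fin 3 →₀ ℕ) :=
  Set.Finite.toFinset (Set.Finite.subset (Finsupp.finite_of_nat_weight_le w hw n)
    (show {α : Fin 3 →₀ ℕ | Finsupp.weight w α = n} ⊆ _ from fun _ h => le_of_eq h))

theorem mem_WT (hw : ∀ i, w i ≠ 0) {n : ℕ} {α : Fin 3 →₀ ℕ} :
    α ∈ WT w hw n ↔ Finsupp.weight w α = n := by
  rw [WT, Set.Finite.mem_toFinset]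
  rfl

/-- homogeneous component of a power series -/
noncomputable def comp (hw : ∀ i, w i ≠ 0) (n : ℕ) (g : MvPowerSeries (Fin 3) ℂ) :
    MvPolynomial (Fin 3) ℂ :=
  ∑ α ∈ WT w hw n, MvPolynomial.monomial α (MvPowerSeries.coeff α g)

theorem coeff_comp (hw : ∀ i, w i ≠ 0) (n : ℕ) (g : MvPowerSeries (Fin 3) ℂ) (α : Fin 3 →₀ ℕ) :
    MvPolynomial.coeff α (comp w hw n g) =
      if Finsupp.weight w α = n then MvPowerSeries.coeff α g else 0 := by
  classical
  rw [comp, MvPolynomial.coeff_sum]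
  simp only [MvPolynomial.coeff_monomial]
  rw [Finset.sum_ite_eq']
  simp only [mem_WT]

theorem comp_homog (hw : ∀ i, w i ≠ 0) (n : ℕ) (g : MvPowerSeries (Fin 3) ℂ) :
    IsWeightedHomogeneous w (comp w hw n g) n := by
  intro α hα
  rw [coeff_comp] at hα
  by_contra hne
  rw [if_neg hne] at hα
  exact hα rfl

/-- the evaluation map -/
noncomputable def PhiZero (hw : ∀ i, w i ≠ 0) : MvPowerSeries (Fin 3) ℂ →ₐ[ℂ] PowerSeries B :=
  MvPowerSeries.substAlgHom (subA_hasSubst w φ hw)

theorem coeff_PhiZero (hw : ∀ i, w i ≠ 0) (g : MvPowerSeries (Fin 3) ℂ) (n : ℕ) :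
    PowerSeries.coeff n (PhiZero w φ hw g) = MvPolynomial.aeval φ (comp w hw n g) := by
  classical
  have h1 : PowerSeries.coeff n (PhiZero w φ hw g) =
      MvPowerSeries.coeff (Finsupp.single () n) (MvPowerSeries.subst (subA w φ) g) := by
    rw [PhiZero, MvPowerSeries.substAlgHom_apply]
    rfl
  rw [h1, MvPowerSeries.coeff_subst (subA_hasSubst w φ hw)]
  have h2 : ∀ α : Fin 3 →₀ ℕ, MvPowerSeries.coeff (Finsupp.single () n)
      (α.prod fun s e => subA w φ s ^ e) =
      if n = Finsupp.weight w α then (α.prod fun s e => φ s ^ e) else 0 := by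
    intro α
    rw [prod_subA]
    exact PowerSeries.coeff_monomial _ _ _
  rw [finsum_eq_sum_of_support_subset (s := WT w hw n)]
  · rw [comp, map_sum]
    apply Finset.sum_congr rfl
    intro α hα
    rw [mem_WT] at hα
    rw [h2, if_pos hα.symm, MvPolynomial.aeval_monomial, Algebra.smul_def]
  · intro α hα
    rw [Function.mem_support] at hα
    rw [Finset.mem_coe, mem_WT]
    by_contra hne
    apply hα
    rw [h2, if_neg (fun h => hne h.symm), smul_zero]

/-- power series assembled from homogeneous polynomials -/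
noncomputable def assemble (p : ℕ → MvPolynomial (Fin 3) ℂ) : MvPowerSeries (Fin 3) ℂ :=
  fun α => MvPolynomial.coeff α (p (Finsupp.weight w α))

theorem comp_assemble (hw : ∀ i, w i ≠ 0) (p : ℕ → MvPolynomial (Fin 3) ℂ)
    (hp : ∀ n, IsWeightedHomogeneous w (p n) n) (n : ℕ) : comp w hw n (assemble w p) = p n := by
  ext α
  rw [coeff_comp]
  split_ifs with h
  · change MvPolynomial.coeff α (p (Finsupp.weight w α)) = _
    rw [h]
  · by_contra hne
    exact h (hp n (fun h0 => hne h0.symm))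

/-- a power series all of whose components are divisible by a homogeneous `f` is divisible -/
theorem dvd_of_comp (hw : ∀ i, w i ≠ 0) {f : MvPolynomial (Fin 3) ℂ} {D : ℕ}
    (hf : IsWeightedHomogeneous w f D) (g : MvPowerSeries (Fin 3) ℂ)
    (h : ∀ n, ∃ q : MvPolynomial (Fin 3) ℂ, (∀ α, MvPolynomial.coeff α q ≠ 0 →
      Finsupp.weight w α + D = n) ∧ comp w hw n g = f * q) :
    (f : MvPowerSeries (Fin 3) ℂ) ∣ g := by
  classical
  choose q hq1 hq2 using h
  let Q : MvPowerSeries (Fin 3) ℂ :=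
    fun α => MvPolynomial.coeff α (q (Finsupp.weight w α + D))
  have hQ : ∀ γ, MvPowerSeries.coeff γ Q =
    MvPolynomial.coeff γ (q (Finsupp.weight w γ + D)) := fun _ => rfl
  refine ⟨Q, ?_⟩
  ext α
  rw [MvPowerSeries.coeff_mul]
  have h1 : MvPowerSeries.coeff α g = MvPolynomial.coeff α (comp w hw (Finsupp.weight w α) g) := by
    rw [coeff_comp, if_pos rfl]
  rw [h1, hq2, MvPolynomial.coeff_mul]
  apply Finset.sum_congr rfl
  rintro ⟨β, γ⟩ hβγ
  rw [Finset.HasAntidiagonal.mem_antidiagonal] at hβγ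
  simp only at hβγ ⊢
  rw [MvPolynomial.coeff_coe, hQ]
  by_cases hβ : MvPolynomial.coeff β f = 0
  · rw [hβ, zero_mul, zero_mul]
  · have h2 := hf hβ
    have h3 : Finsupp.weight w α = Finsupp.weight w γ + D := by
      rw [← hβγ, map_add, h2, add_comm]
    rw [h3]

end Eval

/-- Data identifying `ℂ[[x,y,z]]/(f)` with a model ring. -/
structure FamData (B : Type*) [CommRing B] [Algebra ℂ B] (Bl : ℕ → Submodule ℂ B) (d : ℕ)
    (w : Fin 3 → ℕ) (φ : Fin 3 → B) (f : MvPolynomial (Fin 3) ℂ) (D : ℕ) : Prop where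
  hw : ∀ i, w i ≠ 0
  hφ : ∀ i, φ i ∈ Bl (d * w i)
  homog : IsWeightedHomogeneous w f D
  zero : MvPolynomial.aeval φ f = 0
  surj : ∀ n, ∀ b ∈ Bl (d * n), ∃ p : MvPolynomial (Fin 3) ℂ, IsWeightedHomogeneous w p n ∧
    MvPolynomial.aeval φ p = b
  ker : ∀ n, ∀ p : MvPolynomial (Fin 3) ℂ, IsWeightedHomogeneous w p n →
    MvPolynomial.aeval φ p = 0 → ∃ q : MvPolynomial (Fin 3) ℂ, (∀ α, MvPolynomial.coeff α q ≠ 0 →
      Finsupp.weight w α + D = n) ∧ p = f * q

section ModelOf

variable {B : Type*} [CommRing B] [IsDedekindDomain B] [Algebra ℂ B] {Bl : ℕ → Submodule ℂ B}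
  {d : ℕ} {w : Fin 3 → ℕ} {φ : Fin 3 → B} {f : MvPolynomial (Fin 3) ℂ} {D : ℕ}

theorem PhiZero_f (h : FamData B Bl d w φ f D) :
    PhiZero w φ h.hw (f : MvPowerSeries (Fin 3) ℂ) = 0 := by
  ext n
  rw [coeff_PhiZero, map_zero]
  have : comp w h.hw n (f : MvPowerSeries (Fin 3) ℂ) = if n = D then f else 0 := by
    ext α
    rw [coeff_comp, MvPolynomial.coeff_coe]
    split_ifs with h1 h2 h2
    · rfl
    · by_contra hne
      exact h2 (h1.symm.trans (h.homog hne))
    · by_contra hne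
      exact h1 ((h.homog (fun h0 => hne h0.symm)).trans h2.symm)
    · rfl
  rw [this]
  split_ifs
  · exact h.zero
  · exact map_zero _

/-- the induced map on the quotient -/
noncomputable def PhiQ (h : FamData B Bl d w φ f D) :
    (MvPowerSeries (Fin 3) ℂ ⧸ Ideal.span {(f : MvPowerSeries (Fin 3) ℂ)}) →ₐ[ℂ] PowerSeries B :=
  Ideal.Quotient.liftₐ _ (PhiZero w φ h.hw) (by
    intro a ha
    rw [Ideal.mem_span_singleton'] at ha
    obtain ⟨b, rfl⟩ := ha
    rw [map_mul, PhiZero_f h, mul_zero])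

theorem PhiQ_mk (h : FamData B Bl d w φ f D) (g : MvPowerSeries (Fin 3) ℂ) :
    PhiQ h (Ideal.Quotient.mk _ g) = PhiZero w φ h.hw g := rfl

theorem model_of_fam (hB : PoleData B Bl) (h : FamData B Bl d w φ f D) :
    Model B Bl d (MvPowerSeries (Fin 3) ℂ ⧸ Ideal.span {(f : MvPowerSeries (Fin 3) ℂ)})
      (PhiQ h) where
  hB := hB
  inj := by
    rw [injective_iff_map_eq_zero]
    intro r hr
    obtain ⟨g, rfl⟩ := Ideal.Quotient.mk_surjective r
    rw [PhiQ_mk] at hr
    rw [Ideal.Quotient.eq_zero_iff_mem, Ideal.mem_span_singleton]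
    apply dvd_of_comp w h.hw h.homog
    intro n
    apply h.ker n _ (comp_homog w h.hw n g)
    rw [← coeff_PhiZero, hr, map_zero]
  coeff_mem := by
    intro r n
    obtain ⟨g, rfl⟩ := Ideal.Quotient.mk_surjective r
    rw [PhiQ_mk, coeff_PhiZero, comp, map_sum]
    apply Submodule.sum_mem
    intro α hα
    rw [mem_WT] at hα
    rw [MvPolynomial.aeval_monomial, ← Algebra.smul_def]
    apply Submodule.smul_mem
    rw [Finsupp.prod_fintype _ _ (by simp), Fin.prod_univ_three]
    have hpow : ∀ (i : Fin 3) (e : ℕ), φ i ^ e ∈ Bl (d * (e * w i)) := by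
      intro i e
      induction e with
      | zero =>
        rw [pow_zero]
        exact hB.one_mem _
      | succ e ih =>
        rw [pow_succ]
        have := hB.mul_mem ih (h.hφ i)
        rw [← mul_add, ← add_one_mul] at this
        exact this
    have h1 := hB.mul_mem (hB.mul_mem (hpow 0 (α 0)) (hpow 1 (α 1))) (hpow 2 (α 2))
    rw [weight_eq] at hα
    rw [← mul_add, ← mul_add, hα] at h1
    exact h1
  surj := by
    intro F hF
    choose p hp1 hp2 using fun n => h.surj n _ (hF n)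
    refine ⟨Ideal.Quotient.mk _ (assemble w p), ?_⟩
    rw [PhiQ_mk]
    ext n
    rw [coeff_PhiZero, comp_assemble w h.hw p hp1, hp2]

end ModelOf

end Pool.Agent.Helper69_Lech
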