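import Mathlib
import Pool.Agent.Helper69_Lech.Family

set_option linter.unusedSectionVars false
set_option linter.unusedVariables false

namespace Pool.Agent.Helper69_Lech

open Module Submodule MvPolynomial

/-- concrete input for the construction of `FamData` -/
structure BuildData (B : Type*) [CommRing B] [Algebra ℂ B] (Bl : ℕ → Submodule ℂ B) (d : ℕ)
    (w : Fin 3 → ℕ) (φ : Fin 3 → B) (f : MvPolynomial (Fin 3) ℂ) (e wX wY : ℕ)
    (LT LX LY : MvPolynomial (Fin 3) ℂ) (XX YY : B) : Prop where
  hw : ∀ i, w i ≠ 0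
  hd : 1 ≤ d
  hφ : ∀ i, φ i ∈ Bl (d * w i)
  fshape : ∃ Rr : MvPolynomial (Fin 3) ℂ, f = MvPolynomial.monomial (Finsupp.single 0 e) 1 + Rr ∧
    ∀ γ, MvPolynomial.coeff γ Rr ≠ 0 → Finsupp.weight w γ = e * w 0 ∧ γ 0 < e
  zero : MvPolynomial.aeval φ f = 0
  hLT : IsWeightedHomogeneous w LT 1
  aLT : MvPolynomial.aeval φ LT = 1
  hLX : IsWeightedHomogeneous w LX wX
  aLX : MvPolynomial.aeval φ LX = XX
  hLY : IsWeightedHomogeneous w LY wY
  aLY : MvPolynomial.aeval φ LY = YY
  X0 : XX ≠ 0
  dX : dl XX = 2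
  Y0 : YY ≠ 0
  dY : dl YY = 3
  gen : ∀ n m, 2 ≤ m → m ≤ d * n → ∃ i j, 2 * i + 3 * j = m ∧ i * wX + j * wY ≤ n
  enc : ∃ g : (Fin 3 →₀ ℕ) → ℕ,
    (∀ n α, Finsupp.weight w α = n → α 0 < e → g α ∈ SS d n) ∧
    (∀ α β, Finsupp.weight w α = Finsupp.weight w β → α 0 < e → β 0 < e → g α = g β → α = β)

section

variable {B : Type*} [CommRing B] [IsDedekindDomain B] [Algebra ℂ B] {Bl : ℕ → Submodule ℂ B}
  {d : ℕ} {w : Fin 3 → ℕ} {φ : Fin 3 → B} {f : MvPolynomial (Fin 3) ℂ} {e wX wY : ℕ}
  {LT LX LY : MvPolynomial (Fin 3) ℂ} {XX YY : B}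

theorem build_dl_pow (hB : PoleData B Bl) {x : B} (hx : x ≠ 0) (i : ℕ) :
    dl (x ^ i) = i * dl x := by
  induction i with
  | zero =>
    rw [pow_zero, zero_mul, dl_eq_nu, Ideal.span_singleton_one, nu]
    exact Module.finrank_zero_of_subsingleton
  | succ i ih =>
    rw [pow_succ, dl_mul hB (pow_ne_zero i hx) hx, ih]
    ring

theorem build_gen (hB : PoleData B Bl) (h : BuildData B Bl d w φ f e wX wY LT LX LY XX YY)
    (n m : ℕ) (hm : m ≤ d * n) :
    Bl m ≤ (weightedHomogeneousSubmodule ℂ w n).map (MvPolynomial.aeval φ).toLinearMap := by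
  have hone : Submodule.span ℂ {(1 : B)} ≤
      (weightedHomogeneousSubmodule ℂ w n).map (MvPolynomial.aeval φ).toLinearMap := by
    rw [Submodule.span_singleton_le_iff_mem]
    refine ⟨LT ^ n, ?_, ?_⟩
    · have := h.hLT.pow n
      rw [smul_eq_mul, mul_one] at this
      exact this
    · rw [AlgHom.toLinearMap_apply, map_pow, h.aLT, one_pow]
  induction m with
  | zero =>
    rw [hB.Bl_zero]
    exact hone
  | succ m ih =>
    rcases Nat.eq_zero_or_pos m with h0 | hpos
    · subst h0
      rw [zero_add, hB.Bl_one]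
      exact hone
    · obtain ⟨i, j, hij, hijn⟩ := h.gen n (m + 1) (by omega) hm
      have hu0 : XX ^ i * YY ^ j ≠ 0 := mul_ne_zero (pow_ne_zero _ h.X0) (pow_ne_zero _ h.Y0)
      have hdl : dl (XX ^ i * YY ^ j) = m + 1 := by
        rw [dl_mul hB (pow_ne_zero _ h.X0) (pow_ne_zero _ h.Y0), build_dl_pow hB h.X0,
          build_dl_pow hB h.Y0, h.dX, h.dY, ← hij]
        ring
      have hmem : XX ^ i * YY ^ j ∈ Bl (m + 1) := by
        rw [hB.mem_iff]
        exact Or.inr hdl.le
      have hnot : XX ^ i * YY ^ j ∉ Bl m := by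
        rw [hB.mem_iff]
        rintro (h1 | h1)
        · exact hu0 h1
        · omega
      have hfin := hB.finite (m + 1)
      have hle : Bl m ⊔ Submodule.span ℂ {XX ^ i * YY ^ j} ≤ Bl (m + 1) := by
        apply sup_le (hB.mono (Nat.le_succ m))
        rw [Submodule.span_singleton_le_iff_mem]
        exact hmem
      have heq : Bl m ⊔ Submodule.span ℂ {XX ^ i * YY ^ j} = Bl (m + 1) := by
        apply Submodule.eq_of_le_of_finrank_le hle
        rw [hB.rank (m + 1) (by omega)]
        have hfin2 : Module.Finite ℂ ↥(Bl m ⊔ Submodule.span ℂ {XX ^ i * YY ^ j}) :=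
          Submodule.finiteDimensional_of_le hle
        have hlt : Bl m < Bl m ⊔ Submodule.span ℂ {XX ^ i * YY ^ j} := by
          refine lt_of_le_of_ne le_sup_left ?_
          intro h1
          apply hnot
          rw [h1]
          exact Submodule.mem_sup_right (Submodule.mem_span_singleton_self _)
        have h2 := Submodule.finrank_lt_finrank_of_lt hlt
        rw [hB.rank m hpos] at h2
        exact h2
      rw [← heq]
      apply sup_le (ih (by omega))
      rw [Submodule.span_singleton_le_iff_mem]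
      refine ⟨LT ^ (n - (i * wX + j * wY)) * (LX ^ i * LY ^ j), ?_, ?_⟩
      · have h1 := (h.hLT.pow (n - (i * wX + j * wY))).mul ((h.hLX.pow i).mul (h.hLY.pow j))
        have h2 : (n - (i * wX + j * wY)) • 1 + (i • wX + j • wY) = n := by
          simp only [smul_eq_mul, mul_one]
          omega
        rw [h2] at h1
        exact h1
      · rw [AlgHom.toLinearMap_apply, map_mul, map_mul, map_pow, map_pow, map_pow, h.aLT, h.aLX,
          h.aLY, one_pow, one_mul]

/-- standard monomials -/
noncomputable def Std (w : Fin 3 → ℕ) (hw : ∀ i, w i ≠ 0) (e n : ℕ) : Finset (Fin 3 →₀ ℕ) :=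
  (WT w hw n).filter fun α => α 0 < e

theorem mem_Std {hw : ∀ i, w i ≠ 0} {e n : ℕ} {α : Fin 3 →₀ ℕ} :
    α ∈ Std w hw e n ↔ Finsupp.weight w α = n ∧ α 0 < e := by
  rw [Std, Finset.mem_filter, mem_WT]

/-- the division property -/
def Divd (w : Fin 3 → ℕ) (f : MvPolynomial (Fin 3) ℂ) (D e n : ℕ) (p : MvPolynomial (Fin 3) ℂ) :
    Prop :=
  ∃ q r : MvPolynomial (Fin 3) ℂ, p = f * q + r ∧
    (∀ α, MvPolynomial.coeff α q ≠ 0 → Finsupp.weight w α + D = n) ∧
    (∀ α, MvPolynomial.coeff α r ≠ 0 → Finsupp.weight w α = n ∧ α 0 < e)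

theorem Divd.add {D n : ℕ} {p p' : MvPolynomial (Fin 3) ℂ} (h : Divd w f D e n p)
    (h' : Divd w f D e n p') : Divd w f D e n (p + p') := by
  obtain ⟨q, r, h1, h2, h3⟩ := h
  obtain ⟨q', r', h1', h2', h3'⟩ := h'
  refine ⟨q + q', r + r', ?_, ?_, ?_⟩
  · rw [h1, h1']
    ring
  · intro α hα
    rw [MvPolynomial.coeff_add] at hα
    by_cases hq : MvPolynomial.coeff α q = 0
    · rw [hq, zero_add] at hα
      exact h2' α hα
    · exact h2 α hq
  · intro α hα
    rw [MvPolynomial.coeff_add] at hα
    by_cases hq : MvPolynomial.coeff α r = 0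
    · rw [hq, zero_add] at hα
      exact h3' α hα
    · exact h3 α hq

theorem Divd.zero {D n : ℕ} : Divd w f D e n 0 :=
  ⟨0, 0, by ring, fun α hα => absurd (MvPolynomial.coeff_zero α) hα,
    fun α hα => absurd (MvPolynomial.coeff_zero α) hα⟩

theorem Divd.sum {D n : ℕ} {ι : Type*} (s : Finset ι) (p : ι → MvPolynomial (Fin 3) ℂ)
    (h : ∀ i ∈ s, Divd w f D e n (p i)) : Divd w f D e n (∑ i ∈ s, p i) := by
  classical
  induction s using Finset.induction_on with
  | empty =>
    rw [Finset.sum_empty]
    exact Divd.zero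
  | insert a s ha ih =>
    rw [Finset.sum_insert ha]
    exact (h a (Finset.mem_insert_self a s)).add
      (ih fun i hi => h i (Finset.mem_insert_of_mem hi))

theorem divd_monomial (h : BuildData B Bl d w φ f e wX wY LT LX LY XX YY) {n : ℕ} :
    ∀ k : ℕ, ∀ α : Fin 3 →₀ ℕ, α 0 < k → Finsupp.weight w α = n → ∀ c : ℂ,
      Divd w f (e * w 0) e n (MvPolynomial.monomial α c) := by
  classical
  intro k
  induction k with
  | zero =>
    intro α hα
    omega
  | succ k ih =>
    intro α hα hn c
    by_cases hlt : α 0 < e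
    · refine ⟨0, MvPolynomial.monomial α c, by ring,
        fun β hβ => absurd (MvPolynomial.coeff_zero β) hβ, fun β hβ => ?_⟩
      rw [MvPolynomial.coeff_monomial] at hβ
      split_ifs at hβ with h1
      · rw [← h1]
        exact ⟨hn, hlt⟩
      · exact absurd rfl hβ
    · obtain ⟨Rr, hf, hRr⟩ := h.fshape
      set β : Fin 3 →₀ ℕ := α - Finsupp.single 0 e with hβ
      have hαβ : α = Finsupp.single 0 e + β := by
        rw [hβ]
        ext i
        rw [Finsupp.add_apply, Finsupp.tsub_apply]
        by_cases hi : i = 0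
        · subst hi
          rw [Finsupp.single_eq_same]
          omega
        · rw [Finsupp.single_eq_of_ne hi]
          omega
      have hβ0 : β 0 + e = α 0 := by
        rw [hβ, Finsupp.tsub_apply, Finsupp.single_eq_same]
        omega
      have hwβ : Finsupp.weight w β + e * w 0 = n := by
        rw [← hn, hαβ, map_add, Finsupp.weight_single, smul_eq_mul]
        ring
      have h1 : MvPolynomial.monomial α c =
          f * MvPolynomial.monomial β c + Rr * MvPolynomial.monomial β (-c) := by
        rw [hf, add_mul, MvPolynomial.monomial_mul, one_mul, ← hαβ, add_assoc, ← mul_add,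
          ← map_add, add_neg_cancel, map_zero, mul_zero, add_zero]
      rw [h1]
      apply Divd.add
      · refine ⟨MvPolynomial.monomial β c, 0, by ring, fun γ hγ => ?_,
          fun γ hγ => absurd (MvPolynomial.coeff_zero γ) hγ⟩
        rw [MvPolynomial.coeff_monomial] at hγ
        split_ifs at hγ with h2
        · rw [← h2]
          exact hwβ
        · exact absurd rfl hγ
      · rw [Rr.as_sum, Finset.sum_mul]
        apply Divd.sum
        intro γ hγ
        rw [MvPolynomial.mem_support_iff] at hγ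
        obtain ⟨h2, h3⟩ := hRr γ hγ
        rw [MvPolynomial.monomial_mul]
        apply ih
        · rw [Finsupp.add_apply]
          omega
        · rw [map_add, h2, ← hwβ]
          ring

theorem divd_homog (h : BuildData B Bl d w φ f e wX wY LT LX LY XX YY) {n : ℕ}
    {p : MvPolynomial (Fin 3) ℂ} (hp : IsWeightedHomogeneous w p n) :
    Divd w f (e * w 0) e n p := by
  rw [p.as_sum]
  apply Divd.sum
  intro α hα
  rw [MvPolynomial.mem_support_iff] at hα
  exact divd_monomial h _ α (Nat.lt_succ_self _) (hp hα) _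

theorem build_fam (hB : PoleData B Bl) (h : BuildData B Bl d w φ f e wX wY LT LX LY XX YY) :
    FamData B Bl d w φ f (e * w 0) where
  hw := h.hw
  hφ := h.hφ
  homog := by
    intro α hα
    obtain ⟨Rr, hf, hRr⟩ := h.fshape
    rw [hf, MvPolynomial.coeff_add] at hα
    by_cases h1 : MvPolynomial.coeff α Rr = 0
    · rw [h1, add_zero, MvPolynomial.coeff_monomial] at hα
      split_ifs at hα with h2
      · rw [← h2, Finsupp.weight_single, smul_eq_mul]
      · exact absurd rfl hα
    · exact (hRr α h1).1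
  zero := h.zero
  surj := by
    intro n b hb
    obtain ⟨p, hp, hpb⟩ := build_gen hB h n (d * n) le_rfl hb
    exact ⟨p, hp, hpb⟩
  ker := by
    classical
    intro n p hp hp0
    obtain ⟨q, r, h1, h2, h3⟩ := divd_homog h hp
    refine ⟨q, h2, ?_⟩
    -- linear algebra
    set S : Set (Fin 3 →₀ ℕ) := {α | Finsupp.weight w α = n ∧ α 0 < e} with hS
    have hSfin : S = ((Std w h.hw e n : Finset (Fin 3 →₀ ℕ)) : Set (Fin 3 →₀ ℕ)) := by
      ext α
      rw [Finset.mem_coe, mem_Std]
      rfl
    have hr_mem : ∀ r : MvPolynomial (Fin 3) ℂ,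
        (∀ α, MvPolynomial.coeff α r ≠ 0 → Finsupp.weight w α = n ∧ α 0 < e) →
        r ∈ restrictSupport ℂ S := by
      intro r hr
      rw [mem_restrictSupport_iff]
      intro α hα
      rw [Finset.mem_coe, MvPolynomial.mem_support_iff] at hα
      exact hr α hα
    have hr_mem' : ∀ r ∈ restrictSupport ℂ S, ∀ α, MvPolynomial.coeff α r ≠ 0 →
        Finsupp.weight w α = n ∧ α 0 < e := by
      intro r hr α hα
      rw [mem_restrictSupport_iff] at hr
      exact hr (by rw [Finset.mem_coe, MvPolynomial.mem_support_iff]; exact hα)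
    have hmaps : ∀ r ∈ restrictSupport ℂ S, (MvPolynomial.aeval φ).toLinearMap r ∈ Bl (d * n) := by
      intro r hr
      rw [AlgHom.toLinearMap_apply, r.as_sum, map_sum]
      apply Submodule.sum_mem
      intro α hα
      rw [MvPolynomial.mem_support_iff] at hα
      have hw1 := (hr_mem' r hr α hα).1
      rw [MvPolynomial.aeval_monomial, ← Algebra.smul_def]
      apply Submodule.smul_mem
      rw [Finsupp.prod_fintype _ _ (by simp), Fin.prod_univ_three]
      have hpow : ∀ (i : Fin 3) (e : ℕ), φ i ^ e ∈ Bl (d * (e * w i)) := by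
        intro i e
        induction e with
        | zero =>
          rw [pow_zero]
          exact hB.one_mem _
        | succ e ih =>
          rw [pow_succ]
          have := hB.mul_mem ih (h.hφ i)
          rw [← mul_add, ← add_one_mul] at this
          exact this
      have h1 := hB.mul_mem (hB.mul_mem (hpow 0 (α 0)) (hpow 1 (α 1))) (hpow 2 (α 2))
      rw [weight_eq] at hw1
      rw [← mul_add, ← mul_add, hw1] at h1
      exact h1
    let Ψ : restrictSupport ℂ S →ₗ[ℂ] Bl (d * n) :=
      (MvPolynomial.aeval φ).toLinearMap.restrict hmaps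
    have hΨsurj : Function.Surjective Ψ := by
      rintro ⟨b, hb⟩
      obtain ⟨p', hp', hpb'⟩ := build_gen hB h n (d * n) le_rfl hb
      obtain ⟨q', r', h1', h2', h3'⟩ := divd_homog h (p := p') hp'
      refine ⟨⟨r', hr_mem r' h3'⟩, ?_⟩
      apply Subtype.ext
      change MvPolynomial.aeval φ r' = b
      rw [← hpb', h1']
      change _ = MvPolynomial.aeval φ (f * q' + r')
      rw [map_add, map_mul, h.zero, zero_mul, zero_add]
    have hbasis := basisRestrictSupport ℂ S
    have hFS : Finite S := by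
      rw [hSfin]
      exact (Finset.finite_toSet _).to_subtype
    have hfin1 : Module.Finite ℂ (restrictSupport ℂ S) := Module.Finite.of_basis hbasis
    have hcard : finrank ℂ (restrictSupport ℂ S) = (Std w h.hw e n).card := by
      rw [finrank_eq_nat_card_basis hbasis, hSfin, Nat.card_eq_fintype_card]
      simp
    have hfin2 := hB.finite (d * n)
    have hle : (Std w h.hw e n).card ≤ finrank ℂ (Bl (d * n)) := by
      rw [← card_SS hB h.hd]
      obtain ⟨g, hg1, hg2⟩ := h.enc
      apply Finset.card_le_card_of_injOn g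
      · intro α hα
        rw [Finset.mem_coe, mem_Std] at hα
        exact hg1 n α hα.1 hα.2
      · intro α hα β hβ hab
        rw [Finset.mem_coe, mem_Std] at hα hβ
        exact hg2 α β (hα.1.trans hβ.1.symm) hα.2 hβ.2 hab
    have hge := LinearMap.finrank_le_finrank_of_surjective hΨsurj
    have heq : finrank ℂ (restrictSupport ℂ S) = finrank ℂ (Bl (d * n)) := by omega
    have hinj : Function.Injective Ψ :=
      (LinearMap.injective_iff_surjective_of_finrank_eq_finrank heq).mpr hΨsurj
    have hr0 : (⟨r, hr_mem r h3⟩ : restrictSupport ℂ S) = 0 := by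
      apply hinj
      rw [map_zero]
      apply Subtype.ext
      change MvPolynomial.aeval φ r = 0
      rw [h1, map_add, map_mul, h.zero, zero_mul, zero_add] at hp0
      exact hp0
    have hr0' : r = 0 := congrArg Subtype.val hr0
    rw [h1, hr0', add_zero]

end

end Pool.Agent.Helper69_Lech
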