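import Mathlib

namespace Pool.Agent.Helper69_Lech

open scoped ENNReal
open Filter Topology

/-- The Krull dimension of a ring, as a natural number. -/
noncomputable def dimNat (A : Type*) [CommRing A] : ℕ := ((ringKrullDim A).unbotD 0).toNat

/-- The colength `ℓ(A/I)` of an ideal, as an element of `[0, ∞]`. -/
noncomputable def colength {A : Type*} [CommRing A] (I : Ideal A) : ℝ≥0∞ :=
  ((Module.length A (A ⧸ I) : ℕ∞) : ℝ≥0∞)

/-- The sequence `d! ℓ(A/Iⁿ) / nᵈ`, `d = dim A`, whose limit is the Hilbert-Samuel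
multiplicity `e(I)`. -/
noncomputable def samuelSeq {A : Type*} [CommRing A] (I : Ideal A) (n : ℕ) : ℝ≥0∞ :=
  ((dimNat A).factorial : ℝ≥0∞) * colength (I ^ n) / (n : ℝ≥0∞) ^ dimNat A

/-- The Hilbert-Samuel multiplicity `e(I) = lim d! ℓ(A/Iⁿ) / nᵈ` (written as a `limsup`). -/
noncomputable def mult {A : Type*} [CommRing A] (I : Ideal A) : ℝ≥0∞ :=
  limsup (samuelSeq I) atTop

/-- The Lech-Mumford constant
`lm(A) = sup { e(I) / (d! ℓ(A/I)) : √I = 𝔪 }` of a local ring of dimension `d`. -/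
noncomputable def lechMumford (A : Type*) [CommRing A] [IsLocalRing A] : ℝ≥0∞ :=
  ⨆ (I : Ideal A) (_ : I.radical = IsLocalRing.maximalIdeal A),
    mult I / (((dimNat A).factorial : ℝ≥0∞) * colength I)

end Pool.Agent.Helper69_Lech
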