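import Mathlib
import Pool.Agent.Helper69_Lech.Defs

set_option linter.unusedSectionVars false
set_option linter.unusedVariables false

namespace Pool.Agent.Helper69_Lech

open IsLocalRing

/-- the Krull dimension of a power series ring over a Noetherian local ring -/
theorem ringKrullDim_powerSeries (R : Type*) [CommRing R] [IsLocalRing R] [IsNoetherianRing R] :
    ringKrullDim (PowerSeries R) = ringKrullDim R + 1 := by
  have hreg : IsSMulRegular (PowerSeries R) (PowerSeries.X : PowerSeries R) := by
    intro a b hab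
    simp only [smul_eq_mul] at hab
    rw [mul_comm _ a, mul_comm _ b] at hab
    ext n
    have h := congrArg (PowerSeries.coeff (n + 1)) hab
    rwa [PowerSeries.coeff_succ_mul_X, PowerSeries.coeff_succ_mul_X] at h
  have hX : (PowerSeries.X : PowerSeries R) ∈ maximalIdeal (PowerSeries R) := by
    rw [mem_maximalIdeal, mem_nonunits_iff]
    intro hu
    have h := PowerSeries.isUnit_iff_constantCoeff.mp hu
    rw [PowerSeries.constantCoeff_X] at h
    exact not_isUnit_zero h
  have h1 := ringKrullDim_quotient_span_singleton_succ_eq_ringKrullDim hreg hX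
  rw [← h1]
  congr 1
  have hker : RingHom.ker (PowerSeries.constantCoeff (R := R)) = Ideal.span {PowerSeries.X} := by
    ext a
    rw [RingHom.mem_ker, Ideal.mem_span_singleton, PowerSeries.X_dvd_iff]
  have e1 : (PowerSeries R ⧸ Ideal.span {(PowerSeries.X : PowerSeries R)}) ≃+* R :=
    (Ideal.quotEquivOfEq hker.symm).trans
      (RingHom.quotientKerEquivOfSurjective PowerSeries.constantCoeff_surj)
  exact ringKrullDim_eq_of_ringEquiv e1

theorem ringKrullDim_mvPowerSeries (n : ℕ) :
    ringKrullDim (MvPowerSeries (Fin n) ℂ) = n := by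
  induction n with
  | zero =>
    rw [ringKrullDim_eq_of_ringEquiv (MvPowerSeries.isEmptyEquiv (σ := Fin 0) ℂ).toRingEquiv]
    simp
  | succ n ih =>
    rw [ringKrullDim_eq_of_ringEquiv (MvPowerSeries.finSuccEquiv ℂ n).toRingEquiv,
      ringKrullDim_powerSeries, ih]
    push_cast
    rfl

/-- the hypersurface ring -/
abbrev RR (f : MvPowerSeries (Fin 3) ℂ) : Type := MvPowerSeries (Fin 3) ℂ ⧸ Ideal.span {f}

theorem isLocalRing_RR {f : MvPowerSeries (Fin 3) ℂ} (hf : MvPowerSeries.constantCoeff f = 0) :
    IsLocalRing (RR f) := by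
  have hne : Ideal.span {f} ≠ ⊤ := by
    intro h
    rw [Ideal.span_singleton_eq_top] at h
    have h2 := h.map (MvPowerSeries.constantCoeff (σ := Fin 3) (R := ℂ))
    rw [hf] at h2
    exact not_isUnit_zero h2
  have : Nontrivial (RR f) := Ideal.Quotient.nontrivial_iff.mpr hne
  exact IsLocalRing.of_surjective' (Ideal.Quotient.mk (Ideal.span {f}))
    Ideal.Quotient.mk_surjective

theorem ringKrullDim_RR {f : MvPowerSeries (Fin 3) ℂ} (hf : MvPowerSeries.constantCoeff f = 0)
    (hf0 : f ≠ 0) : ringKrullDim (RR f) = 2 := by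
  have hmem : f ∈ maximalIdeal (MvPowerSeries (Fin 3) ℂ) := by
    rw [mem_maximalIdeal, mem_nonunits_iff]
    intro h
    have h2 := h.map (MvPowerSeries.constantCoeff (σ := Fin 3) (R := ℂ))
    rw [hf] at h2
    exact not_isUnit_zero h2
  have hreg : IsSMulRegular (MvPowerSeries (Fin 3) ℂ) f := by
    intro a b hab
    exact mul_left_cancel₀ hf0 hab
  have h1 := ringKrullDim_quotient_span_singleton_succ_eq_ringKrullDim hreg hmem
  rw [ringKrullDim_mvPowerSeries 3] at h1
  have h2 : ((3 : ℕ) : WithBot ℕ∞) = 2 + 1 := by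
    norm_num
  rw [h2] at h1
  exact ENat.WithBot.add_one_cancel.mp h1

theorem dimNat_PS {f : MvPowerSeries (Fin 3) ℂ} (hf : MvPowerSeries.constantCoeff f = 0)
    (hf0 : f ≠ 0) : dimNat (PowerSeries (RR f)) = 3 := by
  have := isLocalRing_RR hf
  unfold dimNat
  rw [ringKrullDim_powerSeries, ringKrullDim_RR hf hf0]
  rfl

end Pool.Agent.Helper69_Lech
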