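import Mathlib
import Pool.Agent.Helper69_Lech.Clifford

set_option linter.unusedSectionVars false
set_option linter.unusedVariables false

namespace Pool.Agent.Helper69_Lech

open Module Submodule Polynomial WeierstrassCurve WeierstrassCurve.Affine

open scoped Polynomial.Bivariate

/-- `h = X³ + a₂X² + a₄X + a₆` -/
noncomputable def cub (W : WeierstrassCurve.Affine ℂ) : ℂ[X] :=
  X ^ 3 + C W.a₂ * X ^ 2 + C W.a₄ * X + C W.a₆

section Normal

variable {W : WeierstrassCurve.Affine ℂ}

theorem Y_sq (h1 : W.a₁ = 0) (h3 : W.a₃ = 0) :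
    CoordinateRing.mk W Y * CoordinateRing.mk W Y = algebraMap ℂ[X] W.CoordinateRing (cub W) := by
  have h := CoordinateRing.smul_basis_mul_Y (W' := W) 0 1
  rw [h1, h3] at h
  simp only [zero_smul, one_smul, zero_add, one_mul, C_0, zero_mul, add_zero, sub_zero] at h
  rw [h, Algebra.algebraMap_eq_smul_one]
  rfl

/-- the conjugation `Y ↦ -Y` -/
noncomputable def conj (h1 : W.a₁ = 0) (h3 : W.a₃ = 0) :
    W.CoordinateRing →ₐ[ℂ[X]] W.CoordinateRing :=
  AdjoinRoot.liftAlgHom W.polynomial (Algebra.ofId ℂ[X] W.CoordinateRing)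
    (-(CoordinateRing.mk W Y)) (by
      have h := Y_sq h1 h3
      have hp : W.polynomial = Y ^ 2 - C (cub W) := by
        rw [WeierstrassCurve.Affine.polynomial, h1, h3, cub]
        simp
      have h2 : eval₂ (Algebra.ofId ℂ[X] W.CoordinateRing : ℂ[X] →+* W.CoordinateRing)
          (-(CoordinateRing.mk W) Y) (Y ^ 2 - C (cub W)) = 0 := by
        simp only [eval₂_sub, eval₂_pow, eval₂_X, eval₂_C]
        rw [neg_sq, sq, h]
        exact sub_self _
      exact (congrArg _ hp).trans h2)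

theorem conj_basis (h1 : W.a₁ = 0) (h3 : W.a₃ = 0) (p q : ℂ[X]) :
    conj h1 h3 (p • (1 : W.CoordinateRing) + q • CoordinateRing.mk W Y) =
      p • (1 : W.CoordinateRing) - q • CoordinateRing.mk W Y := by
  rw [map_add, map_smul, map_smul, map_one]
  have : conj h1 h3 (CoordinateRing.mk W Y) = -(CoordinateRing.mk W Y) := by
    unfold conj
    rw [AdjoinRoot.coe_liftAlgHom]
    exact (AdjoinRoot.lift_mk _ _).trans (eval₂_X _ _)
  rw [this, smul_neg, sub_eq_add_neg]

theorem conj_injective (h1 : W.a₁ = 0) (h3 : W.a₃ = 0) : Function.Injective (conj h1 h3) := by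
  rw [injective_iff_map_eq_zero]
  intro x hx
  obtain ⟨p, q, rfl⟩ := CoordinateRing.exists_smul_basis_eq x
  rw [conj_basis, sub_eq_add_neg, ← neg_smul] at hx
  obtain ⟨hp, hq⟩ := CoordinateRing.smul_basis_eq_zero hx
  rw [neg_eq_zero] at hq
  rw [hp, hq]
  simp

theorem mul_conj (h1 : W.a₁ = 0) (h3 : W.a₃ = 0) (p q : ℂ[X]) :
    (p • (1 : W.CoordinateRing) + q • CoordinateRing.mk W Y) *
      (p • (1 : W.CoordinateRing) - q • CoordinateRing.mk W Y) =
      algebraMap ℂ[X] W.CoordinateRing (p ^ 2 - q ^ 2 * cub W) := by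
  have h := Y_sq h1 h3
  simp only [Algebra.smul_def, mul_one, map_sub, map_mul, map_pow, ← h]
  ring

/-- integrality test in the function field for fractions of polynomials -/
theorem dvd_of_integral {K : Type*} [Field K] [Algebra ℂ[X] K] [FaithfulSMul ℂ[X] K] {w : K}
    (hw : IsIntegral ℂ[X] w) {u v : ℂ[X]} (hu : u ≠ 0)
    (h : w * algebraMap ℂ[X] K u = algebraMap ℂ[X] K v) : u ∣ v := by
  letI := FractionRing.liftAlgebra ℂ[X] K
  haveI := FractionRing.isScalarTower_liftAlgebra ℂ[X] K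
  set K₀ := FractionRing ℂ[X]
  have hu' : algebraMap ℂ[X] K u ≠ 0 := by
    intro h0
    exact hu ((FaithfulSMul.algebraMap_injective ℂ[X] K) (by rw [h0, map_zero]))
  have hu0 : algebraMap ℂ[X] K₀ u ≠ 0 := by
    intro h0
    exact hu ((IsFractionRing.injective ℂ[X] K₀) (by rw [h0, map_zero]))
  have hw' : w = algebraMap K₀ K (algebraMap ℂ[X] K₀ v / algebraMap ℂ[X] K₀ u) := by
    rw [map_div₀, ← IsScalarTower.algebraMap_apply, ← IsScalarTower.algebraMap_apply, ← h,
      mul_div_cancel_right₀ _ hu']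
  rw [hw', isIntegral_algebraMap_iff (algebraMap K₀ K).injective] at hw
  obtain ⟨c, hc⟩ := (isIntegrallyClosed_iff K₀).mp inferInstance hw
  refine ⟨c, ?_⟩
  apply IsFractionRing.injective ℂ[X] K₀
  rw [map_mul, hc, mul_div_assoc', mul_div_cancel_left₀ _ hu0]

theorem dvd_of_sq_dvd {h n q : ℂ[X]} (hsq : Squarefree h) (hn : n ≠ 0)
    (hdvd : n ^ 2 ∣ q ^ 2 * h) : n ∣ q := by
  classical
  by_cases hq : q = 0
  · rw [hq]; exact dvd_zero _
  set g := EuclideanDomain.gcd n q with hg
  have hg0 : g ≠ 0 := by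
    intro h0
    exact hn (EuclideanDomain.gcd_eq_zero_iff.mp h0).1
  obtain ⟨n', hn'⟩ : g ∣ n := EuclideanDomain.gcd_dvd_left n q
  obtain ⟨q', hq'⟩ : g ∣ q := EuclideanDomain.gcd_dvd_right n q
  have hcop : IsCoprime n' q' := by
    have h1 := EuclideanDomain.gcd_eq_gcd_ab n q
    rw [← hg] at h1
    refine ⟨EuclideanDomain.gcdA n q, EuclideanDomain.gcdB n q, ?_⟩
    apply mul_left_cancel₀ hg0
    rw [mul_one]
    calc g * (EuclideanDomain.gcdA n q * n' + EuclideanDomain.gcdB n q * q')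
        = (g * n') * EuclideanDomain.gcdA n q + (g * q') * EuclideanDomain.gcdB n q := by ring
      _ = g := by rw [← hn', ← hq']; exact h1.symm
  have h4 : n' ^ 2 ∣ q' ^ 2 * h := by
    rw [hn', hq', mul_pow, mul_pow, mul_assoc] at hdvd
    exact (mul_dvd_mul_iff_left (pow_ne_zero 2 hg0)).mp hdvd
  have h5 : n' ^ 2 ∣ h := (hcop.pow (m := 2) (n := 2)).dvd_of_dvd_mul_left h4
  have h6 : IsUnit n' := hsq n' (by rwa [← sq])
  rw [hn']
  rw [hq']
  exact mul_dvd_mul_left g h6.dvd

/-- The coordinate ring of a nonsingular Weierstrass curve `Y² = h(X)` is a Dedekind domain. -/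
theorem isDedekind (h1 : W.a₁ = 0) (h3 : W.a₃ = 0) (hsq : Squarefree (cub W)) :
    IsDedekindDomain W.CoordinateRing := by
  have hfin : Module.Finite ℂ[X] W.CoordinateRing := Module.Finite.of_basis (CoordinateRing.basis W)
  have hint : Algebra.IsIntegral ℂ[X] W.CoordinateRing := Algebra.IsIntegral.of_finite _ _
  have hnoeth : IsNoetherianRing W.CoordinateRing :=
    isNoetherian_of_tower ℂ[X] (isNoetherian_of_isNoetherianRing_of_finite ℂ[X] W.CoordinateRing)
  have hdim : Ring.DimensionLEOne W.CoordinateRing :=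
    Ring.DimensionLEOne.of_isIntegral ℂ[X] W.CoordinateRing
  set B := W.CoordinateRing with hBdef
  set K := FractionRing B
  rw [isDedekindDomain_iff B K]
  refine ⟨inferInstance, hnoeth, hdim, ?_⟩
  intro z hz
  have hz' : IsIntegral ℂ[X] z := isIntegral_trans z hz
  haveI : FaithfulSMul ℂ[X] K := FaithfulSMul.trans ℂ[X] B K
  -- the conjugation on the fraction field
  let g : B →ₐ[ℂ[X]] K := (IsScalarTower.toAlgHom ℂ[X] B K).comp (conj h1 h3)
  have hg : Function.Injective g := by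
    intro x y hxy
    exact conj_injective h1 h3 (IsFractionRing.injective B K hxy)
  let τ : K →ₐ[ℂ[X]] K := IsFractionRing.liftAlgHom (K := K) hg
  have hτ : ∀ b : B, τ (algebraMap B K b) = algebraMap B K (conj h1 h3 b) := by
    intro b
    change IsFractionRing.lift hg (algebraMap B K b) = _
    rw [IsFractionRing.lift_algebraMap]
    rfl
  obtain ⟨a, b, hb, hab⟩ := IsFractionRing.div_surjective B z
  obtain ⟨p₁, q₁, rfl⟩ := CoordinateRing.exists_smul_basis_eq b
  set b := p₁ • (1 : B) + q₁ • CoordinateRing.mk W Y with hbdef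
  have hb0 : b ≠ 0 := nonZeroDivisors.ne_zero hb
  set b' := p₁ • (1 : B) - q₁ • CoordinateRing.mk W Y with hb'def
  have hb'0 : b' ≠ 0 := by
    rw [hb'def, ← conj_basis h1 h3]
    intro h0
    exact hb0 (conj_injective h1 h3 (by rw [h0, map_zero]))
  set n := p₁ ^ 2 - q₁ ^ 2 * cub W with hn
  have hbb' : b * b' = algebraMap ℂ[X] B n := mul_conj h1 h3 p₁ q₁
  have hn0 : n ≠ 0 := by
    intro h0
    rw [h0, map_zero] at hbb'
    exact (mul_ne_zero hb0 hb'0) hbb'
  obtain ⟨p, q, hpq⟩ := CoordinateRing.exists_smul_basis_eq (a * b')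
  have hbK : algebraMap B K b ≠ 0 := fun h0 =>
    hb0 (IsFractionRing.injective B K (by rw [h0, map_zero]))
  have hzn : z * algebraMap ℂ[X] K n =
      algebraMap B K (p • (1 : B) + q • CoordinateRing.mk W Y) := by
    rw [hpq, IsScalarTower.algebraMap_apply ℂ[X] B K, ← hbb', ← hab, map_mul, map_mul,
      div_mul_eq_mul_div, div_eq_iff hbK]
    ring
  have hτzn : τ z * algebraMap ℂ[X] K n =
      algebraMap B K (p • (1 : B) - q • CoordinateRing.mk W Y) := by
    have h := congrArg τ hzn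
    rw [map_mul, hτ, conj_basis] at h
    rwa [AlgHom.commutes] at h
  have hτz : IsIntegral ℂ[X] (τ z) := hz'.map τ
  -- trace
  have htr : n ∣ p + p := by
    apply dvd_of_integral (hz'.add hτz) hn0
    rw [add_mul, hzn, hτzn, ← map_add, IsScalarTower.algebraMap_apply ℂ[X] B K]
    congr 1
    rw [map_add, Algebra.algebraMap_eq_smul_one]
    abel
  have hp : n ∣ p := by
    have h2 : p + p = C 2 * p := by
      rw [← two_mul]
      congr 1
    rw [h2] at htr
    exact (IsUnit.dvd_mul_left (isUnit_C.mpr (by norm_num : IsUnit (2 : ℂ)))).mp htr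
  have hnorm : n ^ 2 ∣ p ^ 2 - q ^ 2 * cub W := by
    apply dvd_of_integral (hz'.mul hτz) (pow_ne_zero 2 hn0)
    rw [map_pow]
    calc z * τ z * algebraMap ℂ[X] K n ^ 2 =
        (z * algebraMap ℂ[X] K n) * (τ z * algebraMap ℂ[X] K n) := by ring
      _ = _ := by
        rw [hzn, hτzn, ← map_mul, mul_conj h1 h3, ← IsScalarTower.algebraMap_apply]
  have hq : n ∣ q := by
    apply dvd_of_sq_dvd hsq hn0
    have h2 : n ^ 2 ∣ p ^ 2 := pow_dvd_pow_of_dvd hp 2
    have h3 := dvd_sub h2 hnorm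
    rwa [sub_sub_cancel] at h3
  obtain ⟨p', rfl⟩ := hp
  obtain ⟨q', rfl⟩ := hq
  refine ⟨p' • (1 : B) + q' • CoordinateRing.mk W Y, ?_⟩
  have hnK : algebraMap ℂ[X] K n ≠ 0 := by
    intro h0
    exact hn0 ((FaithfulSMul.algebraMap_injective ℂ[X] K) (by rw [h0, map_zero]))
  apply mul_right_cancel₀ hnK
  rw [hzn, IsScalarTower.algebraMap_apply ℂ[X] B K, ← map_mul]
  congr 1
  rw [mul_comm, ← Algebra.smul_def, smul_add, smul_smul, smul_smul]

end Normal

end Pool.Agent.Helper69_Lech
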