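import Mathlib
import Pool.Agent.Helper69_Lech.Curve

set_option linter.unusedSectionVars false
set_option linter.unusedVariables false

namespace Pool.Agent.Helper69_Lech

open Module Submodule Polynomial WeierstrassCurve WeierstrassCurve.Affine

open scoped Polynomial.Bivariate

variable (W : WeierstrassCurve.Affine ℂ)

/-- the linear parametrization of the coordinate ring -/
noncomputable def TT : (ℂ[X] × ℂ[X]) →ₗ[ℂ] W.CoordinateRing where
  toFun x := x.1 • (1 : W.CoordinateRing) + x.2 • CoordinateRing.mk W Y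
  map_add' := by
    intro x y
    simp only [Prod.fst_add, Prod.snd_add, add_smul]
    abel
  map_smul' := by
    intro c x
    simp only [Prod.smul_fst, Prod.smul_snd, RingHom.id_apply, smul_add, smul_assoc]

theorem TT_apply (p q : ℂ[X]) :
    TT W (p, q) = p • (1 : W.CoordinateRing) + q • CoordinateRing.mk W Y := rfl

theorem TT_injective : Function.Injective (TT W) := by
  rw [injective_iff_map_eq_zero]
  rintro ⟨p, q⟩ h
  rw [TT_apply] at h
  obtain ⟨hp, hq⟩ := CoordinateRing.smul_basis_eq_zero h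
  rw [hp, hq]
  rfl

/-- parametrization of the pole order filtration -/
noncomputable def TTm (m : ℕ) :
    ((degreeLT ℂ (m / 2 + 1)) × (degreeLT ℂ ((m - 1) / 2))) →ₗ[ℂ] W.CoordinateRing :=
  (TT W).comp ((degreeLT ℂ (m / 2 + 1)).subtype.prodMap (degreeLT ℂ ((m - 1) / 2)).subtype)

theorem TTm_injective (m : ℕ) : Function.Injective (TTm W m) := by
  intro x y hxy
  have h := TT_injective W hxy
  ext
  · exact congrArg (fun z => Polynomial.coeff z.1 _) h
  · exact congrArg (fun z => Polynomial.coeff z.2 _) h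

/-- the pole order filtration -/
noncomputable def BW (m : ℕ) : Submodule ℂ W.CoordinateRing := LinearMap.range (TTm W m)

theorem finrank_degLT (n : ℕ) : finrank ℂ (degreeLT ℂ n) = n := by
  rw [LinearEquiv.finrank_eq (degreeLTEquiv ℂ n), finrank_fin_fun]

instance finite_degLT (n : ℕ) : Module.Finite ℂ (degreeLT ℂ n) :=
  Module.Finite.equiv (degreeLTEquiv ℂ n).symm

theorem finrank_BW {m : ℕ} (hm : 1 ≤ m) : finrank ℂ (BW W m) = m := by
  unfold BW
  rw [LinearMap.finrank_range_of_inj (TTm_injective W m), finrank_prod, finrank_degLT,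
    finrank_degLT]
  omega

theorem mem_BW {m : ℕ} {p q : ℂ[X]} :
    TT W (p, q) ∈ BW W m ↔ p ∈ degreeLT ℂ (m / 2 + 1) ∧ q ∈ degreeLT ℂ ((m - 1) / 2) := by
  constructor
  · rintro ⟨⟨x, y⟩, h⟩
    have h2 : ((x : ℂ[X]), (y : ℂ[X])) = (p, q) := TT_injective W h
    rw [Prod.mk.injEq] at h2
    rw [← h2.1, ← h2.2]
    exact ⟨x.2, y.2⟩
  · rintro ⟨hp, hq⟩
    exact ⟨(⟨p, hp⟩, ⟨q, hq⟩), rfl⟩

theorem dl_TT (p q : ℂ[X]) (h : TT W (p, q) ≠ 0) (m : ℕ) :
    dl (TT W (p, q)) ≤ m ↔ 2 • p.degree ≤ (m : WithBot ℕ) ∧ 2 • q.degree + 3 ≤ (m : WithBot ℕ) := by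
  have h1 : dl (TT W (p, q)) = (Algebra.norm ℂ[X] (TT W (p, q))).natDegree :=
    finrank_quotient_span_eq_natDegree_norm (CoordinateRing.basis W) h
  rw [h1, TT_apply, natDegree_le_iff_degree_le, CoordinateRing.degree_norm_smul_basis, max_le_iff]

theorem deg_iff_one (p : ℂ[X]) (m : ℕ) :
    2 • p.degree ≤ (m : WithBot ℕ) ↔ p ∈ degreeLT ℂ (m / 2 + 1) := by
  rw [mem_degreeLT]
  by_cases hp : p = 0
  · rw [hp, degree_zero]
    constructor
    · intro _
      exact WithBot.bot_lt_coe _
    · intro _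
      exact bot_le
  · rw [degree_eq_natDegree hp]
    have h1 : 2 • (p.natDegree : WithBot ℕ) = ((2 * p.natDegree : ℕ) : WithBot ℕ) := by
      rw [nsmul_eq_mul]; push_cast; rfl
    rw [h1]
    constructor
    · intro h
      have h2 : 2 * p.natDegree ≤ m := by exact_mod_cast h
      have h3 : p.natDegree < m / 2 + 1 := by omega
      exact_mod_cast h3
    · intro h
      have h3 : p.natDegree < m / 2 + 1 := by exact_mod_cast h
      have h2 : 2 * p.natDegree ≤ m := by omega
      exact_mod_cast h2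

theorem deg_iff_two (q : ℂ[X]) (m : ℕ) :
    2 • q.degree + 3 ≤ (m : WithBot ℕ) ↔ q ∈ degreeLT ℂ ((m - 1) / 2) := by
  rw [mem_degreeLT]
  by_cases hq : q = 0
  · rw [hq, degree_zero]
    constructor
    · intro _
      exact WithBot.bot_lt_coe _
    · intro _
      exact bot_le
  · rw [degree_eq_natDegree hq]
    have h1 : 2 • (q.natDegree : WithBot ℕ) + 3 = ((2 * q.natDegree + 3 : ℕ) : WithBot ℕ) := by
      rw [nsmul_eq_mul]; push_cast; rfl
    rw [h1]
    constructor
    · intro h
      have h2 : 2 * q.natDegree + 3 ≤ m := by exact_mod_cast h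
      have h3 : q.natDegree < (m - 1) / 2 := by omega
      exact_mod_cast h3
    · intro h
      have h3 : q.natDegree < (m - 1) / 2 := by exact_mod_cast h
      have h2 : 2 * q.natDegree + 3 ≤ m := by omega
      exact_mod_cast h2

theorem fin_quot_span (s : W.CoordinateRing) (hs : s ≠ 0) :
    Module.Finite ℂ (W.CoordinateRing ⧸ Ideal.span {s}) := by
  have h1 : finrank ℂ (W.CoordinateRing ⧸ Ideal.span {s}) = (Algebra.norm ℂ[X] s).natDegree :=
    finrank_quotient_span_eq_natDegree_norm (CoordinateRing.basis W) hs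
  rcases Nat.eq_zero_or_pos (Algebra.norm ℂ[X] s).natDegree with h0 | hpos
  · -- the element is a unit
    obtain ⟨p, q, hpq⟩ := CoordinateRing.exists_smul_basis_eq s
    have hs' : TT W (p, q) ≠ 0 := by rw [TT_apply, hpq]; exact hs
    have h2 : dl (TT W (p, q)) ≤ 0 := by
      have : dl s = 0 := by rw [← h0]; exact h1
      rw [TT_apply, hpq, this]
    rw [dl_TT W p q hs'] at h2
    obtain ⟨h3, h4⟩ := h2
    have h5 : p ∈ degreeLT ℂ (0 / 2 + 1) := (deg_iff_one p 0).mp h3
    have h6 : q ∈ degreeLT ℂ ((0 - 1) / 2) := (deg_iff_two q 0).mp h4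
    rw [mem_degreeLT] at h5 h6
    have hq : q = 0 := by
      rw [← degree_eq_bot]
      by_contra hne
      have : (0 : WithBot ℕ) ≤ q.degree := zero_le_degree_iff.mpr (by
        intro h; exact hne (by rw [h, degree_zero]))
      exact absurd h6 (not_lt.mpr this)
    have hp : p = C (p.coeff 0) := by
      by_cases hp0 : p = 0
      · rw [hp0]; simp
      · apply eq_C_of_natDegree_le_zero
        have h7 : p.natDegree < 1 := (natDegree_lt_iff_degree_lt hp0).mpr (by simpa using h5)
        omega
    have hc : p.coeff 0 ≠ 0 := by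
      intro hc
      rw [hc, C_0] at hp
      apply hs'
      rw [hp, hq]
      exact map_zero _
    have hunit : IsUnit s := by
      rw [← hpq, hq, zero_smul, add_zero, hp, ← Algebra.algebraMap_eq_smul_one]
      exact (isUnit_C.mpr (IsUnit.mk0 _ hc)).map (algebraMap ℂ[X] W.CoordinateRing)
    have htop : Ideal.span {s} = ⊤ := Ideal.span_singleton_eq_top.mpr hunit
    rw [htop]
    have : Subsingleton (W.CoordinateRing ⧸ (⊤ : Ideal W.CoordinateRing)) :=
      Ideal.Quotient.subsingleton_iff.mpr rfl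
    infer_instance
  · apply Module.finite_of_finrank_pos
    rw [h1]
    exact hpos

/-- The pole order data of a Weierstrass curve. -/
theorem poleData : PoleData W.CoordinateRing (BW W) where
  fin_quot := fin_quot_span W
  mem_iff := by
    intro m s
    obtain ⟨p, q, hpq⟩ := CoordinateRing.exists_smul_basis_eq s
    rw [← hpq, ← TT_apply, mem_BW]
    by_cases h0 : TT W (p, q) = 0
    · simp only [h0, true_or, iff_true]
      have h1 : (p, q) = (0 : ℂ[X] × ℂ[X]) := TT_injective W (by rw [h0, map_zero])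
      rw [Prod.mk_eq_zero] at h1
      rw [h1.1, h1.2]
      exact ⟨Submodule.zero_mem _, Submodule.zero_mem _⟩
    · rw [dl_TT W p q h0, deg_iff_one, deg_iff_two]
      simp [h0]
  rank := fun m hm => finrank_BW W hm

end Pool.Agent.Helper69_Lech
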