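import Mathlib
import Pool.Agent.Helper69_Lech.Build
import Pool.Agent.Helper69_Lech.Pole

set_option linter.unusedSectionVars false
set_option linter.unusedVariables false

namespace Pool.Agent.Helper69_Lech

open Module Submodule WeierstrassCurve WeierstrassCurve.Affine

section Curve

/-- the Weierstrass curve `Y² = X³ + aX² + bX + c` -/
def WC (a b c : ℂ) : WeierstrassCurve.Affine ℂ := ⟨0, a, 0, b, c⟩

theorem cub_WC (a b c : ℂ) : cub (WC a b c) =
    Polynomial.X ^ 3 + Polynomial.C a * Polynomial.X ^ 2 + Polynomial.C b * Polynomial.X +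
      Polynomial.C c := rfl

theorem squarefree_cub (a b c : ℂ)
    (hdisc : a ^ 2 * b ^ 2 - 4 * b ^ 3 - 4 * a ^ 3 * c - 27 * c ^ 2 + 18 * a * b * c ≠ 0) :
    Squarefree (cub (WC a b c)) := by
  apply Polynomial.Separable.squarefree
  set D : ℂ := a ^ 2 * b ^ 2 - 4 * b ^ 3 - 4 * a ^ 3 * c - 27 * c ^ 2 + 18 * a * b * c with hD
  have hderiv : Polynomial.derivative (cub (WC a b c)) =
      3 * Polynomial.X ^ 2 + 2 * Polynomial.C a * Polynomial.X + Polynomial.C b := by
    rw [cub_WC]
    simp only [Polynomial.derivative_add, Polynomial.derivative_X_pow, Polynomial.derivative_mul,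
      Polynomial.derivative_C, Polynomial.derivative_X]
    push_cast
    simp only [map_ofNat]
    ring
  have hinv : Polynomial.C (-9 * D)⁻¹ * Polynomial.C (-9 * D) = 1 := by
    rw [← map_mul, inv_mul_cancel₀ (mul_ne_zero (by norm_num) hdisc), map_one]
  have hCD : Polynomial.C (-9 * D) = -9 * (Polynomial.C a ^ 2 * Polynomial.C b ^ 2 -
      4 * Polynomial.C b ^ 3 - 4 * Polynomial.C a ^ 3 * Polynomial.C c -
      27 * Polynomial.C c ^ 2 + 18 * Polynomial.C a * Polynomial.C b * Polynomial.C c) := by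
    rw [hD]
    simp only [map_mul, map_sub, map_add, map_pow, map_neg, map_ofNat]
  unfold Polynomial.Separable
  rw [hderiv, cub_WC]
  set x := (Polynomial.X : Polynomial ℂ)
  set A := Polynomial.C a
  set B := Polynomial.C b
  set G := Polynomial.C c
  set P := 6 * B - 2 * A ^ 2 with hP
  set Q := 9 * G - A * B with hQ
  refine ⟨Polynomial.C (-9 * D)⁻¹ * (-(3 * P * x + 2 * A * P - 3 * Q) * 9),
    Polynomial.C (-9 * D)⁻¹ * (P ^ 2 + (3 * P * x + 2 * A * P - 3 * Q) * (3 * x + A)), ?_⟩
  rw [← hinv, hCD, hP, hQ]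
  ring

variable (a b c : ℂ)

/-- the function `X` -/
noncomputable def XX : (WC a b c).CoordinateRing := algebraMap (Polynomial ℂ) _ Polynomial.X

/-- the function `Y` -/
noncomputable def YY : (WC a b c).CoordinateRing :=
  CoordinateRing.mk (WC a b c) Polynomial.X

theorem XX_eq : XX a b c = TT (WC a b c) (Polynomial.X, 0) := by
  rw [TT_apply, zero_smul, add_zero, ← Algebra.algebraMap_eq_smul_one]
  rfl

theorem YY_eq : YY a b c = TT (WC a b c) (0, 1) := by
  rw [TT_apply, zero_smul, one_smul, zero_add]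
  rfl

theorem YY_sq : YY a b c ^ 2 = XX a b c ^ 3 + algebraMap ℂ _ a * XX a b c ^ 2 +
    algebraMap ℂ _ b * XX a b c + algebraMap ℂ _ c := by
  have h := Y_sq (W := WC a b c) rfl rfl
  rw [cub_WC] at h
  have hC : ∀ t : ℂ, algebraMap ℂ (WC a b c).CoordinateRing t =
      algebraMap (Polynomial ℂ) _ (Polynomial.C t) := by
    intro t
    rw [IsScalarTower.algebraMap_apply ℂ (Polynomial ℂ) (WC a b c).CoordinateRing]
    rfl
  rw [sq, hC, hC, hC]
  unfold YY XX
  rw [h]
  simp only [map_add, map_mul, map_pow]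

theorem XX_ne : XX a b c ≠ 0 := by
  rw [XX_eq]
  intro h
  have h1 := TT_injective (WC a b c) (h.trans (map_zero _).symm)
  rw [Prod.mk_eq_zero] at h1
  exact Polynomial.X_ne_zero h1.1

theorem YY_ne : YY a b c ≠ 0 := by
  rw [YY_eq]
  intro h
  have h1 := TT_injective (WC a b c) (h.trans (map_zero _).symm)
  rw [Prod.mk_eq_zero] at h1
  exact one_ne_zero h1.2

theorem XX_mem : XX a b c ∈ BW (WC a b c) 2 := by
  rw [XX_eq, mem_BW, Polynomial.mem_degreeLT, Polynomial.mem_degreeLT]
  constructor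
  · rw [Polynomial.degree_X]
    norm_num
  · rw [Polynomial.degree_zero]
    exact WithBot.bot_lt_coe _

theorem YY_mem : YY a b c ∈ BW (WC a b c) 3 := by
  rw [YY_eq, mem_BW, Polynomial.mem_degreeLT, Polynomial.mem_degreeLT]
  constructor
  · rw [Polynomial.degree_zero]
    exact WithBot.bot_lt_coe _
  · rw [Polynomial.degree_one]
    norm_num

theorem dl_XX : dl (XX a b c) = 2 := by
  apply le_antisymm
  · have h := XX_mem a b c
    rw [(poleData (WC a b c)).mem_iff] at h
    exact h.resolve_left (XX_ne a b c)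
  · by_contra hlt
    push Not at hlt
    have h : XX a b c ∈ BW (WC a b c) 1 := by
      rw [(poleData (WC a b c)).mem_iff]
      right
      omega
    rw [XX_eq, mem_BW, Polynomial.mem_degreeLT, Polynomial.degree_X] at h
    have h2 := h.1
    norm_num at h2

theorem dl_YY : dl (YY a b c) = 3 := by
  apply le_antisymm
  · have h := YY_mem a b c
    rw [(poleData (WC a b c)).mem_iff] at h
    exact h.resolve_left (YY_ne a b c)
  · by_contra hlt
    push Not at hlt
    have h : YY a b c ∈ BW (WC a b c) 2 := by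
      rw [(poleData (WC a b c)).mem_iff]
      right
      omega
    rw [YY_eq, mem_BW, Polynomial.mem_degreeLT, Polynomial.mem_degreeLT, Polynomial.degree_one] at h
    have h2 := h.2
    norm_num at h2

end Curve

open MvPolynomial

/-- support condition -/
def Supp (P : (Fin 3 →₀ ℕ) → Prop) (p : MvPolynomial (Fin 3) ℂ) : Prop :=
  ∀ γ, MvPolynomial.coeff γ p ≠ 0 → P γ

theorem Supp.add {P : (Fin 3 →₀ ℕ) → Prop} {p q : MvPolynomial (Fin 3) ℂ} (hp : Supp P p)
    (hq : Supp P q) : Supp P (p + q) := by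
  intro γ hγ
  rw [MvPolynomial.coeff_add] at hγ
  by_cases h : MvPolynomial.coeff γ p = 0
  · rw [h, zero_add] at hγ
    exact hq γ hγ
  · exact hp γ h

theorem Supp.monomial {P : (Fin 3 →₀ ℕ) → Prop} {α : Fin 3 →₀ ℕ} (h : P α) (c : ℂ) :
    Supp P (MvPolynomial.monomial α c) := by
  classical
  intro γ hγ
  rw [MvPolynomial.coeff_monomial] at hγ
  split_ifs at hγ with h1
  · rw [← h1]
    exact h
  · exact absurd rfl hγ

theorem xyz_eq (c : ℂ) : (C c * X 0 * X 1 * X 2 : MvPolynomial (Fin 3) ℂ) =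
    MvPolynomial.monomial (Finsupp.single 0 1 + Finsupp.single 1 1 + Finsupp.single 2 1) c := by
  have h : ∀ i : Fin 3, (X i : MvPolynomial (Fin 3) ℂ) =
    MvPolynomial.monomial (Finsupp.single i 1) 1 := fun _ => rfl
  rw [h, h, h, C_mul_monomial, monomial_mul, monomial_mul, mul_one, mul_one, mul_one]

/-! ### The three families -/

/-- `x² + y⁴ + z⁴ + λxyz` -/
noncomputable def poly1 (l : ℂ) : MvPolynomial (Fin 3) ℂ :=
  X 0 ^ 2 + X 1 ^ 4 + X 2 ^ 4 + C l * X 0 * X 1 * X 2

/-- `x² + y³ + z⁶ + λxyz` -/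
noncomputable def poly2 (l : ℂ) : MvPolynomial (Fin 3) ℂ :=
  X 0 ^ 2 + X 1 ^ 3 + X 2 ^ 6 + C l * X 0 * X 1 * X 2

/-- `x³ + y³ + z³ + λxyz` -/
noncomputable def poly3 (l : ℂ) : MvPolynomial (Fin 3) ℂ :=
  X 0 ^ 3 + X 1 ^ 3 + X 2 ^ 3 + C l * X 0 * X 1 * X 2

theorem shape_aux (w : Fin 3 → ℕ) (e p q D : ℕ) (l : ℂ) (h1 : p * w 1 = D) (h2 : q * w 2 = D)
    (h3 : w 0 + w 1 + w 2 = D) (hD : D = e * w 0) (he : 2 ≤ e) :
    ∃ Rr : MvPolynomial (Fin 3) ℂ,
      (X 0 ^ e + X 1 ^ p + X 2 ^ q + C l * X 0 * X 1 * X 2 : MvPolynomial (Fin 3) ℂ) =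
        MvPolynomial.monomial (Finsupp.single 0 e) 1 + Rr ∧
      ∀ γ, MvPolynomial.coeff γ Rr ≠ 0 → Finsupp.weight w γ = e * w 0 ∧ γ 0 < e := by
  refine ⟨MvPolynomial.monomial (Finsupp.single 1 p) 1 +
    MvPolynomial.monomial (Finsupp.single 2 q) 1 + MvPolynomial.monomial
      (Finsupp.single 0 1 + Finsupp.single 1 1 + Finsupp.single 2 1) l, ?_, ?_⟩
  · rw [xyz_eq, X_pow_eq_monomial, X_pow_eq_monomial, X_pow_eq_monomial]
    ring
  · apply Supp.add
    · apply Supp.add
      · apply Supp.monomial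
        rw [weight_eq]
        simp
        omega
      · apply Supp.monomial
        rw [weight_eq]
        simp
        omega
    · apply Supp.monomial
      rw [weight_eq]
      simp
      omega

section Fam2

/-- Family `J_{2,0}` -/
theorem fam2 (l : ℂ) [IsDedekindDomain (WC (l ^ 2) 0 (-1)).CoordinateRing] : BuildData (WC (l ^ 2) 0 (-1)).CoordinateRing (BW (WC (l ^ 2) 0 (-1))) 1
    ![3, 2, 1] ![YY (l ^ 2) 0 (-1) + algebraMap ℂ _ l * XX (l ^ 2) 0 (-1), -XX (l ^ 2) 0 (-1), 1]
    (poly2 (2 * l)) 2 2 3 (X 2) (-X 1) (X 0 + C l * (X 1 * X 2))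
    (XX (l ^ 2) 0 (-1)) (YY (l ^ 2) 0 (-1)) where
  hw := by
    intro i
    fin_cases i <;> simp
  hd := le_rfl
  hφ := by
    have hB := poleData (WC (l ^ 2) 0 (-1))
    intro i
    fin_cases i
    · refine Submodule.add_mem _ (YY_mem _ _ _) ?_
      rw [← Algebra.smul_def]
      exact Submodule.smul_mem _ _ (hB.mono (by simp) (XX_mem _ _ _))
    · exact Submodule.neg_mem _ (XX_mem _ _ _)
    · exact hB.one_mem _
  fshape := shape_aux _ 2 3 6 6 (2 * l) (by simp) (by simp) (by simp) (by simp) le_rfl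
  zero := by
    have h := YY_sq (l ^ 2) 0 (-1)
    simp only [poly2, map_add, map_mul, map_pow, aeval_X, aeval_C, Matrix.cons_val_zero,
      Matrix.cons_val_one, Matrix.cons_val, map_ofNat, map_zero, map_neg, map_one] at h ⊢
    linear_combination h
  hLT := isWeightedHomogeneous_X _ _ 2
  aLT := by simp
  hLX := (isWeightedHomogeneous_X _ _ 1).neg
  aLX := by simp
  hLY := (isWeightedHomogeneous_X _ _ 0).add
    (((isWeightedHomogeneous_X _ _ 1).mul (isWeightedHomogeneous_X _ _ 2)).C_mul l)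
  aLY := by
    simp only [map_add, map_mul, aeval_X, aeval_C, Matrix.cons_val_zero,
      Matrix.cons_val_one, Matrix.cons_val]
    ring
  X0 := XX_ne _ _ _
  dX := dl_XX _ _ _
  Y0 := YY_ne _ _ _
  dY := dl_YY _ _ _
  gen := by
    intro n m hm hmn
    rcases Nat.even_or_odd m with h | h
    · obtain ⟨k, hk⟩ := h
      exact ⟨k, 0, by omega, by omega⟩
    · obtain ⟨k, hk⟩ := h
      exact ⟨k - 1, 1, by omega, by omega⟩
  enc := by
    refine ⟨fun α => 3 * α 0 + 2 * α 1, ?_, ?_⟩
    · intro n α hα h0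
      rw [weight_eq] at hα
      simp only [Matrix.cons_val_zero, Matrix.cons_val_one, Matrix.cons_val] at hα
      rw [mem_SS]
      constructor
      · change 3 * α 0 + 2 * α 1 ≠ 1
        omega
      · change 3 * α 0 + 2 * α 1 ≤ 1 * n
        omega
    · intro α β hα h0 h0' hab
      rw [weight_eq, weight_eq] at hα
      simp only [Matrix.cons_val_zero, Matrix.cons_val_one, Matrix.cons_val] at hα hab
      ext i
      fin_cases i
      · change α 0 = β 0
        omega
      · change α 1 = β 1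
        omega
      · change α 2 = β 2
        omega

end Fam2

section Fam1

/-- Family `X_{1,0}` -/
theorem fam1 (l r k : ℂ) (hk : k ≠ 0) (hr : r ^ 4 - l ^ 2 * r ^ 2 + 1 = 0)
    (hkr : k = 4 * r ^ 3 - 2 * l ^ 2 * r) (a b c : ℂ)
    (ha : a = -(6 * r ^ 2 - l ^ 2) / k ^ 2) (hb : b = 4 * r / k ^ 3) (hc : c = -1 / k ^ 4)
    [IsDedekindDomain (WC a b c).CoordinateRing] :
    BuildData (WC a b c).CoordinateRing (BW (WC a b c)) 2
    ![2, 1, 1] ![algebraMap ℂ _ (k ^ 2) * YY a b c + algebraMap ℂ _ (l * k) * (XX a b c *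
      (1 - algebraMap ℂ _ (r * k) * XX a b c)), 1 - algebraMap ℂ _ (r * k) * XX a b c,
      - (algebraMap ℂ _ k * XX a b c)]
    (poly1 (2 * l)) 2 1 2 (X 1 - C r * X 2) (C (-k⁻¹) * X 2)
    (C ((k ^ 2)⁻¹) * (X 0 + C l * (X 1 * X 2)))
    (XX a b c) (YY a b c) where
  hw := by
    intro i
    fin_cases i <;> simp
  hd := by norm_num
  hφ := by
    have hB := poleData (WC a b c)
    have h2 : 1 - algebraMap ℂ _ (r * k) * XX a b c ∈ BW (WC a b c) 2 := by
      refine Submodule.sub_mem _ (hB.one_mem _) ?_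
      rw [← Algebra.smul_def]
      exact Submodule.smul_mem _ _ (XX_mem _ _ _)
    intro i
    fin_cases i
    · refine Submodule.add_mem _ ?_ ?_
      · rw [← Algebra.smul_def]
        exact Submodule.smul_mem _ _ (hB.mono (by simp) (YY_mem _ _ _))
      · rw [← Algebra.smul_def]
        exact Submodule.smul_mem _ _ (hB.mul_mem (XX_mem _ _ _) h2)
    · exact h2
    · refine Submodule.neg_mem _ ?_
      rw [← Algebra.smul_def]
      exact Submodule.smul_mem _ _ (XX_mem _ _ _)
  fshape := shape_aux _ 2 4 4 4 (2 * l) (by simp) (by simp) (by simp) (by simp) le_rfl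
  zero := by
    have h := YY_sq a b c
    have e2 := congrArg (algebraMap ℂ (WC a b c).CoordinateRing)
      (show k ^ 4 * a = -(6 * r ^ 2 - l ^ 2) * k ^ 2 by rw [ha]; field_simp)
    have e4 := congrArg (algebraMap ℂ (WC a b c).CoordinateRing)
      (show k ^ 4 * b = 4 * r * k by rw [hb]; field_simp)
    have e6 := congrArg (algebraMap ℂ (WC a b c).CoordinateRing)
      (show k ^ 4 * c = -1 by rw [hc]; field_simp)
    have er := congrArg (algebraMap ℂ (WC a b c).CoordinateRing) hr
    have ek := congrArg (algebraMap ℂ (WC a b c).CoordinateRing) hkr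
    simp only [poly1, map_add, map_mul, map_pow, aeval_X, aeval_C, Matrix.cons_val_zero,
      Matrix.cons_val_one, Matrix.cons_val, map_ofNat, map_zero, map_neg, map_one, map_sub]
      at h e2 e4 e6 er ek ⊢
    set A := algebraMap ℂ (WC a b c).CoordinateRing
    set x := XX a b c
    set y := YY a b c
    linear_combination (A k ^ 4) * h + x ^ 2 * e2 + x * e4 + e6 + (A k * x) ^ 3 * ek +
      (A k * x) ^ 4 * er
  hLT := (isWeightedHomogeneous_X _ _ 1).sub ((isWeightedHomogeneous_X _ _ 2).C_mul r)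
  aLT := by
    simp only [map_sub, map_mul, aeval_X, aeval_C, Matrix.cons_val_zero,
      Matrix.cons_val_one, Matrix.cons_val]
    ring
  hLX := (isWeightedHomogeneous_X _ _ 2).C_mul _
  aLX := by
    have e := congrArg (algebraMap ℂ (WC a b c).CoordinateRing)
      (show k⁻¹ * k = 1 from inv_mul_cancel₀ hk)
    simp only [map_neg, map_mul, aeval_X, aeval_C, Matrix.cons_val_zero,
      Matrix.cons_val_one, Matrix.cons_val, map_one] at e ⊢
    linear_combination (XX a b c) * e
  hLY := (((isWeightedHomogeneous_X _ _ 0).add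
    (((isWeightedHomogeneous_X _ _ 1).mul (isWeightedHomogeneous_X _ _ 2)).C_mul l))).C_mul _
  aLY := by
    have e := congrArg (algebraMap ℂ (WC a b c).CoordinateRing)
      (show (k ^ 2)⁻¹ * k ^ 2 = 1 from inv_mul_cancel₀ (pow_ne_zero 2 hk))
    simp only [map_add, map_sub, map_neg, map_mul, aeval_X, aeval_C, Matrix.cons_val_zero,
      Matrix.cons_val_one, Matrix.cons_val, map_one, map_pow] at e ⊢
    linear_combination (YY a b c) * e
  X0 := XX_ne _ _ _
  dX := dl_XX _ _ _
  Y0 := YY_ne _ _ _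
  dY := dl_YY _ _ _
  gen := by
    intro n m hm hmn
    rcases Nat.even_or_odd m with h | h
    · obtain ⟨k, hk⟩ := h
      exact ⟨k, 0, by omega, by omega⟩
    · obtain ⟨k, hk⟩ := h
      exact ⟨k - 1, 1, by omega, by omega⟩
  enc := by
    refine ⟨fun α => 3 * α 0 + 2 * α 1, ?_, ?_⟩
    · intro n α hα h0
      rw [weight_eq] at hα
      simp only [Matrix.cons_val_zero, Matrix.cons_val_one, Matrix.cons_val] at hα
      rw [mem_SS]
      constructor
      · change 3 * α 0 + 2 * α 1 ≠ 1
        omega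
      · change 3 * α 0 + 2 * α 1 ≤ 2 * n
        omega
    · intro α β hα h0 h0' hab
      rw [weight_eq, weight_eq] at hα
      simp only [Matrix.cons_val_zero, Matrix.cons_val_one, Matrix.cons_val] at hα hab
      ext i
      fin_cases i
      · change α 0 = β 0
        omega
      · change α 1 = β 1
        omega
      · change α 2 = β 2
        omega

end Fam1

section Fam3

/-- Family `T_{3,3,3}` -/
theorem fam3 (m k : ℂ) (hk : k ≠ 0) (hkm : k = 8 * m ^ 3 + 27) (a b c : ℂ)
    (ha : a = -3 * m ^ 2 / k ^ 2) (hb : b = m / (3 * k ^ 3))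
    (hc : c = -1 / (108 * k ^ 4)) [IsDedekindDomain (WC a b c).CoordinateRing] :
    BuildData (WC a b c).CoordinateRing (BW (WC a b c)) 3
    ![1, 1, 1] ![algebraMap ℂ _ (1 / 6) - algebraMap ℂ _ (m * k) * XX a b c +
      algebraMap ℂ _ (k ^ 2) * YY a b c,
      algebraMap ℂ _ (1 / 6) - algebraMap ℂ _ (m * k) * XX a b c -
      algebraMap ℂ _ (k ^ 2) * YY a b c, - (algebraMap ℂ _ (3 * k) * XX a b c)]
    (poly3 (2 * m)) 3 1 1 (C 3 * X 0 + C 3 * X 1 - C (2 * m) * X 2) (C (-(3 * k)⁻¹) * X 2)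
    (C ((2 * k ^ 2)⁻¹) * (X 0 - X 1))
    (XX a b c) (YY a b c) where
  hw := by
    intro i
    fin_cases i <;> simp
  hd := by norm_num
  hφ := by
    have hB := poleData (WC a b c)
    have h1 : algebraMap ℂ (WC a b c).CoordinateRing (1 / 6) ∈ BW (WC a b c) 3 :=
      hB.algebraMap_mem _ _
    have h2 : ∀ t : ℂ, algebraMap ℂ (WC a b c).CoordinateRing t * XX a b c ∈ BW (WC a b c) 3 := by
      intro t
      rw [← Algebra.smul_def]
      exact Submodule.smul_mem _ _ (hB.mono (by norm_num) (XX_mem _ _ _))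
    have h3 : algebraMap ℂ (WC a b c).CoordinateRing (k ^ 2) * YY a b c ∈ BW (WC a b c) 3 := by
      rw [← Algebra.smul_def]
      exact Submodule.smul_mem _ _ (YY_mem _ _ _)
    intro i
    fin_cases i
    · exact Submodule.add_mem _ (Submodule.sub_mem _ h1 (h2 _)) h3
    · exact Submodule.sub_mem _ (Submodule.sub_mem _ h1 (h2 _)) h3
    · exact Submodule.neg_mem _ (h2 _)
  fshape := shape_aux _ 3 3 3 3 (2 * m) (by simp) (by simp) (by simp) (by simp) (by norm_num)
  zero := by
    have h := YY_sq a b c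
    have e2 := congrArg (algebraMap ℂ (WC a b c).CoordinateRing)
      (show k ^ 4 * a = -3 * m ^ 2 * k ^ 2 by rw [ha]; field_simp)
    have e4 := congrArg (algebraMap ℂ (WC a b c).CoordinateRing)
      (show k ^ 4 * b = 2 * (1 / 6) * m * k by rw [hb]; field_simp; ring)
    have e6 := congrArg (algebraMap ℂ (WC a b c).CoordinateRing)
      (show k ^ 4 * c = -2 * (1 / 6) ^ 3 by rw [hc]; field_simp; norm_num)
    have eS := congrArg (algebraMap ℂ (WC a b c).CoordinateRing)
      (show (6 : ℂ) * (1 / 6) = 1 by norm_num)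
    have ek := congrArg (algebraMap ℂ (WC a b c).CoordinateRing) hkm
    simp only [poly3, map_add, map_mul, map_pow, aeval_X, aeval_C, Matrix.cons_val_zero,
      Matrix.cons_val_one, Matrix.cons_val, map_ofNat, map_zero, map_neg, map_one, map_sub]
      at h e2 e4 e6 eS ek ⊢
    set A := algebraMap ℂ (WC a b c).CoordinateRing
    set x := XX a b c
    set y := YY a b c
    linear_combination (A k ^ 4) * h + x ^ 2 * e2 + x * e4 + e6 + (A k * x) ^ 3 * ek +
      (A k ^ 4 * y ^ 2 - 2 * A (1 / 6) * A m * A k * x + 3 * A m ^ 2 * (A k * x) ^ 2) * eS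
  hLT := (((isWeightedHomogeneous_X _ _ 0).C_mul _).add ((isWeightedHomogeneous_X _ _ 1).C_mul _)).sub
    ((isWeightedHomogeneous_X _ _ 2).C_mul _)
  aLT := by
    have eS := congrArg (algebraMap ℂ (WC a b c).CoordinateRing)
      (show (6 : ℂ) * (1 / 6) = 1 by norm_num)
    simp only [poly3, map_add, map_mul, map_pow, aeval_X, aeval_C, Matrix.cons_val_zero,
      Matrix.cons_val_one, Matrix.cons_val, map_ofNat, map_zero, map_neg, map_one, map_sub]
      at eS ⊢
    linear_combination eS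
  hLX := (isWeightedHomogeneous_X _ _ 2).C_mul _
  aLX := by
    have e := congrArg (algebraMap ℂ (WC a b c).CoordinateRing)
      (show (3 * k)⁻¹ * (3 * k) = 1 from inv_mul_cancel₀ (mul_ne_zero (by norm_num) hk))
    simp only [map_neg, map_mul, aeval_X, aeval_C, Matrix.cons_val_zero,
      Matrix.cons_val_one, Matrix.cons_val, map_one] at e ⊢
    linear_combination (XX a b c) * e
  hLY := ((isWeightedHomogeneous_X _ _ 0).sub (isWeightedHomogeneous_X _ _ 1)).C_mul _
  aLY := by
    have e := congrArg (algebraMap ℂ (WC a b c).CoordinateRing)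
      (show (2 * k ^ 2)⁻¹ * (2 * k ^ 2) = 1 from
        inv_mul_cancel₀ (mul_ne_zero (by norm_num) (pow_ne_zero 2 hk)))
    simp only [map_add, map_sub, map_neg, map_mul, aeval_X, aeval_C, Matrix.cons_val_zero,
      Matrix.cons_val_one, Matrix.cons_val, map_one, map_pow, map_ofNat] at e ⊢
    linear_combination (YY a b c) * e
  X0 := XX_ne _ _ _
  dX := dl_XX _ _ _
  Y0 := YY_ne _ _ _
  dY := dl_YY _ _ _
  gen := by
    intro n m hm hmn
    have h3 : m % 3 = 0 ∨ m % 3 = 1 ∨ m % 3 = 2 := by omega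
    rcases h3 with h | h | h
    · exact ⟨0, m / 3, by omega, by omega⟩
    · exact ⟨2, (m - 4) / 3, by omega, by omega⟩
    · exact ⟨1, (m - 2) / 3, by omega, by omega⟩
  enc := by
    refine ⟨fun α => 2 * α 0 + 3 * α 1, ?_, ?_⟩
    · intro n α hα h0
      rw [weight_eq] at hα
      simp only [Matrix.cons_val_zero, Matrix.cons_val_one, Matrix.cons_val] at hα
      rw [mem_SS]
      constructor
      · change 2 * α 0 + 3 * α 1 ≠ 1
        omega
      · change 2 * α 0 + 3 * α 1 ≤ 3 * n
        omega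
    · intro α β hα h0 h0' hab
      rw [weight_eq, weight_eq] at hα
      simp only [Matrix.cons_val_zero, Matrix.cons_val_one, Matrix.cons_val] at hα hab
      ext i
      fin_cases i
      · change α 0 = β 0
        omega
      · change α 1 = β 1
        omega
      · change α 2 = β 2
        omega

end Fam3

end Pool.Agent.Helper69_Lech
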