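import Mathlib

namespace Pool.Agent.Helper69_Lech

open Filter Topology

theorem lim_exists (L : ℕ → ℝ) (hmono : Monotone L) (h0 : ∀ n, 0 ≤ L n)
    (h : ∀ m, 1 ≤ m → ∃ C : ℝ, ∀ N : ℕ, 1 ≤ N → L (m * N) ≤ (N : ℝ) ^ 3 * L m + C * (N : ℝ) ^ 2) :
    ∃ e, Tendsto (fun n : ℕ => L n / (n : ℝ) ^ 3) atTop (𝓝 e) ∧
      (∀ m, 1 ≤ m → e ≤ L m / (m : ℝ) ^ 3) ∧ 0 ≤ e := by
  set S : Set ℝ := {x | ∃ m : ℕ, 1 ≤ m ∧ x = L m / (m : ℝ) ^ 3} with hS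
  have hSne : S.Nonempty := ⟨_, 1, le_rfl, rfl⟩
  have hSbdd : BddBelow S := by
    refine ⟨0, ?_⟩
    rintro x ⟨m, _, rfl⟩
    have := h0 m
    positivity
  have hle : ∀ m, 1 ≤ m → sInf S ≤ L m / (m : ℝ) ^ 3 := fun m hm => csInf_le hSbdd ⟨m, hm, rfl⟩
  have hnonneg : 0 ≤ sInf S := by
    apply le_csInf hSne
    rintro x ⟨m, _, rfl⟩
    have := h0 m
    positivity
  refine ⟨sInf S, ?_, hle, hnonneg⟩
  rw [tendsto_order]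
  constructor
  · intro a ha
    filter_upwards [eventually_ge_atTop 1] with n hn
    exact lt_of_lt_of_le ha (hle n hn)
  · intro a ha
    obtain ⟨x, ⟨m, hm, rfl⟩, hx⟩ := exists_lt_of_csInf_lt hSne ha
    obtain ⟨C, hC⟩ := h m hm
    have hmR : (0 : ℝ) < m := by exact_mod_cast hm
    -- comparison function
    have hinv : Tendsto (fun n : ℕ => ((n : ℝ))⁻¹) atTop (𝓝 0) :=
      tendsto_inv_atTop_zero.comp tendsto_natCast_atTop_atTop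
    have hlim : Tendsto (fun n : ℕ => ((m : ℝ)⁻¹ + (n : ℝ)⁻¹) ^ 3 * L m +
        |C| * ((m : ℝ)⁻¹ + (n : ℝ)⁻¹) ^ 2 * (n : ℝ)⁻¹) atTop
        (𝓝 (((m : ℝ)⁻¹ + 0) ^ 3 * L m + |C| * ((m : ℝ)⁻¹ + 0) ^ 2 * 0)) := by
      apply Tendsto.add
      · exact ((tendsto_const_nhds.add hinv).pow 3).mul_const _
      · exact (((tendsto_const_nhds.add hinv).pow 2).const_mul _).mul hinv
    have hval : ((m : ℝ)⁻¹ + 0) ^ 3 * L m + |C| * ((m : ℝ)⁻¹ + 0) ^ 2 * 0 = L m / (m : ℝ) ^ 3 := by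
      field_simp
      ring
    rw [hval] at hlim
    filter_upwards [hlim.eventually (gt_mem_nhds hx), eventually_ge_atTop 1] with n hn hn1
    refine lt_of_le_of_lt ?_ hn
    have hnR : (0 : ℝ) < n := by exact_mod_cast hn1
    set N := n / m + 1 with hN
    have hNn : n ≤ m * N := by
      have := Nat.lt_mul_div_succ n hm
      rw [hN]
      exact this.le
    have h1 : L n ≤ (N : ℝ) ^ 3 * L m + C * (N : ℝ) ^ 2 :=
      (hmono hNn).trans (hC N (by rw [hN]; exact Nat.le_add_left 1 _))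
    have hNle : (N : ℝ) ≤ n * ((m : ℝ)⁻¹ + (n : ℝ)⁻¹) := by
      have h2 : ((n / m : ℕ) : ℝ) ≤ (n : ℝ) / m := Nat.cast_div_le
      rw [hN]
      push_cast
      have h3 : (n : ℝ) * ((m : ℝ)⁻¹ + (n : ℝ)⁻¹) = n / m + 1 := by
        field_simp
      rw [h3]
      linarith
    have hN0 : (0 : ℝ) ≤ N := by positivity
    have h4 : (N : ℝ) ^ 3 ≤ (n * ((m : ℝ)⁻¹ + (n : ℝ)⁻¹)) ^ 3 := pow_le_pow_left₀ hN0 hNle 3
    have h5 : (N : ℝ) ^ 2 ≤ (n * ((m : ℝ)⁻¹ + (n : ℝ)⁻¹)) ^ 2 := pow_le_pow_left₀ hN0 hNle 2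
    rw [div_le_iff₀ (by positivity)]
    have h6 : C * (N : ℝ) ^ 2 ≤ |C| * (n * ((m : ℝ)⁻¹ + (n : ℝ)⁻¹)) ^ 2 := by
      calc C * (N : ℝ) ^ 2 ≤ |C| * (N : ℝ) ^ 2 :=
            mul_le_mul_of_nonneg_right (le_abs_self C) (by positivity)
        _ ≤ _ := mul_le_mul_of_nonneg_left h5 (abs_nonneg C)
    have h7 : (N : ℝ) ^ 3 * L m ≤ (n * ((m : ℝ)⁻¹ + (n : ℝ)⁻¹)) ^ 3 * L m :=
      mul_le_mul_of_nonneg_right h4 (h0 m)
    calc L n ≤ (n * ((m : ℝ)⁻¹ + (n : ℝ)⁻¹)) ^ 3 * L m +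
          |C| * (n * ((m : ℝ)⁻¹ + (n : ℝ)⁻¹)) ^ 2 := by linarith
      _ = _ := by
        field_simp

end Pool.Agent.Helper69_Lech
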