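import Mathlib
import Pool.Agent.Helper69_Lech.Main

set_option linter.unusedSectionVars false
set_option linter.unusedVariables false

namespace Pool.Agent.Helper69_Lech

open Module Submodule PowerSeries IsLocalRing

variable {B : Type*} [CommRing B] [IsDedekindDomain B] [Algebra ℂ B]
  {Bl : ℕ → Submodule ℂ B} {d : ℕ} {R : Type*} [CommRing R] [Algebra ℂ R] [IsLocalRing R]
  {Φ : R →ₐ[ℂ] PowerSeries B}

theorem FR_one_le (hM : Model B Bl d R Φ) : FR Φ 1 ≤ maximalIdeal R := by
  intro r hr
  rw [mem_maximalIdeal, mem_nonunits_iff]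
  intro hu
  have h1 := (hu.map Φ).map (PowerSeries.constantCoeff (R := B))
  rw [← PowerSeries.coeff_zero_eq_constantCoeff_apply, hr 0 (by omega)] at h1
  exact not_isUnit_zero h1

/-- the constant term -/
theorem exists_const (hM : Model B Bl d R Φ) (r : R) : ∃ c : ℂ, r - algebraMap ℂ R c ∈ FR Φ 1 := by
  have h := hM.coeff_mem r 0
  rw [mul_zero, hM.hB.Bl_zero, Submodule.mem_span_singleton] at h
  obtain ⟨c, hc⟩ := h
  refine ⟨c, ?_⟩
  intro i hi
  have : i = 0 := by omega
  subst this
  rw [map_sub, map_sub, ← hc, AlgHom.commutes, PowerSeries.algebraMap_apply,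
    PowerSeries.coeff_zero_C, Algebra.algebraMap_eq_smul_one, sub_self]

theorem FR_one_eq (hM : Model B Bl d R Φ) : FR Φ 1 = maximalIdeal R := by
  apply le_antisymm (FR_one_le hM)
  intro r hr
  obtain ⟨c, hc⟩ := exists_const hM r
  by_cases hc0 : c = 0
  · rw [hc0, map_zero, sub_zero] at hc
    exact hc
  · exfalso
    have h1 : algebraMap ℂ R c ∈ maximalIdeal R := by
      have := (maximalIdeal R).sub_mem hr (FR_one_le hM hc)
      simpa using this
    rw [mem_maximalIdeal, mem_nonunits_iff] at h1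
    exact h1 ((IsUnit.mk0 c hc0).map (algebraMap ℂ R))

theorem mem_maximal_A {a : PowerSeries R} :
    a ∈ maximalIdeal (PowerSeries R) ↔ PowerSeries.coeff 0 a ∈ maximalIdeal R := by
  rw [mem_maximalIdeal, mem_maximalIdeal, mem_nonunits_iff, mem_nonunits_iff, not_iff_not,
    PowerSeries.coeff_zero_eq_constantCoeff_apply]
  exact PowerSeries.isUnit_iff_constantCoeff

theorem X_mem_maximal : (PowerSeries.X : PowerSeries R) ∈ maximalIdeal (PowerSeries R) := by
  rw [mem_maximal_A, PowerSeries.coeff_zero_X]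
  exact Submodule.zero_mem _

theorem C_mem_maximal {r : R} (hr : r ∈ maximalIdeal R) :
    PowerSeries.C r ∈ maximalIdeal (PowerSeries R) := by
  rw [mem_maximal_A, PowerSeries.coeff_zero_C]
  exact hr

/-- primary ideals satisfy the hypotheses of the main inequality -/
theorem primary_data [IsNoetherianRing R] (hM : Model B Bl d R Φ) (hd1 : 1 ≤ d)
    {I : Ideal (PowerSeries R)} (hI : I.radical = maximalIdeal (PowerSeries R)) :
    ∃ c a₀, (PowerSeries.X : PowerSeries R) ^ c ∈ I ∧ 2 ≤ a₀ ∧ FR Φ a₀ ≤ tlead I 0 := by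
  have hfg : (maximalIdeal (PowerSeries R)).FG := IsNoetherian.noetherian _
  obtain ⟨j, hj⟩ := Ideal.exists_pow_le_of_le_radical_of_fg hI.ge hfg
  refine ⟨j, 2 * j + 3, hj (Ideal.pow_mem_pow X_mem_maximal j), by omega, ?_⟩
  have h1 : FR Φ (2 * j + 3) ≤ FR Φ 2 ^ j := by
    have := FR_pow hM (a := 2) (by omega) hd1 j
    simpa using this
  have h2 : FR Φ 2 ^ j ≤ FR Φ 1 ^ j := Ideal.pow_right_mono (FR_anti (by omega)) j
  intro r hr
  have h3 : r ∈ FR Φ 1 ^ j := h2 (h1 hr)
  have h4 : PowerSeries.C r ∈ I := by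
    apply hj
    have h5 : Ideal.map (PowerSeries.C (R := R)) (FR Φ 1 ^ j) ≤
        maximalIdeal (PowerSeries R) ^ j := by
      rw [Ideal.map_pow]
      apply Ideal.pow_right_mono
      rw [Ideal.map_le_iff_le_comap]
      intro s hs
      rw [Ideal.mem_comap]
      exact C_mem_maximal (FR_one_le hM hs)
    exact h5 (Ideal.mem_map_of_mem _ h3)
  refine ⟨PowerSeries.C r, h4, ?_, ?_⟩
  · intro i hi
    omega
  · rw [PowerSeries.coeff_zero_C]

/-- main inequality for primary ideals -/
theorem primary_main [IsNoetherianRing R] (hM : Model B Bl d R Φ) (hd1 : 1 ≤ d) (hd : d ≤ 6)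
    {I : Ideal (PowerSeries R)} (hI : I.radical = maximalIdeal (PowerSeries R)) :
    Module.Finite ℂ (PowerSeries R ⧸ I) ∧
    ∃ C : ℝ, ∀ N : ℕ, 1 ≤ N → Module.Finite ℂ (PowerSeries R ⧸ I ^ N) ∧
      (finrank ℂ (PowerSeries R ⧸ I ^ N) : ℝ) ≤
        (N : ℝ) ^ 3 * finrank ℂ (PowerSeries R ⧸ I) + C * (N : ℝ) ^ 2 := by
  obtain ⟨c, a₀, hc, ha, hFR⟩ := primary_data hM hd1 hI
  exact model_main hM hd1 hd hc ha hFR

/-- auxiliary ideal: coefficient of `T^k` has order at least `n - k` -/
def JJ (Φ : R →ₐ[ℂ] PowerSeries B) (n : ℕ) : Ideal (PowerSeries R) where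
  carrier := {a | ∀ k, PowerSeries.coeff k a ∈ FR Φ (n - k)}
  add_mem' := by
    intro a b ha hb k
    rw [map_add]
    exact Ideal.add_mem _ (ha k) (hb k)
  zero_mem' := by
    intro k
    rw [map_zero]
    exact Submodule.zero_mem _
  smul_mem' := by
    intro c a ha k
    rw [smul_eq_mul, PowerSeries.coeff_mul]
    apply Ideal.sum_mem
    intro p hp
    rw [Finset.HasAntidiagonal.mem_antidiagonal] at hp
    apply Ideal.mul_mem_left
    exact FR_anti (by omega) (ha p.2)

theorem JJ_mul (m n : ℕ) : JJ Φ m * JJ Φ n ≤ JJ Φ (m + n) := by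
  rw [Ideal.mul_le]
  intro a ha b hb k
  rw [PowerSeries.coeff_mul]
  apply Ideal.sum_mem
  intro p hp
  rw [Finset.HasAntidiagonal.mem_antidiagonal] at hp
  have h1 := FR_mul_le (Φ := Φ) (m - p.1) (n - p.2) (Ideal.mul_mem_mul (ha p.1) (hb p.2))
  exact FR_anti (by omega) h1

theorem maximal_pow_le_JJ (hM : Model B Bl d R Φ) (n : ℕ) :
    maximalIdeal (PowerSeries R) ^ n ≤ JJ Φ n := by
  induction n with
  | zero =>
    intro a _ k i hi
    omega
  | succ n ih =>
    rw [pow_succ]
    refine (Ideal.mul_mono ih ?_).trans (JJ_mul n 1)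
    intro a ha k
    rcases Nat.eq_zero_or_pos k with h0 | hpos
    · subst h0
      rw [mem_maximal_A, ← FR_one_eq hM] at ha
      exact ha
    · intro i hi
      omega

theorem VV_maximal_pow (hM : Model B Bl d R Φ) {N k n : ℕ} (h : k + n < N) :
    VV Φ (maximalIdeal (PowerSeries R) ^ N) k n = ⊥ := by
  rw [eq_bot_iff]
  intro b hb
  unfold VV at hb
  rw [mem_lead] at hb
  obtain ⟨r, hr, _, rfl⟩ := hb
  obtain ⟨a, ha, _, rfl⟩ := hr
  have h1 := maximal_pow_le_JJ hM N ha k
  rw [Submodule.mem_bot]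
  exact h1 n (by omega)

/-- lower bound for the colength of powers of the maximal ideal -/
theorem le_colength_pow (hM : Model B Bl d R Φ) (hd1 : 1 ≤ d) [IsNoetherianRing R] (N : ℕ) :
    ((N : ℝ) ^ 3 - N) / 6 ≤ finrank ℂ (PowerSeries R ⧸ maximalIdeal (PowerSeries R) ^ N) := by
  rcases Nat.eq_zero_or_pos N with h0 | hN
  · subst h0
    have : (0 : ℝ) ≤ finrank ℂ (PowerSeries R ⧸ maximalIdeal (PowerSeries R) ^ 0) := by positivity
    simpa using this
  have hrad : (maximalIdeal (PowerSeries R) ^ N).radical = maximalIdeal (PowerSeries R) := by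
    rw [Ideal.radical_pow _ (by omega)]
    exact (maximalIdeal.isMaximal _).isPrime.radical
  obtain ⟨c, a₀, hc, ha, hFR⟩ := primary_data hM hd1 hrad
  -- enlarge
  have hc' : (PowerSeries.X : PowerSeries R) ^ (max c N) ∈ maximalIdeal (PowerSeries R) ^ N := by
    obtain ⟨e, he⟩ := Nat.exists_eq_add_of_le (le_max_left c N)
    rw [he, pow_add]
    exact Ideal.mul_mem_right _ _ hc
  have hFR' : FR Φ (max a₀ N) ≤ tlead (maximalIdeal (PowerSeries R) ^ N) 0 :=
    (FR_anti (le_max_left _ _)).trans hFR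
  obtain ⟨_, hrank⟩ := colength_eq_cost hM hd1 hc' hFR'
  rw [hrank]
  have h1 : ∑ n ∈ Finset.range N, ∑ μ ∈ SS d n, (N - n) ≤
      ∑ n ∈ Finset.range (max a₀ N), ∑ μ ∈ SS d n,
        cost Φ d (maximalIdeal (PowerSeries R) ^ N) (max c N) n μ := by
    refine le_trans ?_ (Finset.sum_le_sum_of_subset (Finset.range_mono (le_max_right a₀ N)))
    apply Finset.sum_le_sum
    intro n hn
    rw [Finset.mem_range] at hn
    apply Finset.sum_le_sum
    intro μ hμ
    unfold cost
    rw [if_pos hμ]
    have h2 : Finset.range (N - n) ⊆ (Finset.range (max c N)).filter fun k =>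
        finrank ℂ (VV Φ (maximalIdeal (PowerSeries R) ^ N) k n) < max μ 1 := by
      intro k hk
      rw [Finset.mem_range] at hk
      rw [Finset.mem_filter, Finset.mem_range]
      constructor
      · have := le_max_right c N
        omega
      · rw [VV_maximal_pow hM (by omega), finrank_bot]
        omega
    have h3 := Finset.card_le_card h2
    rwa [Finset.card_range] at h3
  have h2 : ∑ n ∈ Finset.range N, n * (N - n) ≤ ∑ n ∈ Finset.range N, ∑ μ ∈ SS d n, (N - n) := by
    apply Finset.sum_le_sum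
    intro n _
    rw [Finset.sum_const, smul_eq_mul]
    apply Nat.mul_le_mul_right
    rw [card_SS hM.hB hd1]
    rcases Nat.eq_zero_or_pos n with h0 | hpos
    · omega
    · rw [hM.hB.rank _ (Nat.mul_pos hd1 hpos)]
      exact Nat.le_mul_of_pos_left _ hd1
  have h3 : ((∑ n ∈ Finset.range N, n * (N - n) : ℕ) : ℝ) = ((N : ℝ) ^ 3 - N) / 6 := by
    rw [← sum_r_mul, Nat.cast_sum]
    apply Finset.sum_congr rfl
    intro n hn
    rw [Finset.mem_range] at hn
    rw [Nat.cast_mul, Nat.cast_sub hn.le]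
  rw [← h3]
  exact_mod_cast h2.trans h1

/-! ### Length and dimension -/

theorem length_eq_finrank' (hM : Model B Bl d R Φ) (I : Ideal (PowerSeries R))
    [Module.Finite ℂ (PowerSeries R ⧸ I)] :
    Module.length (PowerSeries R) (PowerSeries R ⧸ I) = finrank ℂ (PowerSeries R ⧸ I) := by
  have h1 := IsLocalRing.length_restrictScalars ℂ (PowerSeries R) (PowerSeries R ⧸ I)
  rw [Module.length_eq_finrank] at h1
  have h2 : Module.length (ResidueField ℂ) (ResidueField (PowerSeries R)) = 1 := by
    have hsurj : Function.Surjective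
        (Algebra.linearMap (ResidueField ℂ) (ResidueField (PowerSeries R))) := by
      intro x
      obtain ⟨a, rfl⟩ := IsLocalRing.residue_surjective x
      obtain ⟨c, hc⟩ := exists_const hM (PowerSeries.coeff 0 a)
      refine ⟨IsLocalRing.residue ℂ c, ?_⟩
      have h3 : a - algebraMap ℂ (PowerSeries R) c ∈ maximalIdeal (PowerSeries R) := by
        rw [mem_maximal_A, map_sub, PowerSeries.algebraMap_apply, PowerSeries.coeff_zero_C]
        exact FR_one_le hM hc
      have h4 : IsLocalRing.residue (PowerSeries R) a =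
          IsLocalRing.residue (PowerSeries R) (algebraMap ℂ (PowerSeries R) c) := by
        rw [← sub_eq_zero, ← map_sub]
        exact (IsLocalRing.residue_eq_zero_iff _).mpr h3
      rw [h4]
      rfl
    have hinj : Function.Injective
        (Algebra.linearMap (ResidueField ℂ) (ResidueField (PowerSeries R))) :=
      (algebraMap (ResidueField ℂ) (ResidueField (PowerSeries R))).injective
    rw [← (LinearEquiv.ofBijective _ ⟨hinj, hsurj⟩).length_eq]
    exact Module.length_eq_one _ _
  rw [h2, mul_one] at h1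
  exact h1.symm

end Pool.Agent.Helper69_Lech
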