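import Mathlib
import Pool.Agent.Helper69_Lech.Defs
import Pool.Agent.Helper69_Lech.Local
import Pool.Agent.Helper69_Lech.Limit

set_option linter.unusedSectionVars false
set_option linter.unusedVariables false

namespace Pool.Agent.Helper69_Lech

open Module Submodule PowerSeries IsLocalRing Filter Topology
open scoped ENNReal

variable {B : Type*} [CommRing B] [IsDedekindDomain B] [Algebra ℂ B]
  {Bl : ℕ → Submodule ℂ B} {d : ℕ} {R : Type*} [CommRing R] [Algebra ℂ R] [IsLocalRing R]
  [IsNoetherianRing R] {Φ : R →ₐ[ℂ] PowerSeries B}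

theorem colength_eq (hM : Model B Bl d R Φ) (I : Ideal (PowerSeries R))
    [Module.Finite ℂ (PowerSeries R ⧸ I)] :
    colength I = (finrank ℂ (PowerSeries R ⧸ I) : ℝ≥0∞) := by
  unfold colength
  rw [length_eq_finrank' hM I]
  simp

theorem radical_pow_eq {A : Type*} [CommRing A] [IsLocalRing A] {I : Ideal A}
    (hI : I.radical = maximalIdeal A) {m : ℕ} (hm : 1 ≤ m) : (I ^ m).radical = maximalIdeal A := by
  rw [Ideal.radical_pow _ (by omega), hI]

/-- everything about one primary ideal -/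
theorem ideal_main (hM : Model B Bl d R Φ) (hd1 : 1 ≤ d) (hd : d ≤ 6)
    (hdim : dimNat (PowerSeries R) = 3) {I : Ideal (PowerSeries R)}
    (hI : I.radical = maximalIdeal (PowerSeries R)) :
    ∃ e : ℝ, 0 ≤ e ∧ Tendsto (fun n : ℕ => (finrank ℂ (PowerSeries R ⧸ I ^ n) : ℝ) / (n : ℝ) ^ 3)
      atTop (𝓝 e) ∧ (∀ m : ℕ, 1 ≤ m → e ≤ finrank ℂ (PowerSeries R ⧸ I ^ m) / (m : ℝ) ^ 3) ∧
      Tendsto (samuelSeq I) atTop (𝓝 (ENNReal.ofReal (6 * e))) ∧
      mult I = ENNReal.ofReal (6 * e) := by
  have hfin : ∀ n, Module.Finite ℂ (PowerSeries R ⧸ I ^ n) := by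
    intro n
    rcases Nat.eq_zero_or_pos n with h0 | hpos
    · subst h0
      have : Subsingleton (PowerSeries R ⧸ I ^ 0) := by
        rw [pow_zero, Ideal.one_eq_top]
        exact Ideal.Quotient.subsingleton_iff.mpr rfl
      infer_instance
    · exact (primary_main hM hd1 hd (radical_pow_eq hI hpos)).1
  obtain ⟨e, he1, he2, he3⟩ := lim_exists (fun n => (finrank ℂ (PowerSeries R ⧸ I ^ n) : ℝ)) (by
      intro m n hmn
      have := hfin n
      have hle : I ^ n ≤ I ^ m := Ideal.pow_le_pow_right hmn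
      have h1 : finrank ℂ (PowerSeries R ⧸ I ^ m) ≤ finrank ℂ (PowerSeries R ⧸ I ^ n) :=
        LinearMap.finrank_le_finrank_of_surjective
          (f := (Ideal.Quotient.factorₐ ℂ hle).toLinearMap) (Ideal.Quotient.factor_surjective hle)
      show (finrank ℂ (PowerSeries R ⧸ I ^ m) : ℝ) ≤ (finrank ℂ (PowerSeries R ⧸ I ^ n) : ℝ)
      exact_mod_cast h1) (fun n => by positivity) (by
      intro m hm
      obtain ⟨_, C, hC⟩ := primary_main hM hd1 hd (radical_pow_eq hI hm)
      refine ⟨C, fun N hN => ?_⟩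
      have h1 := (hC N hN).2
      rw [← pow_mul] at h1
      exact h1)
  have hseq : ∀ n : ℕ, 1 ≤ n → samuelSeq I n =
      ENNReal.ofReal (6 * ((finrank ℂ (PowerSeries R ⧸ I ^ n) : ℝ) / (n : ℝ) ^ 3)) := by
    intro n hn
    have := hfin n
    have hnR : (0 : ℝ) < n := by exact_mod_cast hn
    unfold samuelSeq
    rw [hdim, colength_eq hM]
    have h6 : ((Nat.factorial 3 : ℕ) : ℝ≥0∞) = ENNReal.ofReal 6 := by
      rw [show Nat.factorial 3 = 6 from rfl]
      simp
    rw [h6, ← ENNReal.ofReal_natCast (finrank ℂ _), ← ENNReal.ofReal_natCast n,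
      ← ENNReal.ofReal_pow (by positivity), ← ENNReal.ofReal_mul (by norm_num),
      ← ENNReal.ofReal_div_of_pos (by positivity)]
    congr 1
    ring
  have htend : Tendsto (samuelSeq I) atTop (𝓝 (ENNReal.ofReal (6 * e))) := by
    have h1 : Tendsto (fun n : ℕ =>
        ENNReal.ofReal (6 * ((finrank ℂ (PowerSeries R ⧸ I ^ n) : ℝ) / (n : ℝ) ^ 3))) atTop
        (𝓝 (ENNReal.ofReal (6 * e))) := ENNReal.tendsto_ofReal (he1.const_mul 6)
    refine h1.congr' ?_
    filter_upwards [eventually_ge_atTop 1] with n hn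
    exact (hseq n hn).symm
  exact ⟨e, he3, he1, he2, htend, htend.limsup_eq⟩

theorem colength_pos {A : Type*} [CommRing A] [IsLocalRing A] {I : Ideal A}
    (hI : I.radical = maximalIdeal A) : I ≠ ⊤ := by
  intro h
  rw [h, Ideal.radical_top] at hI
  exact (maximalIdeal.isMaximal A).ne_top hI.symm

/-- **Semistability** for model rings. -/
theorem lechMumford_eq_one (hM : Model B Bl d R Φ) (hd1 : 1 ≤ d) (hd : d ≤ 6)
    (hdim : dimNat (PowerSeries R) = 3) :
    (∀ I : Ideal (PowerSeries R), I.radical = maximalIdeal (PowerSeries R) →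
      Tendsto (samuelSeq I) atTop (𝓝 (mult I))) ∧ lechMumford (PowerSeries R) = 1 := by
  constructor
  · intro I hI
    obtain ⟨e, _, _, _, h1, h2⟩ := ideal_main hM hd1 hd hdim hI
    rw [h2]
    exact h1
  have h6 : ((Nat.factorial 3 : ℕ) : ℝ≥0∞) = ENNReal.ofReal 6 := by
    rw [show Nat.factorial 3 = 6 from rfl]
    simp
  have hfinpos : ∀ I : Ideal (PowerSeries R), I.radical = maximalIdeal (PowerSeries R) →
      0 < finrank ℂ (PowerSeries R ⧸ I) := by
    intro I hI
    have hf := (primary_main hM hd1 hd hI).1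
    have : Nontrivial (PowerSeries R ⧸ I) := Ideal.Quotient.nontrivial_iff.mpr (colength_pos hI)
    exact Module.finrank_pos
  have hratio : ∀ I : Ideal (PowerSeries R), I.radical = maximalIdeal (PowerSeries R) →
      ∀ e : ℝ, mult I = ENNReal.ofReal (6 * e) →
      mult I / (((dimNat (PowerSeries R)).factorial : ℝ≥0∞) * colength I) =
        ENNReal.ofReal (e / finrank ℂ (PowerSeries R ⧸ I)) := by
    intro I hI e he
    have hf := (primary_main hM hd1 hd hI).1
    have hpos := hfinpos I hI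
    have hposR : (0 : ℝ) < finrank ℂ (PowerSeries R ⧸ I) := by exact_mod_cast hpos
    rw [he, hdim, colength_eq hM, h6, ← ENNReal.ofReal_natCast (finrank ℂ _),
      ← ENNReal.ofReal_mul (by norm_num), ← ENNReal.ofReal_div_of_pos (by positivity)]
    congr 1
    field_simp
  unfold lechMumford
  apply le_antisymm
  · apply iSup₂_le
    intro I hI
    obtain ⟨e, he0, _, hle, _, hmult⟩ := ideal_main hM hd1 hd hdim hI
    rw [hratio I hI e hmult]
    have hpos := hfinpos I hI
    have hposR : (0 : ℝ) < finrank ℂ (PowerSeries R ⧸ I) := by exact_mod_cast hpos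
    have h1 := hle 1 le_rfl
    rw [pow_one] at h1
    have h2 : e / finrank ℂ (PowerSeries R ⧸ I) ≤ 1 := by
      rw [div_le_one hposR]
      simpa using h1
    calc ENNReal.ofReal (e / finrank ℂ (PowerSeries R ⧸ I)) ≤ ENNReal.ofReal 1 :=
          ENNReal.ofReal_le_ofReal h2
      _ = 1 := ENNReal.ofReal_one
  · -- powers of the maximal ideal
    set 𝔪 := maximalIdeal (PowerSeries R) with h𝔪
    have hrad : 𝔪.radical = 𝔪 := (maximalIdeal.isMaximal _).isPrime.radical
    obtain ⟨e, he0, hlim, hle, _, _⟩ := ideal_main hM hd1 hd hdim (I := 𝔪) hrad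
    have hepos : 0 < e := by
      have h1 : Tendsto (fun n : ℕ => (((n : ℝ) ^ 3 - n) / 6) / (n : ℝ) ^ 3) atTop (𝓝 (1 / 6)) := by
        have hinv : Tendsto (fun n : ℕ => ((n : ℝ))⁻¹) atTop (𝓝 0) :=
          tendsto_inv_atTop_zero.comp tendsto_natCast_atTop_atTop
        have h2 : Tendsto (fun n : ℕ => (1 - ((n : ℝ)⁻¹) ^ 2) / 6) atTop (𝓝 ((1 - 0 ^ 2) / 6)) :=
          ((tendsto_const_nhds.sub (hinv.pow 2)).div_const 6)
        have h3 : ((1 : ℝ) - 0 ^ 2) / 6 = 1 / 6 := by norm_num
        rw [h3] at h2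
        refine h2.congr' ?_
        filter_upwards [eventually_ge_atTop 1] with n hn
        have hnR : (0 : ℝ) < n := by exact_mod_cast hn
        field_simp
      have h2 : (1 : ℝ) / 6 ≤ e := by
        refine le_of_tendsto_of_tendsto h1 hlim ?_
        filter_upwards with n
        apply div_le_div_of_nonneg_right (le_colength_pow hM hd1 n) (by positivity)
      linarith
    have hratio' : ∀ m : ℕ, 1 ≤ m → ENNReal.ofReal (e / (finrank ℂ (PowerSeries R ⧸ 𝔪 ^ m) /
        (m : ℝ) ^ 3)) ≤ ⨆ (I : Ideal (PowerSeries R)) (_ : I.radical = maximalIdeal (PowerSeries R)),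
        mult I / (((dimNat (PowerSeries R)).factorial : ℝ≥0∞) * colength I) := by
      intro m hm
      have hradm : (𝔪 ^ m).radical = maximalIdeal (PowerSeries R) := radical_pow_eq hrad hm
      obtain ⟨e', _, hlim', _, _, hmult'⟩ := ideal_main hM hd1 hd hdim (I := 𝔪 ^ m) hradm
      have hmR : (0 : ℝ) < m := by exact_mod_cast hm
      have hee' : e' = (m : ℝ) ^ 3 * e := by
        have h1 : Tendsto (fun n : ℕ => (m : ℝ) ^ 3 *
            ((finrank ℂ (PowerSeries R ⧸ 𝔪 ^ (m * n)) : ℝ) / ((m * n : ℕ) : ℝ) ^ 3)) atTop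
            (𝓝 ((m : ℝ) ^ 3 * e)) := by
          apply Tendsto.const_mul
          exact hlim.comp (tendsto_id.const_mul_atTop' hm)
        refine tendsto_nhds_unique hlim' (h1.congr' ?_)
        filter_upwards [eventually_ge_atTop 1] with n hn
        have hnR : (0 : ℝ) < n := by exact_mod_cast hn
        rw [← pow_mul]
        push_cast
        field_simp
      have h2 := hratio (𝔪 ^ m) hradm e' hmult'
      have h3 : e / (finrank ℂ (PowerSeries R ⧸ 𝔪 ^ m) / (m : ℝ) ^ 3) =
          e' / finrank ℂ (PowerSeries R ⧸ 𝔪 ^ m) := by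
        rw [hee']
        have hpos := hfinpos _ hradm
        have hposR : (0 : ℝ) < finrank ℂ (PowerSeries R ⧸ 𝔪 ^ m) := by exact_mod_cast hpos
        field_simp
      rw [h3, ← h2]
      exact le_iSup₂ (f := fun (I : Ideal (PowerSeries R))
        (_ : I.radical = maximalIdeal (PowerSeries R)) =>
        mult I / (((dimNat (PowerSeries R)).factorial : ℝ≥0∞) * colength I)) (𝔪 ^ m) hradm
    have hlim1 : Tendsto (fun m : ℕ => ENNReal.ofReal (e / (finrank ℂ (PowerSeries R ⧸ 𝔪 ^ m) /
        (m : ℝ) ^ 3))) atTop (𝓝 1) := by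
      have h1 : Tendsto (fun m : ℕ => e / ((finrank ℂ (PowerSeries R ⧸ 𝔪 ^ m) : ℝ) /
        (m : ℝ) ^ 3)) atTop (𝓝 (e / e)) := tendsto_const_nhds.div hlim hepos.ne'
      rw [div_self hepos.ne'] at h1
      have h2 := ENNReal.tendsto_ofReal h1
      rwa [ENNReal.ofReal_one] at h2
    apply le_of_tendsto hlim1
    filter_upwards [eventually_ge_atTop 1] with m hm
    exact hratio' m hm

end Pool.Agent.Helper69_Lech
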