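import Mathlib
import Pool.Agent.Helper69_Lech.Final
import Pool.Agent.Helper69_Lech.Dim
import Pool.Agent.Helper69_Lech.Fams

set_option linter.unusedSectionVars false
set_option linter.unusedVariables false

namespace Pool.Agent.Helper69_Lech

open Filter Topology WeierstrassCurve WeierstrassCurve.Affine
open scoped ENNReal

/-- `ℂ[[x,y,z]]/(f)` is a Noetherian local ring, `(ℂ[[x,y,z]]/(f))[[T]]` has dimension `3`,
the multiplicity of every primary ideal is a limit and the Lech-Mumford constant is `1`. -/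
def SemistableRing (f : MvPowerSeries (Fin 3) ℂ) : Prop :=
  ∃ _ : IsLocalRing (RR f), IsNoetherianRing (RR f) ∧
    ringKrullDim (PowerSeries (RR f)) = 3 ∧
    (∀ I : Ideal (PowerSeries (RR f)),
      I.radical = IsLocalRing.maximalIdeal (PowerSeries (RR f)) →
      Tendsto (samuelSeq I) atTop (𝓝 (mult I))) ∧
    lechMumford (PowerSeries (RR f)) = 1

theorem semistable_of_build {B : Type*} [CommRing B] [IsDedekindDomain B] [Algebra ℂ B]
    {Bl : ℕ → Submodule ℂ B} {d : ℕ} {w : Fin 3 → ℕ} {φ : Fin 3 → B} {f : MvPolynomial (Fin 3) ℂ}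
    {e wX wY : ℕ} {LT LX LY : MvPolynomial (Fin 3) ℂ} {XX YY : B} (hB : PoleData B Bl)
    (he : 1 ≤ e) (hd : d ≤ 6)
    (h : BuildData B Bl d w φ f e wX wY LT LX LY XX YY) :
    SemistableRing (f : MvPowerSeries (Fin 3) ℂ) := by
  classical
  have hfam := build_fam hB h
  have hM := model_of_fam hB hfam
  have hcc : MvPowerSeries.constantCoeff (f : MvPowerSeries (Fin 3) ℂ) = 0 := by
    rw [← MvPowerSeries.coeff_zero_eq_constantCoeff_apply, MvPolynomial.coeff_coe]
    by_contra hne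
    have h1 := hfam.homog hne
    rw [map_zero] at h1
    exact (Nat.mul_pos he (Nat.pos_of_ne_zero (h.hw 0))).ne h1
  have hne : (f : MvPowerSeries (Fin 3) ℂ) ≠ 0 := by
    intro h0
    obtain ⟨Rr, hf, hRr⟩ := h.fshape
    have h1 : MvPolynomial.coeff (Finsupp.single 0 e) f = 0 := by
      rw [← MvPolynomial.coeff_coe, h0]
      rfl
    have h2 : MvPolynomial.coeff (Finsupp.single 0 e) Rr = 0 := by
      by_contra h3
      have := (hRr _ h3).2
      rw [Finsupp.single_eq_same] at this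
      omega
    rw [hf, MvPolynomial.coeff_add, h2, add_zero, MvPolynomial.coeff_monomial, if_pos rfl] at h1
    exact one_ne_zero h1
  have hloc := isLocalRing_RR hcc
  have hdim := dimNat_PS hcc hne
  obtain ⟨h1, h2⟩ := lechMumford_eq_one hM h.hd hd hdim
  refine ⟨hloc, inferInstance, ?_, h1, h2⟩
  rw [ringKrullDim_powerSeries, ringKrullDim_RR hcc hne]
  norm_num

theorem semistable_two (l : ℂ) (hl : l ^ 6 ≠ 432) :
    SemistableRing (poly2 l : MvPowerSeries (Fin 3) ℂ) := by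
  obtain ⟨m, rfl⟩ : ∃ m, l = 2 * m := ⟨l / 2, by ring⟩
  have hD : IsDedekindDomain (WC (m ^ 2) 0 (-1)).CoordinateRing := by
    apply isDedekind rfl rfl
    apply squarefree_cub
    intro h
    apply hl
    linear_combination 16 * h
  exact semistable_of_build (poleData _) (by norm_num) (by norm_num) (fam2 m)

theorem semistable_three (l : ℂ) (hl : l ^ 3 ≠ -27) :
    SemistableRing (poly3 l : MvPowerSeries (Fin 3) ℂ) := by
  obtain ⟨m, rfl⟩ : ∃ m, l = 2 * m := ⟨l / 2, by ring⟩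
  set k : ℂ := 8 * m ^ 3 + 27 with hk
  have hk0 : k ≠ 0 := by
    intro h
    apply hl
    rw [hk] at h
    linear_combination h
  set a : ℂ := -3 * m ^ 2 / k ^ 2 with ha
  set b : ℂ := m / (3 * k ^ 3) with hb
  set c : ℂ := -1 / (108 * k ^ 4) with hc
  have hdisc : 16 * k ^ 9 * (a ^ 2 * b ^ 2 - 4 * b ^ 3 - 4 * a ^ 3 * c - 27 * c ^ 2 +
      18 * a * b * c) = -1 := by
    rw [ha, hb, hc]
    field_simp
    rw [hk]
    ring
  have hD : IsDedekindDomain (WC a b c).CoordinateRing := by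
    apply isDedekind rfl rfl
    apply squarefree_cub
    intro h
    rw [h, mul_zero] at hdisc
    norm_num at hdisc
  exact semistable_of_build (poleData _) (by norm_num) (by norm_num)
    (fam3 m k hk0 hk a b c ha hb hc)

theorem semistable_one (l : ℂ) (hl : l ^ 4 ≠ 64) :
    SemistableRing (poly1 l : MvPowerSeries (Fin 3) ℂ) := by
  obtain ⟨m, rfl⟩ : ∃ m, l = 2 * m := ⟨l / 2, by ring⟩
  obtain ⟨t, ht⟩ := IsAlgClosed.exists_eq_mul_self (m ^ 4 - 4)
  obtain ⟨r, hr⟩ := IsAlgClosed.exists_eq_mul_self ((m ^ 2 + t) / 2)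
  have hrel : r ^ 4 - m ^ 2 * r ^ 2 + 1 = 0 := by
    have h1 : r ^ 2 = (m ^ 2 + t) / 2 := by rw [hr, sq]
    have h2 : r ^ 4 = (r ^ 2) ^ 2 := by ring
    rw [h2, h1]
    linear_combination (-(1 : ℂ) / 4) * ht
  have hm4 : m ^ 4 - 4 ≠ 0 := by
    intro h
    apply hl
    linear_combination 16 * h
  set k : ℂ := 4 * r ^ 3 - 2 * m ^ 2 * r with hk
  have hr0 : r ≠ 0 := by
    intro h
    rw [h] at hrel
    norm_num at hrel
  have hk2 : k ^ 2 = 4 * r ^ 2 * (m ^ 4 - 4) := by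
    rw [hk]
    linear_combination (16 * r ^ 2) * hrel
  have hk0 : k ≠ 0 := by
    intro h
    rw [h] at hk2
    have h3 : 4 * r ^ 2 * (m ^ 4 - 4) ≠ 0 :=
      mul_ne_zero (mul_ne_zero (by norm_num) (pow_ne_zero 2 hr0)) hm4
    exact h3 (by rw [← hk2]; ring)
  set a : ℂ := -(6 * r ^ 2 - m ^ 2) / k ^ 2 with ha
  set b : ℂ := 4 * r / k ^ 3 with hb
  set c : ℂ := -1 / k ^ 4 with hc
  have hdisc : r ^ 2 * k ^ 10 * (a ^ 2 * b ^ 2 - 4 * b ^ 3 - 4 * a ^ 3 * c - 27 * c ^ 2 +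
      18 * a * b * c) = 4 * (m ^ 4 - 4) := by
    have h1 : k ^ 10 * (a ^ 2 * b ^ 2 - 4 * b ^ 3 - 4 * a ^ 3 * c - 27 * c ^ 2 +
      18 * a * b * c) = 16 * r ^ 2 * (6 * r ^ 2 - m ^ 2) ^ 2 - 256 * r ^ 3 * k -
        4 * (6 * r ^ 2 - m ^ 2) ^ 3 - 27 * k ^ 2 + 72 * r * (6 * r ^ 2 - m ^ 2) * k := by
      rw [ha, hb, hc]
      field_simp
      ring
    have h2 : k ^ 10 * (a ^ 2 * b ^ 2 - 4 * b ^ 3 - 4 * a ^ 3 * c - 27 * c ^ 2 +
      18 * a * b * c) = -4 * (2 * r ^ 2 - m ^ 2) ^ 2 * (r ^ 2 - m ^ 2) := by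
      rw [h1, hk]
      ring
    rw [mul_assoc, h2]
    linear_combination (-4 * (2 * r ^ 2 - m ^ 2) ^ 2 + 16) * hrel
  have hD : IsDedekindDomain (WC a b c).CoordinateRing := by
    apply isDedekind rfl rfl
    apply squarefree_cub
    intro h
    rw [h, mul_zero] at hdisc
    exact (mul_ne_zero (by norm_num) hm4) hdisc.symm
  exact semistable_of_build (poleData _) (by norm_num) (by norm_num)
    (fam1 m r k hk0 hrel hk a b c ha hb hc)

end Pool.Agent.Helper69_Lech
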